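import Pool.Agent.H70.K2.AVG

/-!
# OC: the telescope of a dependent part over a free part

`A j` is the free part of the cell number `j`, `B j` the dependent part; both are nested.
If the next part of `B` is almost determined by the next part of `A` and the cell, the cell
carries little information on the next part of `A`.
-/

set_option autoImplicit false

namespace Pool.OCT

open Finset Real
open Pool.Agent.H49.Ent Pool.Agent.H32.Dense Pool.STK Pool.KAF

variable {Ω : Type} [Fintype Ω] {S T U V : Type}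

/-- The telescope. -/
theorem tel {α β : ℕ → Type} {p : Ω → ℝ} (hp : ∀ ω, 0 ≤ p ω) (A : ∀ j, Ω → α j)
    (B : ∀ j, Ω → β j) (n : ℕ) (h : ℕ → ℝ)
    (hh : ∀ j < n, CH p (B (j + 1)) (fun ω => (A (j + 1) ω, (A j ω, B j ω))) ≤ h j) :
    CH p (A n) (A 0) ≤ CH p (B 0) (A 0) + ∑ j ∈ range n, h j +
      ∑ j ∈ range n, CH p (A (j + 1)) (fun ω => (A j ω, B j ω)) := by
  have swap : ∀ m k : ℕ, ∀ W : Ω → α k × β k,
      CH p (fun ω => (A m ω, B m ω)) W = CH p (A m) W + CH p (B m) (fun ω => (A m ω, W ω)) := by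
    intro m k W
    rw [← CH_chain hp (B m) (A m) W]
    refine CH_congr hp ?_ ?_ (fun _ _ _ _ h => h) (fun _ _ _ _ h => h) <;>
    · intro ω ω' _ _ hw
      simp only [Prod.mk.injEq] at hw ⊢
      tauto
  have key : ∀ m ≤ n, CH p (fun ω => (A m ω, B m ω)) (A 0) ≤ CH p (B 0) (A 0) +
      ∑ j ∈ range m, h j + ∑ j ∈ range m, CH p (A (j + 1)) (fun ω => (A j ω, B j ω)) := by
    intro m
    induction m with
    | zero =>
      intro _
      simp only [range_zero, sum_empty, add_zero]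
      refine CH_mono_left hp ?_
      intro ω ω' _ _ hw
      simp only [Prod.mk.injEq] at hw ⊢
      tauto
    | succ m ih =>
      intro hm
      have h0 := ih (by omega)
      rw [sum_range_succ, sum_range_succ]
      have h1 := hh m (by omega)
      have e1 := CH_le_add hp (fun ω => (A (m + 1) ω, B (m + 1) ω)) (fun ω => (A m ω, B m ω)) (A 0)
      have e2 : CH p (fun ω => (A (m + 1) ω, B (m + 1) ω)) (fun ω => ((A m ω, B m ω), A 0 ω)) ≤
          CH p (fun ω => (A (m + 1) ω, B (m + 1) ω)) (fun ω => (A m ω, B m ω)) :=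
        CH_mono_cond hp fun ω ω' _ _ hw => (Prod.ext_iff.1 hw).1
      have e3 := swap (m + 1) m (fun ω => (A m ω, B m ω))
      linarith
  refine le_trans ?_ (key n le_rfl)
  refine CH_mono_left hp ?_
  intro ω ω' _ _ hw
  simp only [Prod.mk.injEq] at hw
  exact hw.1.1

/-- Cross entropy with an exceptional set: given `W`, the variable `X` has values in the small
set `N W` outside an event, and always in `F W`. -/
theorem ch_exc {p : Ω → ℝ} (hp : IsLaw p) (X : Ω → S) (W : Ω → T) (N F : T → Finset S)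
    {κ L : ℝ} (hκ : 1 ≤ κ) (hL : 1 ≤ L) (hN : ∀ t, ((N t).card : ℝ) ≤ κ)
    (hF : ∀ t, ((F t).card : ℝ) ≤ L) (hX : ∀ ω, 0 < p ω → X ω ∈ F (W ω)) :
    CH p X W ≤ Real.log 2 + Real.log κ + Pr p {ω | X ω ∉ N (W ω)} * Real.log L := by
  classical
  have h := CH_le_cross hp.nonneg hp.sum_one X W
    (fun w x => (if x ∈ N w then (2 * κ)⁻¹ else 0) + (if x ∈ F w then (2 * L)⁻¹ else 0))
    (by
      intro ω hω
      rw [if_pos (hX ω hω)]
      have : 0 < (2 * L)⁻¹ := by positivity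
      split_ifs <;> positivity)
    (by intro w x; split_ifs <;> positivity)
    (by
      intro ω _ G
      rw [Finset.sum_add_distrib, ← Finset.sum_filter, ← Finset.sum_filter, Finset.sum_const,
        Finset.sum_const, nsmul_eq_mul, nsmul_eq_mul]
      have h1 : (((G.filter fun x => x ∈ N (W ω)).card : ℕ) : ℝ) ≤ κ := by
        refine le_trans ?_ (hN (W ω))
        exact_mod_cast Finset.card_le_card fun x hx => (Finset.mem_filter.mp hx).2
      have h2 : (((G.filter fun x => x ∈ F (W ω)).card : ℕ) : ℝ) ≤ L := by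
        refine le_trans ?_ (hF (W ω))
        exact_mod_cast Finset.card_le_card fun x hx => (Finset.mem_filter.mp hx).2
      have h3 := mul_le_mul_of_nonneg_right h1 (show 0 ≤ (2 * κ)⁻¹ by positivity)
      have h4 := mul_le_mul_of_nonneg_right h2 (show 0 ≤ (2 * L)⁻¹ by positivity)
      have h5 : κ * (2 * κ)⁻¹ = 1 / 2 := by field_simp
      have h6 : L * (2 * L)⁻¹ = 1 / 2 := by field_simp
      linarith)
  refine h.trans ?_
  have hl2 : 0 < Real.log 2 := Real.log_pos (by norm_num)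
  have hlk : 0 ≤ Real.log κ := Real.log_nonneg hκ
  have hlL : 0 ≤ Real.log L := Real.log_nonneg hL
  have hpt : Ex p (fun ω => -Real.log ((if X ω ∈ N (W ω) then (2 * κ)⁻¹ else 0) +
      (if X ω ∈ F (W ω) then (2 * L)⁻¹ else 0))) ≤
      Ex p (fun ω => (Real.log 2 + Real.log κ) +
        (if ω ∈ {ω | X ω ∉ N (W ω)} then Real.log L else 0)) := by
    refine Ex_mono hp.nonneg fun ω hω => ?_
    rw [if_pos (hX ω hω)]
    by_cases h1 : X ω ∈ N (W ω)
    · have h2 : ω ∉ {ω | X ω ∉ N (W ω)} := fun h' => h' h1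
      rw [if_pos h1, if_neg h2]
      have h3 : (2 * κ)⁻¹ ≤ (2 * κ)⁻¹ + (2 * L)⁻¹ := by
        have : 0 < (2 * L)⁻¹ := by positivity
        linarith
      have h4 := Real.log_le_log (by positivity) h3
      rw [Real.log_inv, Real.log_mul (by norm_num) (by positivity)] at h4
      linarith
    · have h2 : ω ∈ {ω | X ω ∉ N (W ω)} := h1
      rw [if_neg h1, if_pos h2, zero_add, Real.log_inv, neg_neg,
        Real.log_mul (by norm_num) (by positivity)]
      linarith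
  refine hpt.trans (le_of_eq ?_)
  rw [Ex_add, Ex_const hp.sum_one, Pool.KAF.Pr_eq]
  congr 1
  unfold Ex
  rw [Finset.sum_mul]
  refine Finset.sum_congr rfl fun ω _ => ?_
  by_cases h1 : ω ∈ {ω | X ω ∉ N (W ω)}
  · simp only [if_pos h1]
  · simp only [if_neg h1]
    ring

/-- Digits. -/
noncomputable def fl (σ : ℝ) (y : Ω → ℝ) (ω : Ω) : ℤ := ⌊σ * y ω⌋

omit [Fintype Ω] in
lemma fl_two_pow (k : ℕ) (σ : ℝ) (y : Ω → ℝ) (ω : Ω) :
    2 ^ k * fl σ y ω ≤ fl (2 ^ k * σ) y ω ∧ fl (2 ^ k * σ) y ω < 2 ^ k * (fl σ y ω + 1) := by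
  unfold fl
  have h2 : (0 : ℝ) < 2 ^ k := by positivity
  have h1 := Int.floor_le (σ * y ω)
  have h3 := Int.lt_floor_add_one (σ * y ω)
  constructor
  · rw [Int.le_floor]
    push_cast
    nlinarith
  · rw [Int.floor_lt]
    push_cast
    nlinarith

/-- The next `k` digits have at most `2 ^ k` values. -/
lemma ch_fl_le {p : Ω → ℝ} (hp : IsLaw p) (k : ℕ) (σ : ℝ) (y : Ω → ℝ) (G : Ω → T)
    (hG : Det p G (fl σ y)) : CH p (fl (2 ^ k * σ) y) G ≤ k * Real.log 2 := by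
  classical
  set F : T → Finset ℤ := fun g =>
    if h : ∃ ω, 0 < p ω ∧ G ω = g then
      Finset.Ico (2 ^ k * fl σ y h.choose) (2 ^ k * (fl σ y h.choose + 1)) else ∅ with hF
  have h1 := CH_le_card hp.nonneg hp.sum_one (fl (2 ^ k * σ) y) G F (by
    intro ω hω
    have hex : ∃ ω', 0 < p ω' ∧ G ω' = G ω := ⟨ω, hω, rfl⟩
    simp only [hF]
    rw [dif_pos hex]
    have h2 := hex.choose_spec
    have h3 : fl σ y hex.choose = fl σ y ω := hG _ _ h2.1 hω h2.2
    rw [h3, Finset.mem_Ico]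
    exact fl_two_pow k σ y ω)
  refine h1.trans ?_
  have h2 : Ex p (fun _ => (k : ℝ) * Real.log 2) = k * Real.log 2 := Ex_const hp.sum_one _
  rw [← h2]
  refine Ex_mono hp.nonneg fun ω hω => ?_
  have hex : ∃ ω', 0 < p ω' ∧ G ω' = G ω := ⟨ω, hω, rfl⟩
  simp only [hF]
  rw [dif_pos hex, Int.card_Ico]
  have e1 : (2 ^ k * (fl σ y hex.choose + 1) - 2 ^ k * fl σ y hex.choose : ℤ) = 2 ^ k := by ring
  rw [e1]
  have e2 : ((((2 : ℤ) ^ k).toNat : ℕ) : ℝ) = 2 ^ k := by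
    have : (((2 : ℤ) ^ k).toNat : ℤ) = 2 ^ k := Int.toNat_of_nonneg (by positivity)
    have h3 : ((((2 : ℤ) ^ k).toNat : ℤ) : ℝ) = ((2 ^ k : ℤ) : ℝ) := by rw [this]
    push_cast at h3
    exact_mod_cast h3
  rw [e2, Real.log_pow]

/-- Almost determined digits. `h g` is a function which varies by at most `v` on the cells of
`(A, G)` and is near the variable `be` outside an event. -/
theorem atom {p : Ω → ℝ} (hp : IsLaw p) (k : ℕ) {τ : ℝ} (hτ : 0 < τ) (be : Ω → ℝ) (G : Ω → T)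
    (A : Ω → S) (hG : Det p G (fl τ be)) (h : T → Ω → ℝ) {ρ v κ : ℝ} (hρ : 0 ≤ ρ) (hv : 0 ≤ v)
    (hκ : 2 ^ k * τ * (2 * (ρ + v)) + 2 ≤ κ) (hh : ∀ ω ω', 0 < p ω → 0 < p ω' → G ω = G ω' →
      A ω = A ω' → |h (G ω) ω - h (G ω) ω'| ≤ v) :
    CH p (fl (2 ^ k * τ) be) (fun ω => (A ω, G ω)) ≤ Real.log 2 + Real.log κ +
      Pr p {ω | ρ < |be ω - h (G ω) ω|} * (k * Real.log 2) := by
  classical
  have hκ1 : 1 ≤ κ := by
    have : 0 ≤ 2 ^ k * τ * (2 * (ρ + v)) := by positivity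
    linarith
  -- the small sets
  set N : S × T → Finset ℤ := fun x =>
    if hx : ∃ ω, 0 < p ω ∧ G ω = x.2 ∧ A ω = x.1 ∧ |be ω - h (G ω) ω| ≤ ρ then
      Finset.Icc ⌊2 ^ k * τ * (h x.2 hx.choose - (ρ + v))⌋
        ⌊2 ^ k * τ * (h x.2 hx.choose + (ρ + v))⌋ else ∅ with hN
  set F : S × T → Finset ℤ := fun x =>
    if hx : ∃ ω, 0 < p ω ∧ G ω = x.2 then
      Finset.Ico (2 ^ k * fl τ be hx.choose) (2 ^ k * (fl τ be hx.choose + 1)) else ∅ with hF
  have hNc : ∀ x, ((N x).card : ℝ) ≤ κ := by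
    intro x
    simp only [hN]
    split_ifs with hx
    · rw [Int.card_Icc]
      set a := 2 ^ k * τ * (h x.2 hx.choose - (ρ + v)) with ha
      set b := 2 ^ k * τ * (h x.2 hx.choose + (ρ + v)) with hb
      have h0 : a ≤ b := by
        have : 0 ≤ 2 ^ k * τ * (2 * (ρ + v)) := by positivity
        have h1 : b - a = 2 ^ k * τ * (2 * (ρ + v)) := by rw [ha, hb]; ring
        linarith
      have h1 : ⌊a⌋ ≤ ⌊b⌋ := Int.floor_le_floor h0
      have h2 : (((⌊b⌋ + 1 - ⌊a⌋).toNat : ℤ) : ℝ) = ((⌊b⌋ + 1 - ⌊a⌋ : ℤ) : ℝ) := by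
        rw [Int.toNat_of_nonneg (by linarith)]
      have h3 : (((⌊b⌋ + 1 - ⌊a⌋).toNat : ℕ) : ℝ) = ((⌊b⌋ + 1 - ⌊a⌋ : ℤ) : ℝ) := by
        rw [← h2]; push_cast; rfl
      rw [h3]
      push_cast
      have h4 := Int.floor_le b
      have h5 := Int.lt_floor_add_one a
      have h6 : b - a = 2 ^ k * τ * (2 * (ρ + v)) := by rw [ha, hb]; ring
      linarith
    · simp only [Finset.card_empty, Nat.cast_zero]
      linarith
  have hFc : ∀ x, ((F x).card : ℝ) ≤ 2 ^ k := by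
    intro x
    simp only [hF]
    split_ifs with hx
    · rw [Int.card_Ico]
      have e1 : (2 ^ k * (fl τ be hx.choose + 1) - 2 ^ k * fl τ be hx.choose : ℤ) = 2 ^ k := by
        ring
      rw [e1]
      have : (((2 : ℤ) ^ k).toNat : ℤ) = 2 ^ k := Int.toNat_of_nonneg (by positivity)
      have h3 : ((((2 : ℤ) ^ k).toNat : ℤ) : ℝ) = ((2 ^ k : ℤ) : ℝ) := by rw [this]
      push_cast at h3
      exact le_of_eq (by exact_mod_cast h3)
    · simp only [Finset.card_empty, Nat.cast_zero]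
      positivity
  have h1 := ch_exc hp (fl (2 ^ k * τ) be) (fun ω => (A ω, G ω)) N F (κ := κ) (L := 2 ^ k) hκ1
    (one_le_pow₀ (by norm_num)) hNc hFc (by
      intro ω hω
      have hex : ∃ ω', 0 < p ω' ∧ G ω' = G ω := ⟨ω, hω, rfl⟩
      simp only [hF]
      rw [dif_pos hex]
      have h3 : fl τ be hex.choose = fl τ be ω := hG _ _ hex.choose_spec.1 hω hex.choose_spec.2
      rw [h3, Finset.mem_Ico]
      exact fl_two_pow k τ be ω)
  rw [Real.log_pow] at h1
  refine h1.trans ?_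
  have hl : 0 ≤ (k : ℝ) * Real.log 2 := by positivity
  have h2 : Pr p {ω | fl (2 ^ k * τ) be ω ∉ N (A ω, G ω)} ≤
      Pr p {ω | ρ < |be ω - h (G ω) ω|} := by
    rw [Pool.KAF.Pr_eq, Pool.KAF.Pr_eq]
    refine Finset.sum_le_sum fun ω _ => ?_
    rcases (hp.nonneg ω).eq_or_lt with h0 | h0
    · rw [← h0]
      simp
    by_cases hb : ρ < |be ω - h (G ω) ω|
    · rw [if_pos (show ω ∈ {ω | ρ < |be ω - h (G ω) ω|} from hb)]
      split_ifs <;> linarith
    · rw [if_neg (show ω ∉ {ω | ρ < |be ω - h (G ω) ω|} from hb)]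
      rw [not_lt] at hb
      rw [if_neg]
      intro hcon
      apply hcon
      have hex : ∃ ω', 0 < p ω' ∧ G ω' = (A ω, G ω).2 ∧ A ω' = (A ω, G ω).1 ∧
          |be ω' - h (G ω') ω'| ≤ ρ := ⟨ω, h0, rfl, rfl, hb⟩
      simp only [hN]
      rw [dif_pos hex]
      obtain ⟨c1, c2, c3, -⟩ := hex.choose_spec
      have c4 := hh ω hex.choose h0 c1 c2.symm c3.symm
      have c5 := abs_le.1 c4
      have c6 := abs_le.1 hb
      have hpos : 0 < 2 ^ k * τ := by positivity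
      rw [Finset.mem_Icc]
      unfold fl
      constructor
      · refine Int.floor_le_floor ?_
        refine mul_le_mul_of_nonneg_left ?_ hpos.le
        linarith
      · refine Int.floor_le_floor ?_
        refine mul_le_mul_of_nonneg_left ?_ hpos.le
        linarith
  have h3 := mul_le_mul_of_nonneg_right h2 hl
  linarith

/-- Two copies with the same cell are far apart if the next digits have much entropy. -/
theorem spread {p : Ω → ℝ} (hp : IsLaw p) {a k : ℕ} (ha : 1 ≤ a) (hak : a ≤ k) {σ : ℝ}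
    (hσ : 0 < σ) (y : Ω → ℝ) (G : Ω → T) (hG : Det p G (fl σ y)) {d : ℝ}
    (hd : (k - d) * Real.log 2 ≤ CH p (fl (2 ^ k * σ) y) G) :
    Pr (dbl p G) {w | |y w.1 - y w.2| < 1 / (2 ^ a * σ)} ≤ (d + 3) / a := by
  classical
  have hl2 : 0 < Real.log 2 := Real.log_pos (by norm_num)
  have ha0 : (0 : ℝ) < a := by exact_mod_cast ha
  -- the first `a` digits
  have hk : (2 : ℝ) ^ k * σ = 2 ^ (k - a) * (2 ^ a * σ) := by
    rw [← mul_assoc, ← pow_add, Nat.sub_add_cancel hak]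
  have h1 : CH p (fl (2 ^ k * σ) y) G ≤ CH p (fl (2 ^ a * σ) y) G + (k - a) * Real.log 2 := by
    have h2 := CH_le_add hp.nonneg (fl (2 ^ k * σ) y) (fl (2 ^ a * σ) y) G
    have h3 := ch_fl_le hp (k - a) (2 ^ a * σ) y (fun ω => (fl (2 ^ a * σ) y ω, G ω))
      (fun ω ω' _ _ hw => (Prod.ext_iff.1 hw).1)
    rw [← hk, Nat.cast_sub hak] at h3
    linarith
  -- the block
  set o : Ω → ℤ := fun ω => fl (2 ^ a * σ) y ω % 2 ^ a with ho
  set F : Finset ℤ := Finset.Ico 0 (2 ^ a) with hF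
  have h2a : (0 : ℤ) < 2 ^ a := by positivity
  have hoF : ∀ ω, o ω ∈ F := by
    intro ω
    rw [hF, Finset.mem_Ico]
    exact ⟨Int.emod_nonneg _ h2a.ne', Int.emod_lt_of_pos _ h2a⟩
  have hblock : ∀ ω, fl (2 ^ a * σ) y ω = 2 ^ a * fl σ y ω + o ω := by
    intro ω
    have h3 := fl_two_pow a σ y ω
    have h4 : fl (2 ^ a * σ) y ω / 2 ^ a = fl σ y ω := by
      rw [Int.ediv_eq_iff_of_pos h2a]
      constructor <;> nlinarith [h3.1, h3.2]
    have h5 := Int.emod_add_mul_ediv (fl (2 ^ a * σ) y ω) (2 ^ a)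
    rw [h4] at h5
    linarith
  have hCo : CH p (fl (2 ^ a * σ) y) G ≤ CH p o G := by
    refine CH_mono_left hp.nonneg ?_
    intro ω ω' h3 h4 h5
    have h6 : o ω = o ω' := (Prod.ext_iff.1 h5).1
    have h7 : fl σ y ω = fl σ y ω' := hG _ _ h3 h4 (Prod.ext_iff.1 h5).2
    rw [hblock, hblock, h6, h7]
  have h6 := Pool.KX.avg6_thm Ω ℤ T p o G F (fun s x => |s - x| ≤ 1) 3 hp hoF (by norm_num) (by
    intro s
    have : (F.filter fun x => |x - s| ≤ 1) ⊆ Finset.Icc (s - 1) (s + 1) := by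
      intro x hx
      have h3 := abs_le.1 (Finset.mem_filter.1 hx).2
      rw [Finset.mem_Icc]
      omega
    refine (Finset.card_le_card this).trans ?_
    rw [Int.card_Icc]
    omega)
  have hFcard : (F.card : ℝ) = 2 ^ a := by
    rw [hF, Int.card_Ico, sub_zero]
    have : (((2 : ℤ) ^ a).toNat : ℤ) = 2 ^ a := Int.toNat_of_nonneg h2a.le
    have h3 : ((((2 : ℤ) ^ a).toNat : ℤ) : ℝ) = ((2 ^ a : ℤ) : ℝ) := by rw [this]
    push_cast at h3
    exact_mod_cast h3
  rw [hFcard, Real.log_pow] at h6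
  have hd0 : ∀ w, 0 ≤ dbl p G w := dbl_nonneg hp.nonneg
  have hsum : Pr (dbl p G) {w | ¬ |o w.1 - o w.2| ≤ 1} +
      Pr (dbl p G) {w | |o w.1 - o w.2| ≤ 1} ≤ 1 := by
    rw [Pool.KAF.Pr_eq, Pool.KAF.Pr_eq, ← Finset.sum_add_distrib]
    have h7 : ∑ w, dbl p G w = 1 := Pool.KAL.FRM.dbl_sum hp G
    rw [← h7]
    refine Finset.sum_le_sum fun w _ => ?_
    by_cases h8 : |o w.1 - o w.2| ≤ 1
    · rw [if_neg (show w ∉ {w : Ω × Ω | ¬ |o w.1 - o w.2| ≤ 1} from fun h' => h' h8),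
        if_pos (show w ∈ {w : Ω × Ω | |o w.1 - o w.2| ≤ 1} from h8), zero_add]
    · rw [if_pos (show w ∈ {w : Ω × Ω | ¬ |o w.1 - o w.2| ≤ 1} from h8),
        if_neg (show w ∉ {w : Ω × Ω | |o w.1 - o w.2| ≤ 1} from h8), add_zero]
  have hnear : Pr (dbl p G) {w | |y w.1 - y w.2| < 1 / (2 ^ a * σ)} ≤
      Pr (dbl p G) {w | |o w.1 - o w.2| ≤ 1} := by
    rw [Pool.KAF.Pr_eq, Pool.KAF.Pr_eq]
    refine Finset.sum_le_sum fun w _ => ?_
    rcases (hd0 w).eq_or_lt with h0 | h0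
    · rw [← h0]
      simp
    by_cases h8 : |y w.1 - y w.2| < 1 / (2 ^ a * σ)
    · rw [if_pos (show w ∈ {w : Ω × Ω | |y w.1 - y w.2| < 1 / (2 ^ a * σ)} from h8), if_pos]
      obtain ⟨q1, q2, q3⟩ := (glue_pos_iff hp.nonneg hp.nonneg w).1 h0
      have h9 : fl σ y w.1 = fl σ y w.2 := hG _ _ q1 q2 q3
      show |o w.1 - o w.2| ≤ 1
      have h10 : o w.1 - o w.2 = fl (2 ^ a * σ) y w.1 - fl (2 ^ a * σ) y w.2 := by
        rw [hblock, hblock, h9]
        ring
      rw [h10]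
      have hpos : 0 < 2 ^ a * σ := by positivity
      rw [lt_div_iff₀ hpos] at h8
      have h11 : |2 ^ a * σ * y w.1 - 2 ^ a * σ * y w.2| < 1 := by
        rw [← mul_sub, abs_mul, abs_of_pos hpos]
        linarith
      have h12 := abs_lt.1 h11
      unfold fl
      have f1 := Int.floor_le (2 ^ a * σ * y w.1)
      have f2 := Int.lt_floor_add_one (2 ^ a * σ * y w.1)
      have f3 := Int.floor_le (2 ^ a * σ * y w.2)
      have f4 := Int.lt_floor_add_one (2 ^ a * σ * y w.2)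
      have g1 : ((⌊2 ^ a * σ * y w.1⌋ - ⌊2 ^ a * σ * y w.2⌋ : ℤ) : ℝ) < 2 := by
        push_cast
        linarith
      have g2 : (-2 : ℝ) < ((⌊2 ^ a * σ * y w.1⌋ - ⌊2 ^ a * σ * y w.2⌋ : ℤ) : ℝ) := by
        push_cast
        linarith
      have g3 : ⌊2 ^ a * σ * y w.1⌋ - ⌊2 ^ a * σ * y w.2⌋ < 2 := by exact_mod_cast g1
      have g4 : -2 < ⌊2 ^ a * σ * y w.1⌋ - ⌊2 ^ a * σ * y w.2⌋ := by exact_mod_cast g2
      rw [abs_le]
      omega
    · rw [if_neg (show w ∉ {w : Ω × Ω | |y w.1 - y w.2| < 1 / (2 ^ a * σ)} from h8)]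
      split_ifs <;> linarith
  have hlog3 : Real.log 3 ≤ 2 * Real.log 2 := by
    rw [← Real.log_rpow (by norm_num)]
    exact Real.log_le_log (by norm_num) (by norm_num)
  push_cast at h6
  set P := Pr (dbl p G) {w | ¬ |o w.1 - o w.2| ≤ 1} with hP
  have h13 : (a - d) * Real.log 2 - 3 * Real.log 2 ≤ P * (a * Real.log 2) := by
    have : (a - d) * Real.log 2 ≤ CH p o G := by linarith
    linarith
  have h14 : (a - d) - 3 ≤ P * a := by
    have : ((a - d) - 3) * Real.log 2 ≤ (P * a) * Real.log 2 := by linarith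
    exact le_of_mul_le_mul_right this hl2
  rw [le_div_iff₀ ha0]
  have h15 : Pr (dbl p G) {w | |y w.1 - y w.2| < 1 / (2 ^ a * σ)} ≤ 1 - P := by linarith
  have h16 := mul_le_mul_of_nonneg_right h15 ha0.le
  linarith

end Pool.OCT
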