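import Pool.Agent.H70.OC.Stp

/-!
# OC, row SPRA: the telescope
-/

set_option autoImplicit false

namespace Pool.OC.SP

open Finset Real
open Pool.Agent.H49.Ent Pool.Agent.H32.Dense Pool.KAF
open Pool.OCT (fl fl_two_pow)

section

variable {d : Dat} {m : d.Lam → ℤ}

/-- Bounded digits. -/
lemma ch_bd {Ω T : Type} [Fintype Ω] {p : Ω → ℝ} (hp : Pool.STK.IsLaw p) (x : Ω → ℝ) (W : Ω → T) (N : ℕ)
    (f : Ω → ℤ) (hf : ∀ ω, f ω = ⌊x ω⌋) (hN : 1 ≤ N)
    (hx : ∀ ω ω', 0 < p ω → 0 < p ω' → W ω = W ω' → |x ω - x ω'| ≤ 2 ^ N) :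
    CH p f W ≤ (N + 2) * Real.log 2 := by
  have h1 := CH_le_int hp.nonneg hp.sum_one f W (fun _ => (2 : ℝ) ^ N + 1) (by
    intro ω ω' h h' hW
    have h2 := hx ω ω' h h' hW
    rw [hf, hf]
    have f1 := Int.floor_le (x ω)
    have f2 := Int.lt_floor_add_one (x ω)
    have f3 := Int.floor_le (x ω')
    have f4 := Int.lt_floor_add_one (x ω')
    have h3 := abs_le.1 h2
    push_cast
    rw [abs_le]
    constructor <;> linarith)
  rw [Ex_const hp.sum_one] at h1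
  refine h1.trans ?_
  have e1 : ((N : ℝ) + 2) * Real.log 2 = Real.log ((2 : ℝ) ^ (N + 2)) := by
    rw [Real.log_pow]
    push_cast
    ring
  rw [e1]
  refine Real.log_le_log (by positivity) ?_
  have h2 : (2 : ℝ) ≤ 2 ^ N := by
    calc (2 : ℝ) = 2 ^ 1 := (pow_one _).symm
      _ ≤ 2 ^ N := pow_le_pow_right₀ (by norm_num) hN
  rw [pow_add]
  linarith only [h2]

/-- The telescope. -/
theorem tele {A : ℕ} (hOK : d.OK A) {n a k K s₀ M : ℕ} {ε ε₈ : ℝ} (hm1 : ∀ l, -(4 * n : ℤ) ≤ m l)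
    (hm2 : ∀ l, m l ≤ 2 * n) (hk : a + K ≤ k) (hK : K ≤ s₀) (hs₀ : 4 * n + 1 ≤ s₀)
    (hM : s₀ + M * a ≤ d.X) (hε : 0 ≤ ε) (hH3 : d.H3 ε₈) :
    M * a * Real.log 2 - ∑ j ∈ range M, CH d.P (fl ((2 : ℝ) ^ a * 2 ^ (s₀ + j * a)) (ys d))
        (Gc d m (s₀ + j * a)) ≤
      (ε₈ * d.X + s₀ + 2 * n + 2 * A + 6 + 4 * M) * Real.log 2 + Real.log (12 * n + 1) +
        ∑ j ∈ range M, (Pr d.P (Dst d m k K (s₀ + j * a) ε) + ε) * (a * Real.log 2) := by
  classical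
  have hP := hOK.law.nonneg
  -- the telescope
  have h1 := Pool.OCT.tel hP (fun j => Af d m (s₀ + j * a)) (fun j => Bf d m (s₀ + j * a)) M
    (fun j => 4 * Real.log 2 + (Pr d.P (Dst d m k K (s₀ + j * a) ε) + ε) * (a * Real.log 2)) (by
      intro j _
      have e1 : s₀ + (j + 1) * a = s₀ + j * a + a := by ring
      rw [e1]
      exact step hOK hk (by omega) hε)
  rw [Finset.sum_add_distrib, Finset.sum_const, card_range, nsmul_eq_mul] at h1
  have e2 : ∑ j ∈ range M, CH d.P (Af d m (s₀ + (j + 1) * a))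
      (fun ω => (Af d m (s₀ + j * a) ω, Bf d m (s₀ + j * a) ω)) =
      ∑ j ∈ range M, CH d.P (fl ((2 : ℝ) ^ a * 2 ^ (s₀ + j * a)) (ys d))
        (Gc d m (s₀ + j * a)) := by
    refine Finset.sum_congr rfl fun j _ => ?_
    have e1 : s₀ + (j + 1) * a = s₀ + j * a + a := by ring
    rw [e1]
    have e3 : (2 : ℝ) ^ a * 2 ^ (s₀ + j * a) = 2 ^ (s₀ + j * a + a) := by
      rw [← pow_add]
      congr 1
      ring
    rw [e3]
    refine CH_congr hP ?_ ?_ ?_ ?_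
    · intro ω ω' _ _ h
      exact (Prod.ext_iff.1 (Prod.ext_iff.1 (Prod.ext_iff.1 h).1).2).2
    · intro ω ω' _ _ h
      obtain ⟨h2, h3⟩ := Prod.ext_iff.1 h
      have h4 := (Prod.ext_iff.1 (Gc_iff.1 h3)).1
      unfold Af at h4 ⊢
      simp only [Prod.mk.injEq] at h4 ⊢
      exact ⟨h4.1, h4.2.1, h2⟩
    · intro ω ω' _ _ h
      exact Gc_iff.2 h
    · intro ω ω' _ _ h
      exact Gc_iff.1 h
  rw [e2] at h1
  -- the start of the dependent part
  have h2 : CH d.P (Bf d m (s₀ + 0 * a)) (Af d m (s₀ + 0 * a)) ≤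
      ((s₀ + 2 * n + A + 1 : ℕ) + 2) * Real.log 2 := by
    refine ch_bd hOK.law (fun ω => (2 : ℝ) ^ (s₀ + 0 * a) * Yn d m ω) _ _ _ (fun ω => rfl)
      (by omega) ?_
    intro ω ω' h h' _
    have key : ∀ ω, 0 < d.P ω → |(2 : ℝ) ^ (s₀ + 0 * a) * Yn d m ω| ≤ 2 ^ (s₀ + 2 * n + A) := by
      intro ω hω
      have hb := hOK.hbe ω hω
      unfold Yn
      rw [zero_mul, add_zero, abs_mul, abs_mul, abs_of_pos (by positivity : (0 : ℝ) < 2 ^ s₀),
        abs_of_pos (by positivity : (0 : ℝ) < 2 ^ (m (d.L ω)))]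
      have h3 : (2 : ℝ) ^ (m (d.L ω)) ≤ 2 ^ (2 * n) := by
        rw [← zpow_natCast]
        refine zpow_le_zpow_right₀ (by norm_num) ?_
        push_cast
        exact hm2 _
      calc (2 : ℝ) ^ s₀ * ((2 : ℝ) ^ (m (d.L ω)) * |d.beR (d.L ω)|) ≤
            2 ^ s₀ * (2 ^ (2 * n) * 2 ^ A) := by
            refine mul_le_mul_of_nonneg_left ?_ (by positivity)
            exact mul_le_mul h3 hb (abs_nonneg _) (by positivity)
        _ = 2 ^ (s₀ + 2 * n + A) := by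
            rw [← pow_add, ← pow_add]
            congr 1
            ring
    have h3 := key ω h
    have h4 := key ω' h'
    have h5 := abs_sub ((2 : ℝ) ^ (s₀ + 0 * a) * Yn d m ω) ((2 : ℝ) ^ (s₀ + 0 * a) * Yn d m ω')
    have e1 : (2 : ℝ) ^ (s₀ + 2 * n + A + 1) = 2 ^ (s₀ + 2 * n + A) + 2 ^ (s₀ + 2 * n + A) := by
      rw [pow_succ]
      ring
    rw [e1]
    linarith only [h3, h4, h5]
  -- the position is full
  have h3 : CH d.P (fun ω => d.y (d.L ω)) (fun ω => d.om (d.L ω)) ≤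
      CH d.P (fun ω => m (d.L ω)) (fun ω => d.om (d.L ω)) +
      CH d.P (fun ω => d.y (d.L ω)) (fun ω => (m (d.L ω), d.om (d.L ω))) :=
    CH_le_add hP _ _ _
  have h4 : CH d.P (fun ω => m (d.L ω)) (fun ω => d.om (d.L ω)) ≤ Real.log (12 * n + 1) := by
    have h5 := CH_le_int hP hOK.law.sum_one (fun ω => m (d.L ω)) (fun ω => d.om (d.L ω))
      (fun _ => (6 * n : ℝ)) (by
        intro ω ω' _ _ _
        have a1 := hm1 (d.L ω)
        have a2 := hm2 (d.L ω)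
        have a3 := hm1 (d.L ω')
        have a4 := hm2 (d.L ω')
        have a5 : |m (d.L ω) - m (d.L ω')| ≤ 6 * n := by
          rw [abs_le]
          constructor <;> omega
        exact_mod_cast a5)
    rw [Ex_const hOK.law.sum_one] at h5
    have e1 : (2 : ℝ) * (6 * n) + 1 = 12 * n + 1 := by ring
    rw [e1] at h5
    exact h5
  have h5 : CH d.P (fun ω => d.y (d.L ω)) (fun ω => (m (d.L ω), d.om (d.L ω))) ≤
      CH d.P (Af d m s₀) (fun ω => (m (d.L ω), d.om (d.L ω))) +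
      CH d.P (fun ω => d.y (d.L ω)) (Af d m s₀) := by
    refine (CH_le_add hP _ (Af d m s₀) _).trans (add_le_add le_rfl ?_)
    exact CH_mono_cond hP fun ω ω' _ _ h => (Prod.ext_iff.1 h).1
  have h6 : CH d.P (Af d m s₀) (fun ω => (m (d.L ω), d.om (d.L ω))) ≤
      ((s₀ + A + 1 : ℕ) + 2) * Real.log 2 := by
    have e1 : CH d.P (Af d m s₀) (fun ω => (m (d.L ω), d.om (d.L ω))) =
        CH d.P (fl ((2 : ℝ) ^ s₀) (ys d)) (fun ω => (m (d.L ω), d.om (d.L ω))) := by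
      refine CH_congr hP ?_ ?_ (fun _ _ _ _ h => h) (fun _ _ _ _ h => h)
      · intro ω ω' _ _ h
        exact (Prod.ext_iff.1 (Prod.ext_iff.1 (Prod.ext_iff.1 h).1).2).2
      · intro ω ω' _ _ h
        obtain ⟨c1, c2⟩ := Prod.ext_iff.1 h
        obtain ⟨c3, c4⟩ := Prod.ext_iff.1 c2
        exact Prod.ext c3 (Prod.ext c4 c1)
    rw [e1]
    refine ch_bd hOK.law (fun ω => (2 : ℝ) ^ s₀ * ys d ω) _ _ _ (fun ω => rfl) (by omega) ?_
    intro ω ω' h h' _
    have key : ∀ ω, 0 < d.P ω → |(2 : ℝ) ^ s₀ * ys d ω| ≤ 2 ^ (s₀ + A) := by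
      intro ω hω
      have hb := hOK.hy ω hω
      unfold ys
      rw [abs_mul, abs_of_pos (by positivity : (0 : ℝ) < 2 ^ s₀), pow_add]
      exact mul_le_mul_of_nonneg_left hb (by positivity)
    have h3 := key ω h
    have h4 := key ω' h'
    have h5 := abs_sub ((2 : ℝ) ^ s₀ * ys d ω) ((2 : ℝ) ^ s₀ * ys d ω')
    have e1 : (2 : ℝ) ^ (s₀ + A + 1) = 2 ^ (s₀ + A) + 2 ^ (s₀ + A) := by
      rw [pow_succ]
      ring
    rw [e1]
    linarith only [h3, h4, h5]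
  have h7 : CH d.P (fun ω => d.y (d.L ω)) (Af d m s₀) ≤
      CH d.P (Af d m (s₀ + M * a)) (Af d m s₀) +
      CH d.P (fun ω => d.y (d.L ω)) (Af d m (s₀ + M * a)) := by
    refine (CH_le_add hP _ (Af d m (s₀ + M * a)) _).trans (add_le_add le_rfl ?_)
    exact CH_mono_cond hP fun ω ω' _ _ h => (Prod.ext_iff.1 h).1
  have h8 : CH d.P (fun ω => d.y (d.L ω)) (Af d m (s₀ + M * a)) ≤
      ((d.X : ℝ) - (s₀ + M * a)) * Real.log 2 := by
    have h9 := Pool.OCT.ch_fl_le hOK.law (d.X - (s₀ + M * a)) ((2 : ℝ) ^ (s₀ + M * a)) (ys d)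
      (Af d m (s₀ + M * a)) (by
        intro ω ω' _ _ h
        exact (Prod.ext_iff.1 (Prod.ext_iff.1 h).2).2)
    have e1 : fl ((2 : ℝ) ^ (d.X - (s₀ + M * a)) * 2 ^ (s₀ + M * a)) (ys d) =
        fun ω => d.y (d.L ω) := by
      funext ω
      unfold fl ys Dat.yR
      rw [← pow_add, Nat.sub_add_cancel hM, mul_div_cancel₀ _ (by positivity : (2 : ℝ) ^ d.X ≠ 0),
        Int.floor_intCast]
    rw [e1, Nat.cast_sub hM] at h9
    push_cast at h9
    exact h9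
  have h9 : (1 - ε₈) * d.X * Real.log 2 ≤
      CH d.P (fun ω => d.y (d.L ω)) (fun ω => d.om (d.L ω)) := hH3
  have e3 : s₀ + 0 * a = s₀ := by ring
  rw [e3] at h1 h2
  rw [← Finset.sum_mul] at h1 ⊢
  push_cast at h2 h6
  have e4 : (ε₈ * d.X + s₀ + 2 * n + 2 * A + 6 + 4 * M) * Real.log 2 =
      (s₀ + 2 * n + A + 1 + 2) * Real.log 2 + (s₀ + A + 1 + 2) * Real.log 2 +
      ((d.X : ℝ) - (s₀ + M * a)) * Real.log 2 - (1 - ε₈) * d.X * Real.log 2 +
      M * a * Real.log 2 + M * (4 * Real.log 2) := by ring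
  rw [e4]
  linarith only [h1, h3, h4, h5, h7, h8, h9, h2, h6]

end

lemma log_lin {z δ : ℝ} (hz : 0 < z) (hδ : 0 < δ) : Real.log z ≤ δ * z + 1 / δ := by
  have h1 := Real.log_le_sub_one_of_pos (mul_pos hδ hz)
  rw [Real.log_mul hδ.ne' hz.ne'] at h1
  have h2 := Real.log_le_sub_one_of_pos (inv_pos.2 hδ)
  rw [Real.log_inv] at h2
  rw [one_div]
  linarith only [h1, h2]

end Pool.OC.SP

namespace Pool.OC

open Finset Real
open Pool.Agent.H49.Ent Pool.Agent.H32.Dense Pool.KAF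
open Pool.OCT (fl)
open Pool.OC.SP

theorem spra_thm : SPRAStmt := by
  classical
  intro u ε₄ hu hu1 hε₄
  obtain ⟨a, ha1, ha14⟩ : ∃ a : ℕ, 1 ≤ a ∧ 14 / ε₄ ≤ a := by
    refine ⟨⌈14 / ε₄⌉₊ + 1, by omega, ?_⟩
    have := Nat.le_ceil (14 / ε₄)
    push_cast
    linarith only [this]
  refine ⟨a, ε₄ / 400, u * ε₄ / 256, u * ε₄ * ε₄ / 1024, ha1, by positivity, by positivity,
    by positivity, fun A k' => ?_⟩
  obtain ⟨n₁, hn₁⟩ : ∃ n₁ : ℕ, (2 * a + 2 * A + 6 + ε₄ / 4 + 16 / ε₄) / (13 * ε₄) ≤ n₁ :=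
    ⟨_, Nat.le_ceil _⟩
  refine ⟨a + 8 * (k' + 1) + 1, 8 * (k' + 1) + a + n₁, ?_⟩
  intro d J m n h k k₁ e hOK hS hn₀ hκ hk hk₁ he hRow hJ hfq hTB hH3
  have hP := hOK.law.nonneg
  have hn64 : 64 ≤ n := by
    have h1 := hS.h1
    have h2 := hS.hn
    omega
  have hnX := hS.nX
  have ha0 : (0 : ℝ) < a := by exact_mod_cast ha1
  have hL2 : 0 < Real.log 2 := Real.log_pos (by norm_num)
  -- the bad depths
  have hTB' : ∑ i ∈ range n, Pr (d.Qp i) {w | |d.ta w| < (2 : ℝ) ^ (-((i : ℤ) + k'))} ≤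
      u * ε₄ / 256 * n := by
    have h1 := hTB 0 n (by omega) (by omega)
    rw [← Finset.range_eq_Ico] at h1
    push_cast at h1
    rw [sub_zero] at h1
    exact h1
  have hbad := sum_bad (ε := ε₄ / 16) (ε₈ := u * ε₄ / 256) hOK hS hu hu1 (by positivity) hk
    (by omega) (by omega) (by positivity) hRow hJ hfq hTB'
  -- the probabilities
  obtain ⟨f, hf⟩ : ∃ f : ℕ → ℝ, f = fun (s : ℕ) => Pr (dbl d.P (Gc d m s))
    {w | |d.yR (d.L w.1) - d.yR (d.L w.2)| < (2 : ℝ) ^ (-((s : ℤ) + a))} := ⟨_, rfl⟩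
  have hf0 : ∀ s, 0 ≤ f s := by
    intro s
    rw [hf]
    exact law_nonneg (fun w => dbl_nonneg hP w) _ _
  have hf1 : ∀ s, f s ≤ 1 := by
    intro s
    rw [hf]
    exact Pool.KAF.Pr_le_one ⟨fun w => dbl_nonneg hP w, Pool.KAL.FRM.dbl_sum hOK.law _⟩ _
  show ∑ s ∈ Ico (8 * n) (d.X - 8 * n), Pr (dbl d.P (Gc d m s))
    {w | |d.yR (d.L w.1) - d.yR (d.L w.2)| < (2 : ℝ) ^ (-((s : ℤ) + a))} ≤ ε₄ * d.X
  have hgoal : ∑ s ∈ Ico (8 * n) (d.X - 8 * n), Pr (dbl d.P (Gc d m s))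
    {w | |d.yR (d.L w.1) - d.yR (d.L w.2)| < (2 : ℝ) ^ (-((s : ℤ) + a))} =
      ∑ s ∈ Ico (8 * n) (d.X - 8 * n), f s := by rw [hf]
  rw [hgoal]
  -- the spread of one depth
  have hspr : ∀ s, f s * (a * Real.log 2) ≤ a * Real.log 2 -
      CH d.P (fl ((2 : ℝ) ^ a * 2 ^ s) (ys d)) (Gc d m s) + 3 * Real.log 2 := by
    intro s
    have h1 := Pool.OCT.spread hOK.law ha1 le_rfl (by positivity : (0 : ℝ) < 2 ^ s) (ys d)
      (Gc d m s) (by
        intro ω ω' _ _ h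
        exact (Prod.ext_iff.1 (Prod.ext_iff.1 (Prod.ext_iff.1 (Gc_iff.1 h)).1).2).2)
      (d := a - CH d.P (fl ((2 : ℝ) ^ a * 2 ^ s) (ys d)) (Gc d m s) / Real.log 2) (by
        have : ((a : ℝ) - (a - CH d.P (fl ((2 : ℝ) ^ a * 2 ^ s) (ys d)) (Gc d m s) /
          Real.log 2)) * Real.log 2 = CH d.P (fl ((2 : ℝ) ^ a * 2 ^ s) (ys d)) (Gc d m s) := by
          field_simp
          ring
        rw [this])
    have e1 : f s = Pr (dbl d.P (Gc d m s)) {w | |ys d w.1 - ys d w.2| < 1 / (2 ^ a * 2 ^ s)} := by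
      rw [hf]
      have e2 : (2 : ℝ) ^ (-((s : ℤ) + a)) = 1 / (2 ^ a * 2 ^ s) := by
        rw [zpow_neg, zpow_add₀ (by norm_num), zpow_natCast, zpow_natCast, one_div, mul_comm]
      simp only [e2]
      rfl
    rw [← e1, le_div_iff₀ ha0] at h1
    have h2 := mul_le_mul_of_nonneg_right h1 hL2.le
    have e3 : ((a : ℝ) - CH d.P (fl ((2 : ℝ) ^ a * 2 ^ s) (ys d)) (Gc d m s) / Real.log 2 + 3) *
        Real.log 2 = a * Real.log 2 -
      CH d.P (fl ((2 : ℝ) ^ a * 2 ^ s) (ys d)) (Gc d m s) + 3 * Real.log 2 := by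
      field_simp
    rw [e3] at h2
    linarith only [h2]
  -- blocks
  obtain ⟨M, hM⟩ : ∃ M, M = (d.X - 17 * n) / a := ⟨_, rfl⟩
  have hMa : M * a ≤ d.X - 17 * n := by
    rw [hM]
    exact Nat.div_mul_le_self _ _
  have hMa' : d.X - 17 * n < M * a + a := by
    rw [hM]
    exact Nat.lt_div_mul_add (by omega)
  have hsplit : ∑ s ∈ Ico (8 * n) (d.X - 8 * n), f s ≤ n +
      ∑ r ∈ range a, ∑ j ∈ range M, f (9 * n + r + j * a) + a := by
    rw [← Finset.sum_Ico_consecutive f (by omega : 8 * n ≤ 9 * n) (by omega : 9 * n ≤ d.X - 8 * n),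
      ← Finset.sum_Ico_consecutive f (by omega : 9 * n ≤ 9 * n + M * a)
        (by omega : 9 * n + M * a ≤ d.X - 8 * n)]
    have h1 : ∑ s ∈ Ico (8 * n) (9 * n), f s ≤ n := by
      have h2 := Finset.sum_le_card_nsmul (Ico (8 * n) (9 * n)) f 1 fun s _ => hf1 s
      rw [Nat.card_Ico, nsmul_eq_mul, mul_one] at h2
      have h3 : 9 * n - 8 * n = n := by omega
      rw [h3] at h2
      exact h2
    have h2 : ∑ s ∈ Ico (9 * n + M * a) (d.X - 8 * n), f s ≤ a := by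
      have h2 := Finset.sum_le_card_nsmul (Ico (9 * n + M * a) (d.X - 8 * n)) f 1
        fun s _ => hf1 s
      rw [Nat.card_Ico, nsmul_eq_mul, mul_one] at h2
      refine h2.trans ?_
      exact_mod_cast (by omega : d.X - 8 * n - (9 * n + M * a) ≤ a)
    have h3 : ∑ s ∈ Ico (9 * n) (9 * n + M * a), f s =
        ∑ r ∈ range a, ∑ j ∈ range M, f (9 * n + r + j * a) := by
      rw [Finset.sum_Ico_eq_sum_range]
      have e1 : 9 * n + M * a - 9 * n = M * a := by omega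
      rw [e1, sum_blocks (fun x => f (9 * n + x))]
      refine Finset.sum_congr rfl fun r _ => Finset.sum_congr rfl fun j _ => ?_
      congr 1
      ring
    rw [h3]
    linarith only [h1, h2]
  have hDsplit : ∑ r ∈ range a, ∑ j ∈ range M,
      Pr d.P (Dst d m (k₁ - 1) (8 * (k' + 1)) (9 * n + r + j * a) (ε₄ / 16)) ≤
      ∑ s ∈ Ico (9 * n) (d.X - 8 * n),
        Pr d.P (Dst d m (k₁ - 1) (8 * (k' + 1)) s (ε₄ / 16)) := by
    have h3 : ∑ s ∈ Ico (9 * n) (9 * n + M * a),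
        Pr d.P (Dst d m (k₁ - 1) (8 * (k' + 1)) s (ε₄ / 16)) =
        ∑ r ∈ range a, ∑ j ∈ range M,
          Pr d.P (Dst d m (k₁ - 1) (8 * (k' + 1)) (9 * n + r + j * a) (ε₄ / 16)) := by
      rw [Finset.sum_Ico_eq_sum_range]
      have e1 : 9 * n + M * a - 9 * n = M * a := by omega
      rw [e1, sum_blocks (fun x =>
        Pr d.P (Dst d m (k₁ - 1) (8 * (k' + 1)) (9 * n + x) (ε₄ / 16)))]
      refine Finset.sum_congr rfl fun r _ => Finset.sum_congr rfl fun j _ => ?_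
      congr 2
      ring
    rw [← h3]
    refine Finset.sum_le_sum_of_subset_of_nonneg ?_ fun s _ _ => law_nonneg hP _ _
    exact Finset.Ico_subset_Ico le_rfl (by omega)
  -- one residue class
  have hclass : ∀ r ∈ range a, (∑ j ∈ range M, f (9 * n + r + j * a)) * (a * Real.log 2) ≤
      (u * ε₄ / 256 * d.X + 11 * n + a + 2 * A + 6 + 7 * M) * Real.log 2 +
        Real.log (12 * n + 1) + (∑ j ∈ range M,
        (Pr d.P (Dst d m (k₁ - 1) (8 * (k' + 1)) (9 * n + r + j * a) (ε₄ / 16)) +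
          ε₄ / 16)) * (a * Real.log 2) := by
    intro r hr
    rw [mem_range] at hr
    have h1 := tele (a := a) (k := k₁ - 1) (K := 8 * (k' + 1)) (s₀ := 9 * n + r) (M := M)
      (ε := ε₄ / 16) hOK hS.m1 hS.m2 (by omega) (by omega) (by omega) (by omega) (by positivity)
      hH3
    have h2 := Finset.sum_le_sum fun j (_ : j ∈ range M) => hspr (9 * n + r + j * a)
    rw [Finset.sum_add_distrib, Finset.sum_sub_distrib, Finset.sum_const, Finset.sum_const,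
      card_range, nsmul_eq_mul, nsmul_eq_mul, ← Finset.sum_mul] at h2
    rw [← Finset.sum_mul] at h1
    have h3 : ((9 * n + r : ℕ) : ℝ) ≤ 9 * n + a := by
      push_cast
      have : (r : ℝ) ≤ a := by exact_mod_cast hr.le
      linarith only [this]
    have h4 := mul_le_mul_of_nonneg_right h3 hL2.le
    nlinarith only [h1, h2, h4, h1, h2, h4]
  have hcl := Finset.sum_le_sum hclass
  rw [Finset.sum_add_distrib, ← Finset.sum_mul, ← Finset.sum_mul, Finset.sum_const, card_range,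
    nsmul_eq_mul] at hcl
  obtain ⟨F, hF⟩ : ∃ F, F = ∑ r ∈ range a, ∑ j ∈ range M, f (9 * n + r + j * a) := ⟨_, rfl⟩
  obtain ⟨D, hD⟩ : ∃ D, D = ∑ r ∈ range a, ∑ j ∈ range M,
      Pr d.P (Dst d m (k₁ - 1) (8 * (k' + 1)) (9 * n + r + j * a) (ε₄ / 16)) := ⟨_, rfl⟩
  have hDe : ∑ r ∈ range a, ∑ j ∈ range M,
      (Pr d.P (Dst d m (k₁ - 1) (8 * (k' + 1)) (9 * n + r + j * a) (ε₄ / 16)) + ε₄ / 16) =
      D + M * a * (ε₄ / 16) := by
    rw [hD]
    simp only [Finset.sum_add_distrib, Finset.sum_const, card_range, nsmul_eq_mul]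
    ring
  rw [hDe, ← hF] at hcl
  rw [← hF] at hsplit
  rw [← hD] at hDsplit
  have hMaX : (M : ℝ) * a ≤ d.X := by
    exact_mod_cast (by omega : M * a ≤ d.X)
  have hX0 : (0 : ℝ) ≤ d.X := Nat.cast_nonneg _
  have hM0 : (0 : ℝ) ≤ M := Nat.cast_nonneg _
  -- the bound for the sum of the class bounds
  have hF1 : F ≤ (u * ε₄ / 256 * d.X + 11 * n + a + 2 * A + 6 + 7 * M) +
      Real.log (12 * n + 1) / Real.log 2 + (D + M * a * (ε₄ / 16)) := by
    have h1 : 0 < (a : ℝ) * Real.log 2 := by positivity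
    refine le_of_mul_le_mul_right ?_ h1
    refine hcl.trans (le_of_eq ?_)
    field_simp
  have h7M : 7 * (M : ℝ) ≤ ε₄ / 2 * d.X := by
    rw [div_le_iff₀ hε₄] at ha14
    have h1 := mul_le_mul_of_nonneg_left ha14 hM0
    have h2 := mul_le_mul_of_nonneg_left hMaX hε₄.le
    linarith only [h1, h2]
  have hMe : (M : ℝ) * a * (ε₄ / 16) ≤ d.X * (ε₄ / 16) :=
    mul_le_mul_of_nonneg_right hMaX (by positivity)
  have hDb : D ≤ ε₄ / 16 * d.X := by
    refine hDsplit.trans (hbad.trans (mul_le_mul_of_nonneg_right ?_ hX0))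
    have h1 : e / (ε₄ / 16) ≤ u * ε₄ / 64 := by
      rw [div_le_iff₀ (by positivity)]
      linarith only [he]
    have h2 : 2 / u * (e / (ε₄ / 16) + 3 * (u * ε₄ / 256)) ≤
        2 / u * (u * ε₄ / 64 + 3 * (u * ε₄ / 256)) :=
      mul_le_mul_of_nonneg_left (by linarith only [h1]) (by positivity)
    refine h2.trans ?_
    have h3 : 2 / u * (u * ε₄ / 64 + 3 * (u * ε₄ / 256)) = 14 * ε₄ / 256 := by
      field_simp
      ring
    rw [h3]
    linarith only [hε₄]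
  have hlog : Real.log (12 * n + 1) / Real.log 2 ≤ 3 * ε₄ * n + ε₄ / 4 + 16 / ε₄ := by
    have hz : (0 : ℝ) < 12 * n + 1 := by positivity
    have h1 := log_lin hz (by positivity : (0 : ℝ) < ε₄ / 8)
    have h2 : (1 : ℝ) / 2 ≤ Real.log 2 := by
      have := Real.log_two_gt_d9
      linarith only [hL2, this]
    have h3 : 0 ≤ Real.log (12 * n + 1) := by
      refine Real.log_nonneg ?_
      have : (0 : ℝ) ≤ n := Nat.cast_nonneg _
      linarith only
    rw [div_le_iff₀ hL2]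
    have h4 : 1 / (ε₄ / 8) = 8 / ε₄ := by
      field_simp
    rw [h4] at h1
    have h5 : 0 ≤ 3 * ε₄ * n + ε₄ / 4 + 16 / ε₄ := by positivity
    have h6 : (3 * ε₄ * n + ε₄ / 4 + 16 / ε₄) * (1 / 2) ≤
        (3 * ε₄ * n + ε₄ / 4 + 16 / ε₄) * Real.log 2 := mul_le_mul_of_nonneg_left h2 h5
    refine le_trans (h1.trans (le_of_eq ?_)) h6
    ring
  have hnn : (2 * a + 2 * A + 6 + ε₄ / 4 + 16 / ε₄) ≤ 13 * ε₄ * n := by
    rw [div_le_iff₀ (by positivity)] at hn₁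
    have h1 : (n₁ : ℝ) ≤ n := by exact_mod_cast (by omega : n₁ ≤ n)
    have h2 := mul_le_mul_of_nonneg_right h1 (by positivity : 0 ≤ 13 * ε₄)
    linarith only [hn₁, h2]
  have hnX' : (64 : ℝ) * n ≤ d.X := by exact_mod_cast hnX
  have hεn := mul_le_mul_of_nonneg_left hnX' (by positivity : 0 ≤ ε₄ / 4)
  have hue : u * ε₄ / 256 * d.X ≤ ε₄ / 256 * d.X := by
    refine mul_le_mul_of_nonneg_right ?_ hX0
    have := mul_le_mul_of_nonneg_right hu1 hε₄.le
    linarith only [this]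
  have hεX : 0 ≤ ε₄ * d.X := by positivity
  linarith only [hκ, hsplit, hF1, h7M, hMe, hDb, hlog, hnn, hεn, hue]

end Pool.OC
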