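import Pool.Agent.H70.OC.H5
import Pool.Agent.H13.K2S.OcFam

/-!
# (H5) on families
-/

set_option autoImplicit false

namespace Pool.OCT

open Finset Real
open Pool.Agent.H49.Ent Pool.Agent.H32.Dense Pool.STK Pool.KAF Pool.KA Pool.K2S Pool.KSAT

variable {J : ℕ}

theorem ne_one_sub : ∀ i₀ : Fin 2, ¬ (1 - i₀ = i₀) := by decide

theorem eq_one_sub : ∀ i₀ i : Fin 2, ¬ (i = i₀) → i = 1 - i₀ := by decide

/-- The position at the time of the sample, in plank coordinates. -/
theorem pco_x (F : Fam 2 J) (w q l : ℕ) (i₀ : Fin 2) (z : Fin 2 → ℝ) (ω : F.Ω) (i : Fin 2) :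
    (2 : ℝ) ^ (q + w) * pco l i₀ z (F.x ω) i =
      2 ^ (q + w) * pco l i₀ z (F.x1 w ω) i + F.tw w ω * (2 ^ q * pco l i₀ z (F.d ω) i) := by
  have h0 : (2 : ℝ) ^ w ≠ 0 := by positivity
  have h1 : F.x ω = fun j => F.x1 w ω j + (F.tw w ω / 2 ^ w) * F.d ω j := by
    funext j
    unfold Fam.x Fam.x1 Fam.tw
    field_simp
    ring
  rw [h1, Plk.pco_add_mul, pow_add]
  field_simp

/-- Cells and box coordinates. -/
theorem pco_box (F : Fam 2 J) (w q l : ℕ) (i₀ : Fin 2) (z : F.Ω → Fin 2 → ℝ) (ω : F.Ω)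
    (i : Fin 2) :
    (2 : ℝ) ^ (q + w) * pco l i₀ (z ω) (F.x ω) i =
      ((Pool.STK.fl (q + w) (pco l i₀ (z ω) (F.x1 w ω)) i : ℝ) +
        F.tw w ω * (Pool.STK.fl q (pco l i₀ (z ω) (F.d ω)) i : ℝ)) +
      (F.gu w (q + w) l i₀ z ω i + F.tw w ω * F.gd q l i₀ z ω i) := by
  rw [pco_x F w q l i₀ (z ω) ω i]
  have h1 : (2 : ℝ) ^ (q + w) * pco l i₀ (z ω) (F.x1 w ω) i =
      (Pool.STK.fl (q + w) (pco l i₀ (z ω) (F.x1 w ω)) i : ℝ) + F.gu w (q + w) l i₀ z ω i := by
    rw [fl_app]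
    exact (Int.floor_add_fract _).symm
  have h2 : (2 : ℝ) ^ q * pco l i₀ (z ω) (F.d ω) i =
      (Pool.STK.fl q (pco l i₀ (z ω) (F.d ω)) i : ℝ) + F.gd q l i₀ z ω i := by
    rw [fl_app]
    exact (Int.floor_add_fract _).symm
  rw [h1, h2]
  ring

theorem pco_self (l : ℕ) (i₀ : Fin 2) (z x : Fin 2 → ℝ) : pco l i₀ z x i₀ = x i₀ := by
  unfold pco
  rw [if_pos rfl]

theorem pco_other (l : ℕ) {i₀ i : Fin 2} (h : ¬ i = i₀) (z x : Fin 2 → ℝ) :
    pco l i₀ z x i = 2 ^ l * (x i - z i * x i₀) := by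
  unfold pco
  rw [if_neg h]

/-- The known part of the normal position. -/
noncomputable def kn (F : Fam 2 J) (w q l : ℕ) (i₀ : Fin 2) (z : F.Ω → Fin 2 → ℝ)
    (ψ : F.Ω → ℝ) (ω : F.Ω) : ℝ :=
  ((Pool.STK.fl (q + w) (pco l i₀ (z ω) (F.x1 w ω)) (1 - i₀) : ℝ) +
    F.tw w ω * (Pool.STK.fl q (pco l i₀ (z ω) (F.d ω)) (1 - i₀) : ℝ)) -
  2 ^ l * (ψ ω - z ω (1 - i₀)) *
    ((Pool.STK.fl (q + w) (pco l i₀ (z ω) (F.x1 w ω)) i₀ : ℝ) +
      F.tw w ω * (Pool.STK.fl q (pco l i₀ (z ω) (F.d ω)) i₀ : ℝ))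

/-- The normal position with respect to the slope `ψ`. -/
theorem nu_eq (F : Fam 2 J) (w q l : ℕ) (i₀ : Fin 2) (z : F.Ω → Fin 2 → ℝ) (φ ψ : F.Ω → ℝ)
    (ω : F.Ω) :
    (2 : ℝ) ^ (q + w) * (2 ^ l * (F.x ω (1 - i₀) - ψ ω * F.x ω i₀)) =
      kn F w q l i₀ z ψ ω + nuv F i₀ w q l z φ ω +
        2 ^ l * (φ ω - ψ ω) * yv F i₀ w q l z ω := by
  have h1 := pco_box F w q l i₀ z ω (1 - i₀)
  have h2 := pco_box F w q l i₀ z ω i₀
  rw [pco_other l (ne_one_sub i₀)] at h1
  have e : (2 : ℝ) ^ (q + w) * (2 ^ l * (F.x ω (1 - i₀) - ψ ω * F.x ω i₀)) =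
      (2 : ℝ) ^ (q + w) * (2 ^ l * (F.x ω (1 - i₀) - z ω (1 - i₀) * F.x ω i₀)) -
        2 ^ l * (ψ ω - z ω (1 - i₀)) * ((2 : ℝ) ^ (q + w) * F.x ω i₀) := by ring
  have h3 : (2 : ℝ) ^ (q + w) * F.x ω i₀ = (2 : ℝ) ^ (q + w) * pco l i₀ (z ω) (F.x ω) i₀ := by
    rw [pco_self]
  rw [e, h3, h2, h1]
  unfold kn nuv yv
  ring

theorem tw_mem (F : Fam 2 J) {w : ℕ} (h : w ≤ J) (ω : F.Ω) : 0 ≤ F.tw w ω ∧ F.tw w ω < 1 :=
  T1_real F h ω

theorem yv_mem (F : Fam 2 J) {w : ℕ} (h : w ≤ J) (q l : ℕ) (i₀ : Fin 2) (z : F.Ω → Fin 2 → ℝ)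
    (ω : F.Ω) : 0 ≤ yv F i₀ w q l z ω ∧ yv F i₀ w q l z ω ≤ 2 := by
  have h1 := tw_mem F h ω
  have h2 : 0 ≤ F.gu w (q + w) l i₀ z ω i₀ := Int.fract_nonneg _
  have h3 : F.gu w (q + w) l i₀ z ω i₀ < 1 := Int.fract_lt_one _
  have h4 : 0 ≤ F.gd q l i₀ z ω i₀ := Int.fract_nonneg _
  have h5 : F.gd q l i₀ z ω i₀ < 1 := Int.fract_lt_one _
  unfold yv
  constructor
  · have := mul_nonneg h1.1 h4
    linarith only [h2, this]
  · have : F.tw w ω * F.gd q l i₀ z ω i₀ ≤ 1 * 1 :=
      mul_le_mul h1.2.le h5.le h4 (by norm_num)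
    linarith only [h3, this]

/-- Two samples with the same context and the same time. -/
theorem ctx_eq {F : Fam 2 J} {w q l : ℕ} {i₀ : Fin 2} {z : F.Ω → Fin 2 → ℝ} {ω ω' : F.Ω}
    (h : (F.qlb w q l i₀ z ω, F.T ω) = (F.qlb w q l i₀ z ω', F.T ω')) :
    F.T1 w ω = F.T1 w ω' ∧ z ω = z ω' ∧
      (∀ i, Pool.STK.fl (q + w) (pco l i₀ (z ω) (F.x1 w ω)) i =
        Pool.STK.fl (q + w) (pco l i₀ (z ω') (F.x1 w ω')) i) ∧
      (∀ i, Pool.STK.fl q (pco l i₀ (z ω) (F.d ω)) i =
        Pool.STK.fl q (pco l i₀ (z ω') (F.d ω')) i) ∧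
      F.Z ω = F.Z ω' ∧ F.T ω = F.T ω' ∧ F.tw w ω = F.tw w ω' := by
  have h1 := Prod.ext_iff.1 h
  have h2 := Prod.ext_iff.1 h1.1
  have h3 := Prod.ext_iff.1 h2.1
  have h4 := Prod.ext_iff.1 h3.1
  have h5 := Prod.ext_iff.1 h3.2
  have hT1 : F.T1 w ω = F.T1 w ω' := h4.1
  have hT : F.T ω = F.T ω' := h1.2
  refine ⟨hT1, h4.2, fun i => congrFun h5.1 i, fun i => congrFun h5.2 i, h2.2, hT, ?_⟩
  unfold Fam.tw Fam.t
  rw [hT1, hT]

theorem kn_eq {F : Fam 2 J} {w q l : ℕ} {i₀ : Fin 2} {z : F.Ω → Fin 2 → ℝ} {ψ : F.Ω → ℝ}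
    {ω ω' : F.Ω} (h : (F.qlb w q l i₀ z ω, F.T ω) = (F.qlb w q l i₀ z ω', F.T ω'))
    (hψ : ψ ω = ψ ω') : kn F w q l i₀ z ψ ω = kn F w q l i₀ z ψ ω' := by
  obtain ⟨-, h2, h3, h4, -, -, h7⟩ := ctx_eq h
  unfold kn
  rw [h3, h3, h4, h4, h7, hψ, h2]

/-- The box coordinates differ by at most `2`. -/
theorem box_close (F : Fam 2 J) {w : ℕ} (hw : w ≤ J) (q l : ℕ) (i₀ : Fin 2)
    (z : F.Ω → Fin 2 → ℝ) (ω ω' : F.Ω) (i : Fin 2) :
    |(F.gu w (q + w) l i₀ z ω i + F.tw w ω * F.gd q l i₀ z ω i) -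
      (F.gu w (q + w) l i₀ z ω' i + F.tw w ω' * F.gd q l i₀ z ω' i)| ≤ 2 := by
  have key : ∀ ω, 0 ≤ F.gu w (q + w) l i₀ z ω i + F.tw w ω * F.gd q l i₀ z ω i ∧
      F.gu w (q + w) l i₀ z ω i + F.tw w ω * F.gd q l i₀ z ω i ≤ 2 := by
    intro ω
    have h1 := tw_mem F hw ω
    have h2 : 0 ≤ F.gu w (q + w) l i₀ z ω i := Int.fract_nonneg _
    have h3 : F.gu w (q + w) l i₀ z ω i < 1 := Int.fract_lt_one _
    have h4 : 0 ≤ F.gd q l i₀ z ω i := Int.fract_nonneg _
    have h5 : F.gd q l i₀ z ω i < 1 := Int.fract_lt_one _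
    constructor
    · have := mul_nonneg h1.1 h4
      linarith only [h2, this]
    · have : F.tw w ω * F.gd q l i₀ z ω i ≤ 1 * 1 :=
        mul_le_mul h1.2.le h5.le h4 (by norm_num)
      linarith
  have h1 := key ω
  have h2 := key ω'
  rw [abs_le]
  constructor <;> linarith [h1.1, h1.2, h2.1, h2.2]

/-- **(H5)** The rows of the normal position in the context are not full. -/
theorem h5_thm : H5Stmt := by
  classical
  refine ⟨(Real.log 7 + Real.log 21 + 2 * Real.log 17) + 4 * Real.log 15 + 3 * Real.log 9, ?_⟩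
  intro J F i₀ A f n w q l v l' H L r h z z' φ e c η hp hfr hwz hwz' hslp hwv hvq hPv hPJ hlL
    hLl' hl'H _ hWS hrow
  obtain ⟨p, hpdef⟩ : ∃ p, p = Pool.Agent.H49.Ent.cond F.p A True := ⟨_, rfl⟩
  rw [← hpdef] at hp hWS hrow ⊢
  have hA : ∀ ω, 0 < p ω → A ω := by
    intro ω hω
    rw [hpdef] at hω
    have h1 := ((cond_pos_iff F.isLaw.nonneg A True ω).1 hω).2
    rw [h1]
    trivial
  have hnn := hp.nonneg
  obtain ⟨g, hg⟩ := hslp.1
  have hwJ : w ≤ J := by omega
  have hvJ : v ≤ J := by omega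
  have h2L : (0 : ℝ) < 2 ^ L := by positivity
  -- the rounded slope
  obtain ⟨k, hk⟩ : ∃ k : F.Ω → ℤ, k = fun ω => ⌊(2 : ℝ) ^ L * φ ω⌋ := ⟨_, rfl⟩
  obtain ⟨ψ, hψ⟩ : ∃ ψ : F.Ω → ℝ, ψ = fun ω => (k ω : ℝ) / 2 ^ L := ⟨_, rfl⟩
  have hψ1 : ∀ ω, 0 ≤ φ ω - ψ ω ∧ φ ω - ψ ω ≤ 1 / 2 ^ L := by
    intro ω
    have h1 := Int.floor_le ((2 : ℝ) ^ L * φ ω)
    have h3 := Int.lt_floor_add_one ((2 : ℝ) ^ L * φ ω)
    have e1 : φ ω - ψ ω = ((2 : ℝ) ^ L * φ ω - (⌊(2 : ℝ) ^ L * φ ω⌋ : ℤ)) / 2 ^ L := by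
      rw [hψ, hk]
      field_simp
    rw [e1]
    constructor
    · exact div_nonneg (by linarith only [h1]) h2L.le
    · exact div_le_div_of_nonneg_right (by linarith only [h3]) h2L.le
  exact by
   have hψf : ∀ ω, 0 < p ω → |f (Fam.pt F ω) (1 - i₀) - ψ ω| ≤ 3 / 2 ^ L := by
     intro ω hω
     have h1 := abs_le.1 (hslp.2 ω (hA ω hω))
     have h3 := hψ1 ω
     have e1 : (3 : ℝ) / 2 ^ L = 2 / 2 ^ L + 1 / 2 ^ L := by ring
     rw [abs_le, e1]
     constructor <;> linarith only [h1, h3, h1.1, h1.2, h3.1, h3.2]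
   have hz'ψ : ∀ ω, 0 < p ω → |z' ω (1 - i₀) - ψ ω| ≤ 5 / 2 ^ L := by
     intro ω hω
     have h1 := abs_le.1 (hψf ω hω)
     have h3 := abs_le.1 (hwz'.cl ω (hA ω hω) (1 - i₀) (ne_one_sub i₀))
     have h4 : (2 : ℝ) / 2 ^ l' ≤ 2 / 2 ^ L := by
       refine div_le_div_of_nonneg_left (by norm_num) h2L ?_
       exact pow_le_pow_right₀ (by norm_num) hLl'
     have e1 : (5 : ℝ) / 2 ^ L = 3 / 2 ^ L + 2 / 2 ^ L := by ring
     rw [abs_le, e1]
     constructor <;> linarith only [h1, h3, h4, h1.1, h1.2, h3.1, h3.2]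
   -- the frame of the cells
   obtain ⟨fc, hfc⟩ : ∃ fc : F.Ω → Fin 2 → ℝ, fc = fun ω i => if i = i₀ then 0 else ψ ω :=
     ⟨_, rfl⟩
   have hfcj : ∀ ω, fc ω (1 - i₀) = ψ ω := by
     intro ω
     rw [hfc]
     exact if_neg (ne_one_sub i₀)
   have hfb : ∀ ω, 0 < p ω → ∀ i, |fc ω i| ≤ 5 := by
     intro ω hω i
     by_cases hi : i = i₀
     · rw [hfc, hi]
       simp
     · rw [eq_one_sub i₀ i hi, hfcj]
       have h1 := abs_le.1 (hψf ω hω)
       have h3 := abs_le.1 (hfr.bd ω (hA ω hω) (1 - i₀))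
       have h4 : (3 : ℝ) / 2 ^ L ≤ 3 := div_le_self (by norm_num) (one_le_pow₀ (by norm_num))
       rw [abs_le]
       constructor <;> linarith only [h1, h3, h4, h1.1, h1.2, h3.1, h3.2]
   exact by
    obtain ⟨Y0, hY0⟩ : ∃ Y0 : F.Ω → ℤ × (ℕ × F.ζ), Y0 = fun ω => (k ω, F.W ω) := ⟨_, rfl⟩
    have hY0f : Det p Y0 fc := by
      intro ω ω' _ _ hh
      rw [hY0] at hh
      have h1 : k ω = k ω' := (Prod.ext_iff.1 hh).1
      rw [hfc]
      funext i
      simp only [hψ, h1]
    have hY0W : Det p Y0 F.W := by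
      intro ω ω' _ _ hh
      rw [hY0] at hh
      exact (Prod.ext_iff.1 hh).2
    -- contexts
    obtain ⟨Ctx, hCtx⟩ : ∃ Ctx, Ctx = fun ω => (F.qlb w q l i₀ z ω, F.T ω) := ⟨_, rfl⟩
    obtain ⟨Q, hQ⟩ : ∃ Q, Q = fun ω => (F.qlb v 0 l' i₀ z' ω, F.T ω) := ⟨_, rfl⟩
    rw [← hQ] at hWS
    have hφ : ∀ ω ω', Ctx ω = Ctx ω' → φ ω = φ ω' := by
      intro ω ω' hh
      rw [hg, hg]
      rw [hCtx] at hh
      exact congrArg g hh
    -- the cells
    obtain ⟨cr, hcr⟩ : ∃ cr, cr = cel (q + w) (l + r) i₀ fc F.x := ⟨_, rfl⟩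
    obtain ⟨cf, hcf⟩ : ∃ cf, cf = cel (q + w) (l + r + h) i₀ fc F.x := ⟨_, rfl⟩
    obtain ⟨XW, hXW⟩ : ∃ XW : F.Ω → ℤ, XW = fun ω => ⌊(2 : ℝ) ^ (q + w) * F.x ω i₀⌋ := ⟨_, rfl⟩
    -- (1) the base position given the label of the window `v`
    have b1 : CH p XW Q ≤ ((q + w : ℕ) - (v : ℝ)) * Real.log 2 + Real.log 7 := by
      have h1 := CH_le_add hnn XW (fun ω => ⌊(2 : ℝ) ^ v * F.x ω i₀⌋) Q
      have h3 : CH p (fun ω => ⌊(2 : ℝ) ^ v * F.x ω i₀⌋) Q ≤ Real.log 7 := by
        refine (CH_le_int hnn hp.sum_one _ Q (fun _ => 3) ?_).trans ?_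
        · intro ω ω' hω hω' hh
          refine (floor_diff (L := 2) ?_).trans (by norm_num)
          rw [hQ] at hh
          obtain ⟨-, -, c3, c4, -, -, c7⟩ := ctx_eq hh
          have e1 := pco_box F v 0 l' i₀ z' ω i₀
          have e2 := pco_box F v 0 l' i₀ z' ω' i₀
          rw [pco_self, c3, c4, c7] at e1
          rw [pco_self] at e2
          have e3 := box_close F hvJ 0 l' i₀ z' ω ω' i₀
          rw [c7] at e3
          have e4 : (2 : ℝ) ^ (0 + v) = 2 ^ v := by rw [Nat.zero_add]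
          rw [e4] at e1 e2
          rw [e1, e2]
          have e5 := abs_le.1 e3
          rw [abs_le]
          constructor <;> linarith only [e5, e5.1, e5.2]
        · rw [Ex_const hp.sum_one]
          norm_num
      have h4 : CH p XW (fun ω => (⌊(2 : ℝ) ^ v * F.x ω i₀⌋, Q ω)) ≤
          ((q + w : ℕ) - (v : ℝ)) * Real.log 2 := by
        have h5 := ch_fl_le hp (q + w - v) (2 ^ v) (fun ω => F.x ω i₀)
          (fun ω => (⌊(2 : ℝ) ^ v * F.x ω i₀⌋, Q ω)) (fun ω ω' _ _ hh => (Prod.ext_iff.1 hh).1)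
        have e1 : fl (2 ^ (q + w - v) * 2 ^ v) (fun ω => F.x ω i₀) = XW := by
          funext ω
          rw [hXW]
          unfold fl
          rw [← pow_add, Nat.sub_add_cancel hvq]
        rw [e1, Nat.cast_sub hvq] at h5
        exact h5
      linarith only [h1, h3, h4]
    -- (2) the rounded slope
    exact by
     have b2 : CH p Y0 (fun ω => (XW ω, Q ω)) ≤ Real.log 21 := by
       have h1 : CH p Y0 (fun ω => (XW ω, Q ω)) ≤ CH p k (fun ω => (XW ω, Q ω)) := by
         refine CH_mono_left hnn ?_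
         intro ω ω' _ _ hh
         have h1 := Prod.ext_iff.1 hh
         have h3 := (Prod.ext_iff.1 h1.2).2
         rw [hQ] at h3
         obtain ⟨-, -, -, -, c5, c6, -⟩ := ctx_eq h3
         rw [hY0]
         exact Prod.ext h1.1 (Prod.ext c6 c5)
       refine h1.trans ((CH_le_int hnn hp.sum_one k _ (fun _ => 10) ?_).trans ?_)
       · intro ω ω' hω hω' hh
         have h3 := (Prod.ext_iff.1 hh).2
         rw [hQ] at h3
         obtain ⟨-, c2, -⟩ := ctx_eq h3
         have key : ∀ ω, 0 < p ω → |2 ^ L * z' ω (1 - i₀) - (k ω : ℝ)| ≤ 5 := by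
           intro ω hω
           have h4 := hz'ψ ω hω
           have e1 : (2 : ℝ) ^ L * z' ω (1 - i₀) - (k ω : ℝ) =
               2 ^ L * (z' ω (1 - i₀) - ψ ω) := by
             rw [hψ]
             field_simp
           rw [e1, abs_mul, abs_of_pos h2L]
           calc (2 : ℝ) ^ L * |z' ω (1 - i₀) - ψ ω| ≤ 2 ^ L * (5 / 2 ^ L) :=
                 mul_le_mul_of_nonneg_left h4 h2L.le
             _ = 5 := by field_simp
         have k1 := abs_le.1 (key ω hω)
         have k2 := abs_le.1 (key ω' hω')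
         rw [c2] at k1
         push_cast
         rw [abs_le]
         constructor <;> linarith only [k1, k2, k1.1, k1.2, k2.1, k2.2]
       · rw [Ex_const hp.sum_one]
         norm_num
     -- (3) the fine cell
     exact by
      have b3 : CH p cf (fun ω => (Y0 ω, (XW ω, Q ω))) ≤ 2 * Real.log 17 := by
        refine (CH_le_vec hnn hp.sum_one cf _ (fun _ => 8) ?_).trans ?_
        · intro ω ω' hω hω' hh i
          have h1 := Prod.ext_iff.1 hh
          have h3 := Prod.ext_iff.1 h1.2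
          have h4 : XW ω = XW ω' := h3.1
          have h5 : Q ω = Q ω' := h3.2
          have h6 : k ω = k ω' := by
            have := h1.1
            rw [hY0] at this
            exact (Prod.ext_iff.1 this).1
          have h7 : ψ ω = ψ ω' := by rw [hψ]; simp only [h6]
          rw [hQ] at h5
          obtain ⟨-, c2, c3, c4, -, -, c7⟩ := ctx_eq h5
          by_cases hi : i = i₀
          · rw [hi, hcf, cel_self, cel_self]
            rw [hXW] at h4
            have h8 : ⌊(2 : ℝ) ^ (q + w) * F.x ω i₀⌋ = ⌊(2 : ℝ) ^ (q + w) * F.x ω' i₀⌋ := h4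
            rw [h8, sub_self]
            norm_num
          · rw [eq_one_sub i₀ i hi, hcf, cel_ne _ _ (ne_one_sub i₀), cel_ne _ _ (ne_one_sub i₀),
              hfcj, hfcj]
            refine (floor_diff (L := 7) ?_).trans (by norm_num)
            -- the normal position with respect to `z'`
            have e1 := pco_box F v 0 l' i₀ z' ω (1 - i₀)
            have e2 := pco_box F v 0 l' i₀ z' ω' (1 - i₀)
            have e3 := box_close F hvJ 0 l' i₀ z' ω ω' (1 - i₀)
            rw [c7] at e3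
            rw [c3, c4, c7, pco_other l' (ne_one_sub i₀)] at e1
            rw [pco_other l' (ne_one_sub i₀)] at e2
            have e4 : |(2 : ℝ) ^ (0 + v) * (2 ^ l' * (F.x ω (1 - i₀) - z' ω (1 - i₀) * F.x ω i₀)) -
                2 ^ (0 + v) * (2 ^ l' * (F.x ω' (1 - i₀) - z' ω' (1 - i₀) * F.x ω' i₀))| ≤ 2 := by
              rw [e1, e2]
              have e5 := abs_le.1 e3
              rw [abs_le]
              constructor <;> linarith only [e5, e5.1, e5.2]
            rw [c2] at e4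
            obtain ⟨N1, hN1⟩ : ∃ N1, N1 = F.x ω (1 - i₀) - z' ω' (1 - i₀) * F.x ω i₀ := ⟨_, rfl⟩
            obtain ⟨N2, hN2⟩ : ∃ N2, N2 = F.x ω' (1 - i₀) - z' ω' (1 - i₀) * F.x ω' i₀ := ⟨_, rfl⟩
            rw [← hN1, ← hN2] at e4
            have e6 : (2 : ℝ) ^ (q + w) * 2 ^ (l + r + h) * |N1 - N2| ≤ 2 := by
              have a1 : (2 : ℝ) ^ (0 + v) * (2 ^ l' * N1) - 2 ^ (0 + v) * (2 ^ l' * N2) =
                  2 ^ (v + l') * (N1 - N2) := by
                rw [Nat.zero_add, pow_add]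
                ring
              rw [a1, abs_mul, abs_of_pos (by positivity : (0 : ℝ) < 2 ^ (v + l'))] at e4
              refine le_trans ?_ e4
              rw [← pow_add]
              refine mul_le_mul_of_nonneg_right ?_ (abs_nonneg _)
              exact pow_le_pow_right₀ (by norm_num) (by omega)
            -- the base position
            have e7 : |(2 : ℝ) ^ (q + w) * F.x ω i₀ - 2 ^ (q + w) * F.x ω' i₀| ≤ 1 := by
              rw [hXW] at h4
              exact floor_eq_near h4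
            have e8 : (2 : ℝ) ^ (l + r + h) * |z' ω' (1 - i₀) - ψ ω'| ≤ 5 := by
              have a1 := hz'ψ ω' hω'
              have a2 : (2 : ℝ) ^ (l + r + h) ≤ 2 ^ L := pow_le_pow_right₀ (by norm_num) hlL
              calc (2 : ℝ) ^ (l + r + h) * |z' ω' (1 - i₀) - ψ ω'| ≤ 2 ^ L * (5 / 2 ^ L) :=
                    mul_le_mul a2 a1 (abs_nonneg _) h2L.le
                _ = 5 := by field_simp
            have e9 : (2 : ℝ) ^ (q + w) * (2 ^ (l + r + h) * (F.x ω (1 - i₀) - ψ ω * F.x ω i₀)) -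
                2 ^ (q + w) * (2 ^ (l + r + h) * (F.x ω' (1 - i₀) - ψ ω' * F.x ω' i₀)) =
                (2 : ℝ) ^ (q + w) * 2 ^ (l + r + h) * (N1 - N2) +
                  2 ^ (l + r + h) * (z' ω' (1 - i₀) - ψ ω') *
                    (2 ^ (q + w) * F.x ω i₀ - 2 ^ (q + w) * F.x ω' i₀) := by
              rw [hN1, hN2, h7]
              ring
            rw [e9]
            refine (abs_add_le _ _).trans ?_
            have f1 : |(2 : ℝ) ^ (q + w) * 2 ^ (l + r + h) * (N1 - N2)| ≤ 2 := by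
              rw [abs_mul, abs_of_pos (by positivity : (0 : ℝ) < 2 ^ (q + w) * 2 ^ (l + r + h))]
              exact e6
            have f2 : |2 ^ (l + r + h) * (z' ω' (1 - i₀) - ψ ω') *
                (2 ^ (q + w) * F.x ω i₀ - 2 ^ (q + w) * F.x ω' i₀)| ≤ 5 * 1 := by
              rw [abs_mul, abs_mul, abs_of_pos (by positivity : (0 : ℝ) < 2 ^ (l + r + h))]
              exact mul_le_mul e8 e7 (abs_nonneg _) (by norm_num)
            linarith only [f1, f2]
        · rw [Ex_const hp.sum_one]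
          norm_num
      -- (4) the rows of the base position are full given the cell
      exact by
       have b4 : (((l + r : ℕ) : ℝ) + (h : ℝ)) * Real.log 2 -
           (η + (Real.log 7 + Real.log 21 + 2 * Real.log 17)) ≤
           CH p (fun ω => Pool.STK.fl (q + w + (l + r) + h) (F.x ω) i₀)
             (fun ω => (cel (q + w) (l + r + h) i₀ fc F.x ω, Y0 ω)) := by
         have h1 := CH_le_add hnn (fun ω => ⌊(2 : ℝ) ^ (q + w + l + r + h) * F.x ω i₀⌋)
           (fun ω => ((cf ω, Y0 ω), XW ω)) Q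
         have h3 := CH_chain hnn (fun ω => (cf ω, Y0 ω)) XW Q
         have h4 := CH_chain hnn cf Y0 (fun ω => (XW ω, Q ω))
         have h5 : CH p (fun ω => ⌊(2 : ℝ) ^ (q + w + l + r + h) * F.x ω i₀⌋)
             (fun ω => (((cf ω, Y0 ω), XW ω), Q ω)) ≤
             CH p (fun ω => Pool.STK.fl (q + w + (l + r) + h) (F.x ω) i₀)
               (fun ω => (cel (q + w) (l + r + h) i₀ fc F.x ω, Y0 ω)) := by
           have e1 : (fun ω => Pool.STK.fl (q + w + (l + r) + h) (F.x ω) i₀) =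
               fun ω => ⌊(2 : ℝ) ^ (q + w + l + r + h) * F.x ω i₀⌋ := by
             funext ω
             rw [fl_app]
             have : q + w + (l + r) + h = q + w + l + r + h := by omega
             rw [this]
           rw [e1]
           refine CH_mono_cond hnn ?_
           intro ω ω' _ _ hh
           have h6 := (Prod.ext_iff.1 (Prod.ext_iff.1 hh).1).1
           rw [hcf] at h6
           exact h6
         have e2 : (((q + w + l + r + h : ℕ) : ℝ) - v) * Real.log 2 =
             (((l + r : ℕ) : ℝ) + (h : ℝ)) * Real.log 2 + ((q + w : ℕ) - (v : ℝ)) * Real.log 2 := by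
           push_cast
           ring
         rw [e2] at hWS
         linarith only [hWS, b1, b2, b3, h1, h3, h4, h5]
       -- (5) accounting
       exact by
        have hrow' : CH p (fun ω => Pool.STK.fl (q + w + (l + r) + h) (F.x ω))
            (fun ω => (Pool.STK.fl (q + w + (l + r)) (F.x ω), F.W ω)) ≤
            (2 - c) * (h * Real.log 2) := by
          have e1 : q + w + (l + r) + h = q + w + l + r + h := by omega
          have e2 : q + w + (l + r) = q + w + l + r := by omega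
          rw [e1, e2]
          exact hrow
        have b5 := h5_core hp i₀ fc F.x (b := 5) (by norm_num) hfb F.W Y0 hY0f hY0W (q + w) (l + r) h
          (c := c) (d := η + (Real.log 7 + Real.log 21 + 2 * Real.log 17)) hrow' b4
        have e15 : (2 : ℝ) * 5 + 5 = 15 := by norm_num
        rw [e15, ← hcr, ← hcf] at b5
        -- the error of the rounded slope
        have hE : ∀ m ≤ L, ∀ ω, 0 ≤ 2 ^ m * (φ ω - ψ ω) * yv F i₀ w q l z ω ∧
            2 ^ m * (φ ω - ψ ω) * yv F i₀ w q l z ω ≤ 2 := by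
          intro m hm ω
          have h1 := hψ1 ω
          have h3 := yv_mem F hwJ q l i₀ z ω
          have h4 : (2 : ℝ) ^ m ≤ 2 ^ L := pow_le_pow_right₀ (by norm_num) hm
          have h5 : 0 ≤ (2 : ℝ) ^ m * (φ ω - ψ ω) := mul_nonneg (by positivity) h1.1
          have h6 : (2 : ℝ) ^ m * (φ ω - ψ ω) ≤ 1 := by
            calc (2 : ℝ) ^ m * (φ ω - ψ ω) ≤ 2 ^ L * (1 / 2 ^ L) :=
                  mul_le_mul h4 h1.2 h1.1 h2L.le
              _ = 1 := by field_simp
          constructor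
          · exact mul_nonneg h5 h3.1
          · calc (2 : ℝ) ^ m * (φ ω - ψ ω) * yv F i₀ w q l z ω ≤ 1 * 2 :=
                  mul_le_mul h6 h3.2 h3.1 (by norm_num)
              _ = 2 := by norm_num
        have hnu : ∀ m, ∀ ω, (2 : ℝ) ^ (q + w) * (2 ^ (l + m) * (F.x ω (1 - i₀) - ψ ω * F.x ω i₀)) =
            2 ^ m * kn F w q l i₀ z ψ ω + 2 ^ m * nuv F i₀ w q l z φ ω +
              2 ^ (l + m) * (φ ω - ψ ω) * yv F i₀ w q l z ω := by
          intro m ω
          have h1 := nu_eq F w q l i₀ z φ ψ ω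
          have e1 : (2 : ℝ) ^ (q + w) * (2 ^ (l + m) * (F.x ω (1 - i₀) - ψ ω * F.x ω i₀)) =
              2 ^ m * (2 ^ (q + w) * (2 ^ l * (F.x ω (1 - i₀) - ψ ω * F.x ω i₀))) := by
            rw [pow_add]
            ring
          rw [e1, h1, pow_add]
          ring
        -- (6) the coarse cell from the context
        exact by
         obtain ⟨NR, hNR⟩ : ∃ NR : F.Ω → ℤ, NR = fun ω => ⌊(2 : ℝ) ^ r * nuv F i₀ w q l z φ ω⌋ :=
           ⟨_, rfl⟩
         obtain ⟨NF, hNF⟩ : ∃ NF : F.Ω → ℤ, NF = fun ω => ⌊(2 : ℝ) ^ (r + h) * nuv F i₀ w q l z φ ω⌋ :=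
           ⟨_, rfl⟩
         have goal : CH p NF (fun ω => (NR ω, Ctx ω)) ≤ (1 - c) * (h * Real.log 2) + η +
             ((Real.log 7 + Real.log 21 + 2 * Real.log 17) + 4 * Real.log 15 + 3 * Real.log 9) := by
           have h1 := CH_le_add hnn NF cf (fun ω => (NR ω, Ctx ω))
           have h3 : CH p NF (fun ω => (cf ω, (NR ω, Ctx ω))) ≤ Real.log 9 := by
             refine (CH_le_int hnn hp.sum_one NF _ (fun _ => 4) ?_).trans ?_
             · intro ω ω' hω hω' hh
               have c1 := Prod.ext_iff.1 hh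
               have c2 : Ctx ω = Ctx ω' := (Prod.ext_iff.1 c1.2).2
               have c3 := hφ ω ω' c2
               have c4 : ψ ω = ψ ω' := by
                 rw [hψ, hk]
                 simp only [c3]
               have c5 : kn F w q l i₀ z ψ ω = kn F w q l i₀ z ψ ω' := by
                 rw [hCtx] at c2
                 exact kn_eq c2 c4
               have c6 : cf ω (1 - i₀) = cf ω' (1 - i₀) := congrFun c1.1 _
               rw [hcf, cel_ne _ _ (ne_one_sub i₀), cel_ne _ _ (ne_one_sub i₀), hfcj, hfcj] at c6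
               have c7 := floor_eq_near c6
               have e1 : l + r + h = l + (r + h) := by omega
               rw [e1, hnu, hnu, c5] at c7
               have c8 := hE (l + (r + h)) (by omega) ω
               have c9 := hE (l + (r + h)) (by omega) ω'
               rw [hNF]
               refine (floor_diff (L := 3) ?_).trans (by norm_num)
               have c10 := abs_le.1 c7
               rw [abs_le]
               constructor <;> linarith only [c8, c9, c10, c10.1, c10.2, c8.1, c8.2, c9.1, c9.2]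
             · rw [Ex_const hp.sum_one]
               norm_num
           have h4 := CH_le_add hnn cf (fun ω => (cr ω, Y0 ω)) (fun ω => (NR ω, Ctx ω))
           have h5 : CH p cf (fun ω => ((cr ω, Y0 ω), (NR ω, Ctx ω))) ≤
               CH p cf (fun ω => (cr ω, Y0 ω)) :=
             CH_mono_cond hnn fun ω ω' _ _ hh => (Prod.ext_iff.1 hh).1
           have h6 : CH p (fun ω => (cr ω, Y0 ω)) (fun ω => (NR ω, Ctx ω)) ≤
               CH p cr (fun ω => (NR ω, Ctx ω)) := by
             refine CH_mono_left hnn ?_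
             intro ω ω' _ _ hh
             have c1 := Prod.ext_iff.1 hh
             have c2 : Ctx ω = Ctx ω' := (Prod.ext_iff.1 c1.2).2
             have c3 := hφ ω ω' c2
             rw [hCtx] at c2
             obtain ⟨-, -, -, -, c5, c6, -⟩ := ctx_eq c2
             refine Prod.ext c1.1 ?_
             rw [hY0, hk]
             simp only [c3]
             exact Prod.ext rfl (Prod.ext c6 c5)
           have h7 : CH p cr (fun ω => (NR ω, Ctx ω)) ≤ 2 * Real.log 9 := by
             refine (CH_le_vec hnn hp.sum_one cr _ (fun _ => 4) ?_).trans ?_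
             · intro ω ω' hω hω' hh i
               have c1 := Prod.ext_iff.1 hh
               have c2 : Ctx ω = Ctx ω' := c1.2
               have c0 : NR ω = NR ω' := c1.1
               have c3 := hφ ω ω' c2
               have c4 : ψ ω = ψ ω' := by
                 rw [hψ, hk]
                 simp only [c3]
               have c2' := c2
               rw [hCtx] at c2'
               have c5 : kn F w q l i₀ z ψ ω = kn F w q l i₀ z ψ ω' := kn_eq c2' c4
               by_cases hi : i = i₀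
               · rw [hi, hcr, cel_self, cel_self]
                 refine (floor_diff (L := 2) ?_).trans (by norm_num)
                 obtain ⟨-, -, d3, d4, -, -, d7⟩ := ctx_eq c2'
                 have e1 := pco_box F w q l i₀ z ω i₀
                 have e2 := pco_box F w q l i₀ z ω' i₀
                 have e3 := box_close F hwJ q l i₀ z ω ω' i₀
                 rw [d7] at e3
                 rw [pco_self, d3, d4, d7] at e1
                 rw [pco_self] at e2
                 rw [e1, e2]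
                 have e5 := abs_le.1 e3
                 rw [abs_le]
                 constructor <;> linarith only [e5, e5.1, e5.2]
               · rw [eq_one_sub i₀ i hi, hcr, cel_ne _ _ (ne_one_sub i₀), cel_ne _ _ (ne_one_sub i₀),
                   hfcj, hfcj]
                 refine (floor_diff (L := 3) ?_).trans (by norm_num)
                 rw [hNR] at c0
                 have c7 := floor_eq_near c0
                 rw [hnu, hnu, c5]
                 have c8 := hE (l + r) (by omega) ω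
                 have c9 := hE (l + r) (by omega) ω'
                 have c10 := abs_le.1 c7
                 rw [abs_le]
                 constructor <;> linarith only [c8, c9, c10, c10.1, c10.2, c8.1, c8.2, c9.1, c9.2]
             · rw [Ex_const hp.sum_one]
               norm_num
           linarith only [b5, h1, h3, h4, h5, h6, h7]
         exact by
          rw [hNF, hNR, hCtx] at goal
          exact goal

end Pool.OCT
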