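import Pool.Agent.H13.K2S.OcAsm
import Pool.Agent.H50.K2.Piece
import Pool.Agent.H52.K2.RG
import Pool.Agent.H70.OC.H5F

/-!
# Rows of large parts

Regularity of the positions on the mesh passes to large parts, so the rows of a large part are
not full if the rows of the whole are not full.
-/

set_option autoImplicit false

namespace Pool.K2S

open Finset Real
open Pool.Agent.H49.Ent Pool.Agent.H32.Dense Pool.STK Pool.KA Pool.KSAT

namespace RWS

variable {Ω T : Type} [Fintype Ω]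

/-- New digits of a vector. -/
theorem fl_rows {p : Ω → ℝ} (hp : IsLaw p) (x : Ω → Fin 2 → ℝ) (W : Ω → T) {g g' : ℕ}
    (hg : g ≤ g') (hW : Det p W (fun ω => Pool.STK.fl g (x ω))) :
    CH p (fun ω => Pool.STK.fl g' (x ω)) W ≤ 2 * (((g' : ℝ) - g) * Real.log 2) := by
  have e0 : ∀ i ω, Pool.STK.fl g' (x ω) i =
      Pool.OCT.fl (2 ^ (g' - g) * 2 ^ g) (fun ω => x ω i) ω := by
    intro i ω
    show ⌊(2 : ℝ) ^ g' * x ω i⌋ = ⌊(2 : ℝ) ^ (g' - g) * 2 ^ g * x ω i⌋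
    rw [← pow_add, Nat.sub_add_cancel hg]
  have e1 : CH p (fun ω => Pool.STK.fl g' (x ω)) W =
      CH p (fun ω => (Pool.OCT.fl (2 ^ (g' - g) * 2 ^ g) (fun ω => x ω 0) ω,
        Pool.OCT.fl (2 ^ (g' - g) * 2 ^ g) (fun ω => x ω 1) ω)) W := by
    refine CH_congr hp.nonneg ?_ ?_ (fun _ _ _ _ h => h) (fun _ _ _ _ h => h)
    · intro ω ω' _ _ h
      have h1 := (Prod.ext_iff.1 h).1
      refine Prod.ext ?_ ?_
      · show Pool.OCT.fl (2 ^ (g' - g) * 2 ^ g) (fun ω => x ω 0) ω = _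
        rw [← e0 0 ω]
        exact (congrFun h1 0).trans (e0 0 ω')
      · show Pool.OCT.fl (2 ^ (g' - g) * 2 ^ g) (fun ω => x ω 1) ω = _
        rw [← e0 1 ω]
        exact (congrFun h1 1).trans (e0 1 ω')
    · intro ω ω' _ _ h
      obtain ⟨h1, h2⟩ := Prod.ext_iff.1 (Prod.ext_iff.1 h).1
      funext i
      show Pool.STK.fl g' (x ω) i = Pool.STK.fl g' (x ω') i
      rw [e0, e0]
      fin_cases i
      · exact h1
      · exact h2
  rw [e1]
  refine (CH_subadd hp.nonneg _ _ _).trans ?_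
  have h1 : ∀ i : Fin 2, CH p (Pool.OCT.fl (2 ^ (g' - g) * 2 ^ g) (fun ω => x ω i)) W ≤
      ((g' : ℝ) - g) * Real.log 2 := by
    intro i
    have h2 := Pool.OCT.ch_fl_le hp (g' - g) (2 ^ g) (fun ω => x ω i) W (by
      intro ω ω' h h' hh
      exact congrFun (hW ω ω' h h' hh) i)
    rw [Nat.cast_sub hg] at h2
    exact h2
  have h2 := h1 0
  have h3 := h1 1
  linarith only [h2, h3]

omit [Fintype Ω] in
/-- Nested digits. -/
theorem fl_det (p : Ω → ℝ) (x : Ω → Fin 2 → ℝ) {g g' : ℕ} (hg : g ≤ g') :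
    Det p (fun ω => Pool.STK.fl g' (x ω)) (fun ω => Pool.STK.fl g (x ω)) := by
  intro ω ω' _ _ h
  funext i
  have h1 : ⌊(2 : ℝ) ^ g' * x ω i⌋ = ⌊(2 : ℝ) ^ g' * x ω' i⌋ := congrFun h i
  show ⌊(2 : ℝ) ^ g * x ω i⌋ = ⌊(2 : ℝ) ^ g * x ω' i⌋
  have e : (2 : ℝ) ^ g' = 2 ^ (g' - g) * 2 ^ g := by
    rw [← pow_add, Nat.sub_add_cancel hg]
  rw [e] at h1
  have h2 := Pool.OCT.fl_two_pow (Ω := Ω) (g' - g) (2 ^ g) (fun ω => x ω i) ω
  have h3 := Pool.OCT.fl_two_pow (Ω := Ω) (g' - g) (2 ^ g) (fun ω => x ω i) ω'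
  unfold Pool.OCT.fl at h2 h3
  beta_reduce at h2 h3
  rw [h1] at h2
  have hk : (0 : ℤ) < 2 ^ (g' - g) := by positivity
  have h4 := lt_of_mul_lt_mul_left (lt_of_le_of_lt h2.1 h3.2) hk.le
  have h5 := lt_of_mul_lt_mul_left (lt_of_le_of_lt h3.1 h2.2) hk.le
  omega

/-- The conditional entropy of a finer position as a difference. -/
theorem CH_diff {p : Ω → ℝ} (hp : IsLaw p) (x : Ω → Fin 2 → ℝ) (W : Ω → T) {g g' : ℕ}
    (hg : g ≤ g') :
    CH p (fun ω => Pool.STK.fl g' (x ω)) (fun ω => (Pool.STK.fl g (x ω), W ω)) =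
      H p (fun ω => (Pool.STK.fl g' (x ω), W ω)) - H p (fun ω => (Pool.STK.fl g (x ω), W ω)) := by
  unfold CH
  congr 1
  refine H_congr hp.nonneg ?_ ?_
  · intro ω ω' h h' hh
    obtain ⟨h1, h2⟩ := Prod.ext_iff.1 hh
    exact Prod.ext h1 (Prod.ext (fl_det p x hg ω ω' h h' h1) h2)
  · intro ω ω' _ _ hh
    obtain ⟨h1, h2⟩ := Prod.ext_iff.1 hh
    exact Prod.ext h1 (Prod.ext_iff.1 h2).2

end RWS

theorem rws_thm : RWSStmt := by
  intro c ρ hc hc1 hρ N pa pb s hN hpb hs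
  have hN0 : (0 : ℝ) < N := by exact_mod_cast hN
  obtain ⟨L, hL⟩ : ∃ L, L = max 0 (-Real.log ρ) := ⟨_, rfl⟩
  have hL0 : 0 ≤ L := by rw [hL]; exact le_max_left _ _
  have hLρ : Real.exp (-L) ≤ ρ := by
    have h1 : -Real.log ρ ≤ L := by rw [hL]; exact le_max_right _ _
    calc Real.exp (-L) ≤ Real.exp (Real.log ρ) := Real.exp_le_exp.2 (by linarith only [h1])
      _ = ρ := Real.exp_log hρ
  obtain ⟨J₁, hJ₁⟩ : ∃ J₁ : ℕ, 2 * L * N / c ≤ J₁ := ⟨_, Nat.le_ceil _⟩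
  refine ⟨c / (4 * N), max N J₁, by positivity, ?_⟩
  intro J hJ F A hLaw hReg hzone A' hsub hA' P Q hP hQ hPQ
  have hJN : N ≤ J := (le_max_left _ _).trans hJ
  have hJJ : J₁ ≤ J := (le_max_right _ _).trans hJ
  obtain ⟨u, hu⟩ : ∃ u, u = J / N := ⟨_, rfl⟩
  rw [← hu] at hP hQ hPQ
  have hu1 : 1 ≤ u := by
    rw [hu]
    exact (Nat.one_le_div_iff hN).2 hJN
  have hl2 : 0 < Real.log 2 := Real.log_pos (by norm_num)
  have hL2 : (1 : ℝ) / 2 ≤ Real.log 2 := by
    have := Real.log_two_gt_d9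
    linarith only [hl2, this]
  -- the part
  have hPA : 0 < Pe F.p A := by
    rcases (Pe_nonneg F.isLaw A).eq_or_lt with h0 | h0
    · exfalso
      have h1 := hLaw.sum_one
      have h2 : ∑ ω, Pool.Agent.H49.Ent.cond F.p A True ω = 0 := by
        refine Finset.sum_eq_zero fun ω _ => ?_
        unfold Pool.Agent.H49.Ent.cond
        have h3 : law F.p A True = 0 := h0.symm
        rw [h3, div_zero, ite_self]
      rw [h2] at h1
      norm_num at h1
    · exact h0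
  have hPA' : 0 < Pe F.p A' := lt_of_lt_of_le (by positivity) hA'
  have hcc := Piece.cond_cond (p := F.p) hsub hPA.ne'
  have hLaw' : IsLaw (Pool.Agent.H49.Ent.cond F.p A' True) := isLaw_cond F.isLaw hPA'
  have hrel : Real.exp (-L) ≤ law (Pool.Agent.H49.Ent.cond F.p A True) A' True := by
    have e1 : law (Pool.Agent.H49.Ent.cond F.p A True) A' True = Pe F.p A' / Pe F.p A := by
      refine (Pe_cond (p := F.p) (A := A) A').trans ?_
      congr 1
      congr 1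
      funext ω
      exact propext ⟨fun h' => h'.2, fun h' => ⟨hsub ω h', h'⟩⟩
    rw [e1, le_div_iff₀ hPA]
    exact (mul_le_mul_of_nonneg_right hLρ hPA.le).trans hA'
  -- entropies of the part
  have hent : ∀ t ≤ N, |H (Pool.Agent.H49.Ent.cond F.p A' True)
      (fun ω => (F.X (t * u) ω, F.W ω)) - H (Pool.Agent.H49.Ent.cond F.p A True)
      (fun ω => (F.X (t * u) ω, F.W ω))| ≤ 2 * (c / (4 * N) * J) + L := by
    intro t ht
    obtain ⟨h, hh⟩ := hReg t ht
    rw [← hu] at hh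
    have h1 := (rhe_thm F.Ω _ Prop (Pool.Agent.H49.Ent.cond F.p A True) hLaw
      (fun ω => (F.X (t * u) ω, F.W ω)) h _ hh).2 A' True L hrel
    have h2 := h1.2
    rw [hcc] at h2
    exact h2
  -- mesh rows
  have hmesh : ∀ s' t' : ℕ, pa ≤ s' → t' ≤ pb → s' + s ≤ t' →
      CH (Pool.Agent.H49.Ent.cond F.p A' True) (F.X (t' * u))
        (fun ω => (F.X (s' * u) ω, F.W ω)) ≤
      (2 - c) * (((t' : ℝ) - s') * (u * Real.log 2)) + (c / N * J + 2 * L) := by
    intro s' t' h1 h2 h3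
    have h4 := hzone s' t' h1 h2 h3
    rw [← hu] at h4
    have hst : s' * u ≤ t' * u := Nat.mul_le_mul_right _ (by omega)
    have e1 : CH (Pool.Agent.H49.Ent.cond F.p A True) (F.X (t' * u))
        (fun ω => (F.X (s' * u) ω, F.W ω)) =
        H (Pool.Agent.H49.Ent.cond F.p A True) (fun ω => (F.X (t' * u) ω, F.W ω)) -
        H (Pool.Agent.H49.Ent.cond F.p A True) (fun ω => (F.X (s' * u) ω, F.W ω)) :=
      RWS.CH_diff hLaw F.x F.W hst
    have e2 : CH (Pool.Agent.H49.Ent.cond F.p A' True) (F.X (t' * u))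
        (fun ω => (F.X (s' * u) ω, F.W ω)) =
        H (Pool.Agent.H49.Ent.cond F.p A' True) (fun ω => (F.X (t' * u) ω, F.W ω)) -
        H (Pool.Agent.H49.Ent.cond F.p A' True) (fun ω => (F.X (s' * u) ω, F.W ω)) :=
      RWS.CH_diff hLaw' F.x F.W hst
    rw [e1] at h4
    rw [e2]
    have h5 := abs_le.1 (hent t' (by omega))
    have h6 := abs_le.1 (hent s' (by omega))
    have e3 : c / N * J = 4 * (c / (4 * N) * J) := by
      field_simp
    rw [e3]
    linarith only [h4, h5, h6, h5.2, h6.1]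
  -- the mesh points
  obtain ⟨s', hs'⟩ : ∃ s', s' = (P + u - 1) / u := ⟨_, rfl⟩
  obtain ⟨t', ht'⟩ : ∃ t', t' = Q / u := ⟨_, rfl⟩
  have a1 : P ≤ s' * u := by
    have h1 : P + u - 1 < s' * u + u := by
      rw [hs']
      exact Nat.lt_div_mul_add (by omega)
    omega
  have a2 : s' * u ≤ P + u - 1 := by
    rw [hs']
    exact Nat.div_mul_le_self _ _
  have a3 : t' * u ≤ Q := by
    rw [ht']
    exact Nat.div_mul_le_self _ _
  have a4 : Q < t' * u + u := by
    rw [ht']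
    exact Nat.lt_div_mul_add (by omega)
  have b1 : pa ≤ s' := by
    have h1 : pa * u ≤ s' * u := hP.trans a1
    exact Nat.le_of_mul_le_mul_right h1 (by omega)
  have b2 : t' ≤ pb := by
    have h1 : t' * u ≤ pb * u := a3.trans hQ
    exact Nat.le_of_mul_le_mul_right h1 (by omega)
  have b3 : s' + s ≤ t' := by
    have h1 : (s' + s) * u < (t' + 1) * u := by
      have e1 : (s + 2) * u = s * u + 2 * u := by ring
      have e2 : (s' + s) * u = s' * u + s * u := by ring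
      have e3 : (t' + 1) * u = t' * u + u := by ring
      rw [e1] at hPQ
      rw [e2, e3]
      omega
    exact Nat.lt_succ_iff.1 (Nat.lt_of_mul_lt_mul_right h1)
  have h1 := hmesh s' t' b1 b2 b3
  -- the chain
  have hp' := hLaw'.nonneg
  have c1 := CH_le_add hp' (F.X Q) (F.X (t' * u)) (fun ω => (F.X P ω, F.W ω))
  have c2 := CH_le_add hp' (F.X (t' * u)) (F.X (s' * u)) (fun ω => (F.X P ω, F.W ω))
  have c3 : CH (Pool.Agent.H49.Ent.cond F.p A' True) (F.X (s' * u))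
      (fun ω => (F.X P ω, F.W ω)) ≤ 2 * ((((s' * u : ℕ) : ℝ) - P) * Real.log 2) :=
    RWS.fl_rows hLaw' F.x _ a1 (fun ω ω' _ _ h => (Prod.ext_iff.1 h).1)
  have c4 : CH (Pool.Agent.H49.Ent.cond F.p A' True) (F.X Q)
      (fun ω => (F.X (t' * u) ω, (F.X P ω, F.W ω))) ≤
      2 * (((Q : ℝ) - ((t' * u : ℕ) : ℝ)) * Real.log 2) :=
    RWS.fl_rows hLaw' F.x _ a3 (fun ω ω' _ _ h => (Prod.ext_iff.1 h).1)
  have c5 : CH (Pool.Agent.H49.Ent.cond F.p A' True) (F.X (t' * u))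
      (fun ω => (F.X (s' * u) ω, (F.X P ω, F.W ω))) ≤
      CH (Pool.Agent.H49.Ent.cond F.p A' True) (F.X (t' * u))
        (fun ω => (F.X (s' * u) ω, F.W ω)) := by
    refine CH_mono_cond hp' ?_
    intro ω ω' _ _ h
    obtain ⟨d1, d2⟩ := Prod.ext_iff.1 h
    exact Prod.ext d1 (Prod.ext_iff.1 d2).2
  push_cast at c3 c4
  -- numbers
  have r1 : (P : ℝ) ≤ s' * u := by exact_mod_cast a1
  have r2 : (s' : ℝ) * u ≤ P + u := by exact_mod_cast (by omega : s' * u ≤ P + u)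
  have r3 : (t' : ℝ) * u ≤ Q := by exact_mod_cast a3
  have r4 : (Q : ℝ) ≤ t' * u + u := by exact_mod_cast a4.le
  have r5 : (18 : ℝ) * u ≤ (Q : ℝ) - P := by
    have h2 : P + 18 * u ≤ Q := by
      have : 18 * u ≤ (s + 2) * u := Nat.mul_le_mul_right _ (by omega)
      omega
    have h3 : (P : ℝ) + 18 * u ≤ Q := by exact_mod_cast h2
    linarith only [h3]
  have hu0 : (1 : ℝ) ≤ u := by exact_mod_cast hu1
  have r6 : (J : ℝ) ≤ 2 * (N * u) := by
    have h2 : J < u * N + N := by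
      rw [hu]
      exact Nat.lt_div_mul_add hN
    have h3 : (J : ℝ) ≤ u * N + N := by exact_mod_cast h2.le
    nlinarith only [h3, hu0]
  have r7 : c / N * J ≤ 2 * (c * u) := by
    rw [div_mul_eq_mul_div, div_le_iff₀ hN0]
    nlinarith only [hc, r6]
  have r8 : 2 * L ≤ 2 * (c * u) := by
    have h2 : 2 * L * N / c ≤ J := hJ₁.trans (by exact_mod_cast hJJ)
    rw [div_le_iff₀ hc] at h2
    have h3 : 2 * L * N ≤ (2 * (N * u)) * c := h2.trans (mul_le_mul_of_nonneg_right r6 hc.le)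
    have h4 : (2 * L) * N ≤ (2 * (c * u)) * N := by linarith only [h3]
    exact le_of_mul_le_mul_right h4 hN0
  obtain ⟨D, hD⟩ : ∃ D : ℝ, D = (t' : ℝ) * u - s' * u := ⟨_, rfl⟩
  have r9 : (Q : ℝ) - P - 2 * u ≤ D := by rw [hD]; linarith only [r2, r4]
  have r10 : (8 : ℝ) / 9 * ((Q : ℝ) - P) ≤ D := by linarith only [r2, r4, r5, hD]
  have e1 : (2 - c) * (((t' : ℝ) - s') * (u * Real.log 2)) =
      2 * (D * Real.log 2) - c * D * Real.log 2 := by
    rw [hD]
    ring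
  rw [e1] at h1
  have r12 : c / 2 * (((Q : ℝ) - P) * Real.log 2) + 4 * (c * u) ≤ c * D * Real.log 2 := by
    have k1 : c * (8 / 9 * ((Q : ℝ) - P)) * Real.log 2 ≤ c * D * Real.log 2 :=
      mul_le_mul_of_nonneg_right (mul_le_mul_of_nonneg_left r10 hc.le) hl2.le
    have k2 : c * (18 * u) * Real.log 2 ≤ c * ((Q : ℝ) - P) * Real.log 2 :=
      mul_le_mul_of_nonneg_right (mul_le_mul_of_nonneg_left r5 hc.le) hl2.le
    have k3 : 0 < c * u := by positivity
    have k4 : (c * u) * (2 / 3) ≤ (c * u) * Real.log 2 := by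
      have := Real.log_two_gt_d9
      exact mul_le_mul_of_nonneg_left (by linarith only [hl2, this]) k3.le
    nlinarith only [k1, k2, k3, k4]
  have e2 : (2 - c / 2) * (((Q : ℝ) - P) * Real.log 2) =
      2 * (((Q : ℝ) - P) * Real.log 2) - c / 2 * (((Q : ℝ) - P) * Real.log 2) := by ring
  rw [e2]
  have e3 : 2 * (((s' : ℝ) * u - P) * Real.log 2) + 2 * (((Q : ℝ) - t' * u) * Real.log 2) +
      2 * (D * Real.log 2) = 2 * (((Q : ℝ) - P) * Real.log 2) := by
    rw [hD]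
    ring
  linarith only [c1, c2, c5, c3, c4, r7, r8, h1, r12, e3]

end Pool.K2S
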