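import Mathlib

/-!
# OC: counting rows in windows
-/

set_option autoImplicit false

namespace Pool.OC.SP

open Finset

open Classical in
/-- The indicator of a set of rows. -/
noncomputable def jz (J : Set ℕ) (r : ℤ) : ℝ := if 0 ≤ r ∧ r.toNat ∈ J then 1 else 0

lemma jz_nonneg (J : Set ℕ) (r : ℤ) : 0 ≤ jz J r := by
  unfold jz
  split_ifs <;> norm_num

lemma jz_le (J : Set ℕ) (r : ℤ) : jz J r ≤ 1 := by
  unfold jz
  split_ifs <;> norm_num

open Classical in
lemma jz_nat (J : Set ℕ) (r : ℕ) : jz J (r : ℤ) = if r ∈ J then 1 else 0 := by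
  unfold jz
  simp

/-- Many rows in every interval. -/
theorem count_int (J₀ : Set ℕ) {X h : ℕ} (h1 : 1 ≤ h) {u : ℝ} (hu : 0 ≤ u)
    (hJ : ∀ j : ℕ, (j + 2) * h ≤ X →
      u * h ≤ (Set.ncard {r | r ∈ J₀ ∧ j * h ≤ r ∧ r < (j + 1) * h} : ℝ)) (α N : ℕ)
    (hα : α + N + h ≤ X) :
    u * ((N : ℝ) - 2 * h) ≤ ∑ i ∈ range N, jz J₀ ((α + i : ℕ) : ℤ) := by
  classical
  have hh : 0 < h := h1
  have e0 : ∑ i ∈ range N, jz J₀ ((α + i : ℕ) : ℤ) = ∑ r ∈ Ico α (α + N), jz J₀ (r : ℤ) := by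
    rw [Finset.sum_Ico_eq_sum_range]
    have : α + N - α = N := by omega
    rw [this]
  rw [e0]
  by_cases hN : N ≤ 2 * h
  · have h2 : (N : ℝ) ≤ 2 * h := by exact_mod_cast hN
    have h3 : 0 ≤ ∑ r ∈ Ico α (α + N), jz J₀ (r : ℤ) :=
      Finset.sum_nonneg fun r _ => jz_nonneg _ _
    nlinarith
  rw [not_le] at hN
  obtain ⟨j₀, hj₀⟩ : ∃ j₀, j₀ = α / h + 1 := ⟨_, rfl⟩
  obtain ⟨j₁, hj₁⟩ : ∃ j₁, j₁ = (α + N) / h := ⟨_, rfl⟩
  have a1 : α < j₀ * h := by
    rw [hj₀, add_mul, one_mul]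
    exact Nat.lt_div_mul_add hh
  have a2 : j₀ * h ≤ α + h := by
    rw [hj₀, add_mul, one_mul]
    have := Nat.div_mul_le_self α h
    omega
  have a3 : j₁ * h ≤ α + N := by
    rw [hj₁]
    exact Nat.div_mul_le_self _ _
  have a4 : α + N < j₁ * h + h := by
    rw [hj₁]
    exact Nat.lt_div_mul_add hh
  have a5 : j₀ ≤ j₁ := by
    have : j₀ * h < j₁ * h := by omega
    exact (Nat.lt_of_mul_lt_mul_right this).le
  have hblock : ∀ j, j₀ ≤ j → j ≤ j₁ →
      ((j : ℝ) - j₀) * (u * h) ≤ ∑ r ∈ Ico (j₀ * h) (j * h), jz J₀ (r : ℤ) := by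
    intro j hj hj'
    induction j, hj using Nat.le_induction with
    | base => simp
    | succ j hj ih =>
      have h3 := ih (by omega)
      have h4 : (j + 2) * h ≤ X := by
        have h5 : (j + 1) * h ≤ j₁ * h := Nat.mul_le_mul_right _ hj'
        have h6 : (j + 2) * h = (j + 1) * h + h := by ring
        omega
      have h5 := hJ j h4
      have h6 : (Set.ncard {r | r ∈ J₀ ∧ j * h ≤ r ∧ r < (j + 1) * h} : ℝ) =
          ∑ r ∈ Ico (j * h) ((j + 1) * h), jz J₀ (r : ℤ) := by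
        have h7 : Set.ncard {r | r ∈ J₀ ∧ j * h ≤ r ∧ r < (j + 1) * h} =
            ((Finset.Ico (j * h) ((j + 1) * h)).filter fun r => r ∈ J₀).card := by
          rw [← Set.ncard_coe_finset]
          congr 1
          ext s
          simp only [Finset.coe_filter, Finset.mem_Ico, Set.mem_ofPred_eq]
          tauto
        rw [h7, Finset.card_filter]
        push_cast
        refine Finset.sum_congr rfl fun r _ => ?_
        rw [jz_nat]
      rw [h6] at h5
      have h7 : j₀ * h ≤ j * h := Nat.mul_le_mul_right _ hj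
      have h8 : j * h ≤ (j + 1) * h := Nat.mul_le_mul_right _ (by omega)
      rw [← Finset.sum_Ico_consecutive _ h7 h8]
      push_cast
      linarith
  have hb := hblock j₁ a5 le_rfl
  have hc : ∑ r ∈ Ico (j₀ * h) (j₁ * h), jz J₀ (r : ℤ) ≤ ∑ r ∈ Ico α (α + N), jz J₀ (r : ℤ) := by
    refine Finset.sum_le_sum_of_subset_of_nonneg ?_ fun r _ _ => jz_nonneg _ _
    exact Finset.Ico_subset_Ico a1.le a3
  refine le_trans ?_ (hb.trans hc)
  have b1 : (j₀ : ℝ) * h ≤ α + h := by exact_mod_cast a2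
  have b2 : (α : ℝ) + N ≤ j₁ * h + h := by exact_mod_cast a4.le
  have b3 : (N : ℝ) - 2 * h ≤ ((j₁ : ℝ) - j₀) * h := by linarith
  have b4 := mul_le_mul_of_nonneg_left b3 hu
  linarith

/-- Windows behind all the scales. -/
theorem window (J₀ : Set ℕ) {X h : ℕ} (h1 : 1 ≤ h) {u : ℝ} (hu : 0 ≤ u)
    (hJ : ∀ j : ℕ, (j + 2) * h ≤ X →
      u * h ≤ (Set.ncard {r | r ∈ J₀ ∧ j * h ≤ r ∧ r < (j + 1) * h} : ℝ)) (n M : ℕ) (c : ℤ)
    (hc : (M : ℤ) ≤ c) (hc' : c + n + h ≤ X) :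
    M * (u * ((n : ℝ) - 2 * h)) ≤ ∑ i ∈ range n, ∑ x ∈ range M, jz J₀ (c + i - x) := by
  rw [Finset.sum_comm]
  have h2 : ∀ x ∈ range M, u * ((n : ℝ) - 2 * h) ≤ ∑ i ∈ range n, jz J₀ (c + i - x) := by
    intro x hx
    rw [mem_range] at hx
    obtain ⟨α, hα⟩ : ∃ α : ℕ, (α : ℤ) = c - x := ⟨(c - x).toNat, Int.toNat_of_nonneg (by omega)⟩
    have h3 := count_int J₀ h1 hu hJ α n (by omega)
    refine h3.trans (le_of_eq (Finset.sum_congr rfl fun i _ => ?_))
    congr 1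
    push_cast
    omega
  have h3 := Finset.card_nsmul_le_sum (range M) _ _ h2
  rw [card_range, nsmul_eq_mul] at h3
  exact h3

/-- The window in front of the scale of a pair. -/
theorem win_le (J₀ : Set ℕ) {K k' : ℕ} (c i i' : ℤ) (h1 : i ≤ i') (h2 : i' ≤ i + k') :
    ∑ x ∈ range (K - k'), jz J₀ (c + i - x) ≤ ∑ y ∈ range K, jz J₀ (c - y + i') := by
  obtain ⟨δ, hδ⟩ : ∃ δ : ℕ, (δ : ℤ) = i' - i := ⟨(i' - i).toNat, Int.toNat_of_nonneg (by omega)⟩
  have e1 : ∑ x ∈ range (K - k'), jz J₀ (c + i - x) =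
      ∑ y ∈ Ico δ (δ + (K - k')), jz J₀ (c - y + i') := by
    rw [Finset.sum_Ico_eq_sum_range]
    have : δ + (K - k') - δ = K - k' := by omega
    rw [this]
    refine Finset.sum_congr rfl fun x _ => ?_
    congr 1
    push_cast
    omega
  rw [e1]
  by_cases h3 : k' ≤ K
  · refine Finset.sum_le_sum_of_subset_of_nonneg ?_ fun r _ _ => jz_nonneg _ _
    intro y hy
    rw [mem_Ico] at hy
    rw [mem_range]
    omega
  · have : K - k' = 0 := by omega
    rw [this, add_zero, Ico_self, sum_empty]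
    exact Finset.sum_nonneg fun r _ => jz_nonneg _ _

/-- Exchange of windows. -/
theorem sum_shift (R : ℕ → ℝ) (hR : ∀ s, 0 ≤ R s) {a b c K : ℕ} (h : a + K ≤ c) :
    ∑ s ∈ Ico c b, ∑ y ∈ range K, R (s - y) ≤ K * ∑ s ∈ Ico a b, R s := by
  classical
  rw [Finset.sum_comm]
  have h2 : ∀ y ∈ range K, ∑ s ∈ Ico c b, R (s - y) ≤ ∑ s ∈ Ico a b, R s := by
    intro y hy
    rw [mem_range] at hy
    have h3 : ∑ s ∈ Ico c b, R (s - y) = ∑ t ∈ (Ico c b).image (fun s => s - y), R t := by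
      rw [Finset.sum_image]
      intro s hs s' hs' hh
      rw [Finset.mem_coe, mem_Ico] at hs hs'
      simp only at hh
      omega
    rw [h3]
    refine Finset.sum_le_sum_of_subset_of_nonneg ?_ fun r _ _ => hR _
    intro t ht
    rw [mem_image] at ht
    obtain ⟨s, hs, rfl⟩ := ht
    rw [mem_Ico] at hs ⊢
    omega
  have h3 := Finset.sum_le_card_nsmul (range K) _ _ h2
  rw [card_range, nsmul_eq_mul] at h3
  exact h3

/-- Blocks. -/
theorem sum_blocks (g : ℕ → ℝ) (a M : ℕ) :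
    ∑ x ∈ range (M * a), g x = ∑ r ∈ range a, ∑ j ∈ range M, g (j * a + r) := by
  induction M with
  | zero => simp
  | succ M ih =>
    rw [add_mul, one_mul, Finset.sum_range_add, ih, ← Finset.sum_add_distrib]
    refine Finset.sum_congr rfl fun r _ => ?_
    rw [Finset.sum_range_succ]

end Pool.OC.SP
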