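import Pool.Agent.H70.OC.Tel
import Pool.Agent.H64.K2.Plk
import Pool.Agent.H13.K2S.Skel

/-!
# Rows of the normal component: accounting at one cell

`x` is a random point in the plane, `f` a random frame (slopes over the chart coordinate `i₀`),
known from `Y`. The cell `cel a l` is the `i₀`-coordinate to precision `a` and the normal
coordinate `x j - f j * x i₀` to precision `a + l`. If the rows `(a + l, a + l + s]` of `x` are not
full and the rows of the `i₀`-coordinate after `a` are full given the cell `cel a (l + s)`, the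
rows `(a + l, a + l + s]` of the normal coordinate are not full given the cell `cel a l`.
-/

set_option autoImplicit false

namespace Pool.OCT

open Finset Real
open Pool.Agent.H49.Ent Pool.Agent.H32.Dense Pool.STK Pool.KAF Pool.KA

variable {Ω : Type} [Fintype Ω] {S T : Type}

/-- The cell of a point with respect to a frame. -/
noncomputable def cel (a l : ℕ) (i₀ : Fin 2) (f x : Ω → Fin 2 → ℝ) (ω : Ω) : Fin 2 → ℤ :=
  Pool.STK.fl a (pco l i₀ (f ω) (x ω))

omit [Fintype Ω] in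
lemma cel_self (a l : ℕ) (i₀ : Fin 2) (f x : Ω → Fin 2 → ℝ) (ω : Ω) :
    cel a l i₀ f x ω i₀ = ⌊(2 : ℝ) ^ a * x ω i₀⌋ := by
  change ⌊(2 : ℝ) ^ a * pco l i₀ (f ω) (x ω) i₀⌋ = _
  unfold pco
  rw [if_pos rfl]

omit [Fintype Ω] in
lemma cel_ne (a l : ℕ) {i₀ i : Fin 2} (hi : ¬ i = i₀) (f x : Ω → Fin 2 → ℝ) (ω : Ω) :
    cel a l i₀ f x ω i = ⌊(2 : ℝ) ^ a * (2 ^ l * (x ω i - f ω i * x ω i₀))⌋ := by
  change ⌊(2 : ℝ) ^ a * pco l i₀ (f ω) (x ω) i⌋ = _
  unfold pco
  rw [if_neg hi]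

lemma fl_app (j : ℕ) (y : Fin 2 → ℝ) (i : Fin 2) : Pool.STK.fl j y i = ⌊(2 : ℝ) ^ j * y i⌋ := rfl

/-- Equal floors at a fine scale. -/
lemma floor_two_pow (s : ℕ) {r r' : ℝ} (h : ⌊2 ^ s * r⌋ = ⌊2 ^ s * r'⌋) : ⌊r⌋ = ⌊r'⌋ := by
  have h2 : (0 : ℝ) < 2 ^ s := by positivity
  have key : ∀ y : ℝ, ⌊y⌋ = ⌊2 ^ s * y⌋ / 2 ^ s := by
    intro y
    symm
    rw [Int.ediv_eq_iff_of_pos (by positivity)]
    have h1 := Int.floor_le y
    have h3 := Int.lt_floor_add_one y
    constructor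
    · rw [Int.le_floor]
      push_cast
      nlinarith
    · rw [Int.floor_lt]
      push_cast
      nlinarith
  rw [key r, key r', h]

lemma floor_diff {r r' L : ℝ} (h : |r - r'| ≤ L) : |((⌊r⌋ - ⌊r'⌋ : ℤ) : ℝ)| ≤ L + 1 := by
  have h1 := Int.floor_le r
  have h2 := Int.lt_floor_add_one r
  have h3 := Int.floor_le r'
  have h4 := Int.lt_floor_add_one r'
  have h5 := abs_le.1 h
  push_cast
  rw [abs_le]
  constructor <;> linarith [h5.1, h5.2]

lemma floor_eq_near {r r' : ℝ} (h : ⌊r⌋ = ⌊r'⌋) : |r - r'| ≤ 1 := by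
  have h1 := Int.floor_le r
  have h2 := Int.lt_floor_add_one r
  have h3 := Int.floor_le r'
  have h4 := Int.lt_floor_add_one r'
  rw [h] at h1 h2
  rw [abs_le]
  constructor <;> linarith

/-- **Accounting at one cell.** -/
theorem h5_core {p : Ω → ℝ} (hp : IsLaw p) (i₀ : Fin 2) (f x : Ω → Fin 2 → ℝ) {b : ℝ}
    (hb : 0 ≤ b) (hf : ∀ ω, 0 < p ω → ∀ i, |f ω i| ≤ b) (W : Ω → T) (Y : Ω → S)
    (hYf : Det p Y f) (hYW : Det p Y W) (a l s : ℕ) {c d : ℝ}
    (hrow : CH p (fun ω => Pool.STK.fl (a + l + s) (x ω))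
      (fun ω => (Pool.STK.fl (a + l) (x ω), W ω)) ≤ (2 - c) * (s * Real.log 2))
    (hW : ((l : ℝ) + s) * Real.log 2 - d ≤
      CH p (fun ω => Pool.STK.fl (a + l + s) (x ω) i₀) (fun ω => (cel a (l + s) i₀ f x ω, Y ω))) :
    CH p (cel a (l + s) i₀ f x) (fun ω => (cel a l i₀ f x ω, Y ω)) ≤
      (1 - c) * (s * Real.log 2) + d + 4 * Real.log (2 * b + 5) := by
  classical
  set C := 2 * Real.log (2 * b + 5) with hC
  set nu : Ω → Fin 2 → ℤ := cel a (l + s) i₀ f x with hnu
  set A : Ω → (Fin 2 → ℤ) × S := fun ω => (cel a l i₀ f x ω, Y ω) with hA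
  set X : Ω → Fin 2 → ℤ := fun ω => Pool.STK.fl (a + l) (x ω) with hX
  set X' : Ω → Fin 2 → ℤ := fun ω => Pool.STK.fl (a + l + s) (x ω) with hX'
  have hnn := hp.nonneg
  -- the coarse cell is determined by the fine one
  have hdet : ∀ ω ω', nu ω = nu ω' → cel a l i₀ f x ω = cel a l i₀ f x ω' := by
    intro ω ω' h
    funext i
    have h1 := congrFun h i
    by_cases hi : i = i₀
    · rw [hi] at h1 ⊢
      rw [hnu, cel_self, cel_self] at h1
      rw [cel_self, cel_self]
      exact h1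
    · rw [hnu, cel_ne _ _ hi, cel_ne _ _ hi] at h1
      rw [cel_ne _ _ hi, cel_ne _ _ hi]
      refine floor_two_pow s ?_
      have e1 : ∀ z : ℝ, (2 : ℝ) ^ s * (2 ^ a * (2 ^ l * z)) = 2 ^ a * (2 ^ (l + s) * z) := by
        intro z
        rw [pow_add]
        ring
      rw [e1, e1]
      exact h1
  -- the chain rule, first way
  have c1 := CH_chain hnn (fun ω => X' ω i₀) nu A
  have c2 : CH p (fun ω => X' ω i₀) (fun ω => (nu ω, A ω)) =
      CH p (fun ω => X' ω i₀) (fun ω => (nu ω, Y ω)) := by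
    refine CH_congr hnn ?_ ?_ ?_ ?_
    · intro ω ω' _ _ h
      exact (Prod.ext_iff.1 h).1
    · intro ω ω' _ _ h
      exact (Prod.ext_iff.1 h).1
    · intro ω ω' _ _ h
      have h1 := Prod.ext_iff.1 h
      exact Prod.ext h1.1 (Prod.ext_iff.1 h1.2).2
    · intro ω ω' _ _ h
      have h1 := Prod.ext_iff.1 h
      exact Prod.ext h1.1 (Prod.ext (hdet _ _ h1.1) h1.2)
  -- second way
  have c3 := CH_le_add hnn (fun ω => (X' ω i₀, nu ω)) (fun ω => X ω i₀) A
  have c4 : CH p (fun ω => X ω i₀) A ≤ l * Real.log 2 := by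
    have h1 := ch_fl_le hp l (2 ^ a) (fun ω => x ω i₀) A (by
      intro ω ω' _ _ h
      have h1 := congrFun (Prod.ext_iff.1 h).1 i₀
      simp only [hA, cel_self] at h1
      exact h1)
    have e1 : fl (2 ^ l * 2 ^ a) (fun ω => x ω i₀) = fun ω => X ω i₀ := by
      funext ω
      simp only [hX, fl_app]
      unfold fl
      rw [pow_add, mul_comm ((2 : ℝ) ^ l)]
    rw [e1] at h1
    exact h1
  have c5 : CH p (fun ω => (X' ω i₀, nu ω)) (fun ω => (X ω i₀, A ω)) ≤
      CH p (fun ω => (X' ω, nu ω)) (fun ω => (X ω i₀, A ω)) :=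
    CH_mono_left hnn fun ω ω' _ _ h => by
      have h1 := Prod.ext_iff.1 (Prod.ext_iff.1 h).1
      exact Prod.ext (congrFun h1.1 i₀) h1.2
  have c6 : CH p (fun ω => (X' ω, nu ω)) (fun ω => (X ω i₀, A ω)) ≤
      CH p X' (fun ω => (X ω i₀, A ω)) + CH p nu (fun ω => (X' ω, (X ω i₀, A ω))) := by
    have h1 := CH_chain hnn nu X' (fun ω => (X ω i₀, A ω))
    have h2 : CH p (fun ω => (X' ω, nu ω)) (fun ω => (X ω i₀, A ω)) ≤
        CH p (fun ω => (nu ω, X' ω)) (fun ω => (X ω i₀, A ω)) :=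
      CH_mono_left hnn fun ω ω' _ _ h => by
        have h1 := Prod.ext_iff.1 (Prod.ext_iff.1 h).1
        exact Prod.ext h1.2 h1.1
    linarith
  -- the fine cell from the position
  have c7 : CH p nu (fun ω => (X' ω, (X ω i₀, A ω))) ≤ C := by
    refine (CH_le_vec hnn hp.sum_one nu _ (fun _ => b + 2) ?_).trans ?_
    · intro ω ω' hω hω' h i
      have h1 := Prod.ext_iff.1 h
      have hx : ∀ j, |(2 : ℝ) ^ (a + l + s) * x ω j - 2 ^ (a + l + s) * x ω' j| ≤ 1 := fun j =>
        floor_eq_near (congrFun h1.1 j)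
      have hY : Y ω = Y ω' := (Prod.ext_iff.1 (Prod.ext_iff.1 h1.2).2).2
      have hff : f ω = f ω' := hYf _ _ hω hω' hY
      by_cases hi : i = i₀
      · rw [hi, hnu, cel_self, cel_self]
        refine (floor_diff (L := 1) ?_).trans (by linarith)
        have h2 := hx i₀
        have h3 : (2 : ℝ) ^ a * x ω i₀ - 2 ^ a * x ω' i₀ =
            (2 ^ (a + l + s) * x ω i₀ - 2 ^ (a + l + s) * x ω' i₀) / 2 ^ (l + s) := by
          rw [add_assoc, pow_add]
          field_simp
        rw [h3, abs_div, abs_of_pos (by positivity : (0 : ℝ) < 2 ^ (l + s))]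
        exact (div_le_self (abs_nonneg _) (one_le_pow₀ (by norm_num))).trans h2
      · rw [hnu, cel_ne _ _ hi, cel_ne _ _ hi]
        refine (floor_diff (L := 1 + b) ?_).trans (by linarith)
        have h2 := hx i₀
        have h3 := hx i
        have h4 := hf ω hω i
        have e1 : (2 : ℝ) ^ a * (2 ^ (l + s) * (x ω i - f ω i * x ω i₀)) -
            2 ^ a * (2 ^ (l + s) * (x ω' i - f ω' i * x ω' i₀)) =
            (2 ^ (a + l + s) * x ω i - 2 ^ (a + l + s) * x ω' i) -
            f ω i * (2 ^ (a + l + s) * x ω i₀ - 2 ^ (a + l + s) * x ω' i₀) := by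
          rw [← hff, add_assoc, pow_add]
          ring
        rw [e1]
        refine (abs_sub _ _).trans ?_
        rw [abs_mul]
        have h5 : |f ω i| * |(2 : ℝ) ^ (a + l + s) * x ω i₀ - 2 ^ (a + l + s) * x ω' i₀| ≤
            b * 1 := mul_le_mul h4 h2 (abs_nonneg _) hb
        linarith
    · rw [Ex_const hp.sum_one, hC]
      refine le_of_eq ?_
      push_cast
      congr 2
      ring
  -- the position from the cell
  have c8 := CH_le_add hnn X' X (fun ω => (X ω i₀, A ω))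
  have c9 : CH p X (fun ω => (X ω i₀, A ω)) ≤ C := by
    refine (CH_le_vec hnn hp.sum_one X _ (fun _ => b + 2) ?_).trans ?_
    · intro ω ω' hω hω' h i
      have h1 := Prod.ext_iff.1 h
      have hx0 : |(2 : ℝ) ^ (a + l) * x ω i₀ - 2 ^ (a + l) * x ω' i₀| ≤ 1 :=
        floor_eq_near h1.1
      have h2 := Prod.ext_iff.1 h1.2
      have hY : Y ω = Y ω' := h2.2
      have hff : f ω = f ω' := hYf _ _ hω hω' hY
      simp only [hX, fl_app]
      by_cases hi : i = i₀
      · rw [hi]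
        exact (floor_diff (L := 1) hx0).trans (by linarith)
      · refine (floor_diff (L := 1 + b) ?_).trans (by linarith)
        have h3 : cel a l i₀ f x ω i = cel a l i₀ f x ω' i := congrFun h2.1 i
        rw [cel_ne _ _ hi, cel_ne _ _ hi] at h3
        have h4 := floor_eq_near h3
        have h5 := hf ω hω i
        have e1 : (2 : ℝ) ^ (a + l) * x ω i - 2 ^ (a + l) * x ω' i =
            (2 ^ a * (2 ^ l * (x ω i - f ω i * x ω i₀)) -
            2 ^ a * (2 ^ l * (x ω' i - f ω' i * x ω' i₀))) +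
            f ω i * (2 ^ (a + l) * x ω i₀ - 2 ^ (a + l) * x ω' i₀) := by
          rw [← hff, pow_add]
          ring
        rw [e1]
        refine (abs_add_le _ _).trans ?_
        rw [abs_mul]
        have h6 : |f ω i| * |(2 : ℝ) ^ (a + l) * x ω i₀ - 2 ^ (a + l) * x ω' i₀| ≤
            b * 1 := mul_le_mul h5 hx0 (abs_nonneg _) hb
        linarith
    · rw [Ex_const hp.sum_one, hC]
      refine le_of_eq ?_
      push_cast
      congr 2
      ring
  have c10 : CH p X' (fun ω => (X ω, (X ω i₀, A ω))) ≤ CH p X' (fun ω => (X ω, W ω)) :=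
    CH_mono_cond hnn fun ω ω' hω hω' h => by
      have h1 := Prod.ext_iff.1 h
      exact Prod.ext h1.1 (hYW _ _ hω hω' (Prod.ext_iff.1 (Prod.ext_iff.1 h1.2).2).2)
  rw [c2] at c1
  have e : (1 - c) * (s * Real.log 2) + d + 4 * Real.log (2 * b + 5) =
      l * Real.log 2 + C + ((2 - c) * (s * Real.log 2) + C) -
        (((l : ℝ) + s) * Real.log 2 - d) := by
    rw [hC]
    ring
  rw [e]
  linarith

end Pool.OCT
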