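import Pool.Agent.H70.OC.Cel

/-!
# OC, row SPRA: most depths are good
-/

set_option autoImplicit false

namespace Pool.OC.SP

open Finset Real
open Pool.Agent.H49.Ent Pool.Agent.H32.Dense Pool.STK Pool.KAF

open Classical in
/-- The indicator. -/
noncomputable def ind {α : Type} (E : Set α) (x : α) : ℝ := if x ∈ E then 1 else 0

lemma ind_nonneg {α : Type} (E : Set α) (x : α) : 0 ≤ ind E x := by
  unfold ind
  split_ifs <;> norm_num

lemma ind_le {α : Type} (E : Set α) (x : α) : ind E x ≤ 1 := by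
  unfold ind
  split_ifs <;> norm_num

lemma ind_mem {α : Type} {E : Set α} {x : α} (h : x ∈ E) : ind E x = 1 := by
  unfold ind
  rw [if_pos h]

lemma ind_not {α : Type} {E : Set α} {x : α} (h : x ∉ E) : ind E x = 0 := by
  unfold ind
  rw [if_neg h]

lemma Ex_ind {Ω : Type} [Fintype Ω] (p : Ω → ℝ) (E : Set Ω) : Ex p (ind E) = Pr p E := by
  classical
  rw [Pr_eq]
  unfold Ex ind
  refine Finset.sum_congr rfl fun ω _ => ?_
  by_cases h : ω ∈ E
  · rw [if_pos h, if_pos h, mul_one]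
  · rw [if_neg h, if_neg h, mul_zero]

lemma Ex_sum {Ω ι : Type} [Fintype Ω] (p : Ω → ℝ) (s : Finset ι) (f : ι → Ω → ℝ) :
    Ex p (fun ω => ∑ i ∈ s, f i ω) = ∑ i ∈ s, Ex p (f i) := by
  unfold Ex
  rw [Finset.sum_comm]
  exact Finset.sum_congr rfl fun ω _ => Finset.mul_sum _ _ _

section

variable {d : Dat} {m : d.Lam → ℤ}

/-- No depth in the window before `s` is good. -/
def Dst (d : Dat) (m : d.Lam → ℤ) (k K s : ℕ) (ε : ℝ) : Set d.Om :=
  {ω | ∀ y < K, ¬ Good d m k (s - y) ε (Gc d m (s - y) ω)}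

lemma Dst_line {k K s : ℕ} {ε : ℝ} {ω ω' : d.Om} (h : d.L ω = d.L ω') :
    ind (Dst d m k K s ε) ω = ind (Dst d m k K s ε) ω' := by
  have h1 : ω ∈ Dst d m k K s ε ↔ ω' ∈ Dst d m k K s ε := by
    unfold Dst Gc
    simp only [Set.mem_ofPred_eq, h]
  by_cases h2 : ω ∈ Dst d m k K s ε
  · rw [ind_mem h2, ind_mem (h1.1 h2)]
  · rw [ind_not h2, ind_not fun h3 => h2 (h1.2 h3)]

/-- The pairs with a large slope. -/
theorem fq_sum {A : ℕ} (hOK : d.OK A) (n k K s : ℕ) (ε : ℝ) :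
    ∑ i ∈ range n, Ex (d.Qp i) (fun w => ind (Dst d m k K s ε) w.1 *
      ind {w : d.Om × d.Om | (2 : ℝ) ^ (1 - m (d.L w.1)) * |d.ta w| < |d.sg w|} w) =
    Ex d.P (fun ω => ind (Dst d m k K s ε) ω * d.fq n (d.L ω) ((2 : ℝ) ^ (1 - m (d.L ω)))) := by
  classical
  have hP := hOK.law.nonneg
  have h1 : ∀ i ∈ range n, Ex (d.Qp i) (fun w => ind (Dst d m k K s ε) w.1 *
      ind {w : d.Om × d.Om | (2 : ℝ) ^ (1 - m (d.L w.1)) * |d.ta w| < |d.sg w|} w) =
      Ex d.P (fun ω => ind (Dst d m k K s ε) ω *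
        Pr (cond (d.Qp i) (fun w => d.L w.1) (d.L ω))
          {w | (2 : ℝ) ^ (1 - m (d.L ω)) * |d.ta w| < |d.sg w|}) := by
    intro i _
    have hQ0 : ∀ w, 0 ≤ d.Qp i w := fun w => dbl_nonneg hP w
    have hQm : Marg (d.Qp i) d.P (fun w => w.1) := dbl_fst hP
    rw [← hQm.ex]
    unfold Ex
    rw [← Pool.OC.tower hQ0 (fun w => d.L w.1)]
    refine Finset.sum_congr rfl fun w _ => ?_
    congr 1
    beta_reduce
    rw [Pr_eq, Finset.mul_sum]
    refine Finset.sum_congr rfl fun w' _ => ?_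
    by_cases h2 : d.L w'.1 = d.L w.1
    · rw [Dst_line h2]
      have h3 : ind {w : d.Om × d.Om | (2 : ℝ) ^ (1 - m (d.L w.1)) * |d.ta w| < |d.sg w|} w' =
          if w' ∈ {w' | (2 : ℝ) ^ (1 - m (d.L w.1)) * |d.ta w'| < |d.sg w'|} then 1 else 0 := by
        unfold ind
        simp only [Set.mem_ofPred_eq, h2]
      rw [h3]
      split_ifs <;> ring
    · have h3 : cond (d.Qp i) (fun w => d.L w.1) (d.L w.1) w' = 0 := by
        unfold Pool.Agent.H49.Ent.cond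
        rw [if_neg h2]
      rw [h3]
      simp
  rw [Finset.sum_congr rfl h1, ← Ex_sum]
  unfold Ex Dat.fq
  refine Finset.sum_congr rfl fun ω _ => ?_
  beta_reduce
  rw [← Finset.mul_sum]

lemma fq_le {A : ℕ} (hOK : d.OK A) (n : ℕ) (a : ℝ) {ω : d.Om} (hω : 0 < d.P ω) :
    d.fq n (d.L ω) a ≤ n := by
  have hP := hOK.law.nonneg
  unfold Dat.fq
  have h1 : ∀ i ∈ range n, Pr (cond (d.Qp i) (fun w => d.L w.1) (d.L ω))
      {w | a * |d.ta w| < |d.sg w|} ≤ 1 := by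
    intro i _
    have hQ0 : ∀ w, 0 ≤ d.Qp i w := fun w => dbl_nonneg hP w
    have hQm : Marg (d.Qp i) d.P (fun w => w.1) := dbl_fst hP
    refine Pool.KAF.Pr_le_one ⟨fun w => cond_nonneg hQ0 _ _ w, sum_cond _ _ ?_⟩ _
    have h2 := hQm.law d.L (d.L ω)
    rw [h2]
    exact (law_pos hP d.L hω).ne'
  have h2 := Finset.sum_le_card_nsmul _ _ _ h1
  rw [card_range, nsmul_eq_mul, mul_one] at h2
  exact h2

/-- The sum over the depths of the rows hit in bad cells. -/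
theorem row_bad {A : ℕ} {J : d.Om → Set ℕ} {n k k₁ k' : ℕ} {e ε : ℝ} (hOK : d.OK A)
    (hε : 0 < ε) (hk : 2 ≤ k) (hk₁ : 1 ≤ k₁) (hRow : RowA d J m n k k₁ e) {i : ℕ}
    (hi : i < 4 * n) :
    ∑ s ∈ Ico (8 * n) (d.X - 8 * n), Ex (d.Qp i) (fun w =>
      ind {w : d.Om × d.Om | (2 : ℝ) ^ (-((i : ℤ) + k')) ≤ |d.ta w| ∧
        |d.sg w| ≤ (2 : ℝ) ^ (1 - m (d.L w.1)) * |d.ta w|} w *
      (jz (J w.1) ((s : ℤ) + (m (d.L w.1) + sc (d.ta w) - 1)) *
        ind {ω | ¬ Good d m (k₁ - 1) s ε (Gc d m s ω)} w.1)) ≤ e * d.X / ε := by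
  classical
  have hP := hOK.law.nonneg
  have hQ0 : ∀ w, 0 ≤ d.Qp i w := fun w => dbl_nonneg hP w
  obtain ⟨W, hW⟩ : ∃ W : Set (ℤ × d.Tau × d.Tau), W = {x | (2 : ℝ) ^ (-((i : ℤ) + k')) ≤
      |d.th x.2.2 - d.th x.2.1| ∧ |d.S x.2.2 - d.S x.2.1| ≤
        (2 : ℝ) ^ (1 - x.1) * |d.th x.2.2 - d.th x.2.1|} := ⟨_, rfl⟩
  have hne : ∀ t₁ t₀ : d.Tau, (2 : ℝ) ^ (-((i : ℤ) + k')) ≤ |d.th t₀ - d.th t₁| →
      d.th t₀ - d.th t₁ ≠ 0 := by
    intro t₁ t₀ h1 hcon
    rw [hcon, abs_zero] at h1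
    have : (0 : ℝ) < (2 : ℝ) ^ (-((i : ℤ) + k')) := by positivity
    linarith only [h1, this]
  have h1 := hRow i hi (fun μ t₁ t₀ => μ + sc (d.th t₀ - d.th t₁) - 1) W (by
    intro w v s _ _ hw _ hG
    rw [hW] at hw
    exact Z_up hk hG (hne _ _ hw.1) hw.2)
  rw [le_div_iff₀ hε, Finset.sum_mul]
  refine le_trans (Finset.sum_le_sum fun s _ => ?_) h1
  rw [mul_comm, ← Ex_smul]
  refine Ex_mono hQ0 fun w hw => ?_
  have hPw : 0 < d.P w.1 := by
    have hw' : 0 < dbl d.P (fun ω => (d.L ω, d.Ti i ω)) w := hw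
    exact ((glue_pos_iff hP hP w).1 hw').1
  have hc0 : ∀ v, 0 ≤ cond d.P (fun v => d.GA m s (d.L v)) (d.GA m s (d.L w.1)) v :=
    fun v => cond_nonneg hP _ _ v
  have hnn : 0 ≤ Set.indicator
      {w : d.Om × d.Om | (m (d.L w.1), d.T w.1, d.T w.2) ∈ W ∧
        0 ≤ (s : ℤ) + (m (d.L w.1) + sc (d.th (d.T w.2) - d.th (d.T w.1)) - 1) ∧
        ((s : ℤ) + (m (d.L w.1) + sc (d.th (d.T w.2) - d.th (d.T w.1)) - 1)).toNat ∈ J w.1}
      (fun w => Pr (cond d.P (fun v => d.GA m s (d.L v)) (d.GA m s (d.L w.1)))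
        {v | (2 : ℝ) ^ (-((s : ℤ) +
          (m (d.L w.1) + sc (d.th (d.T w.2) - d.th (d.T w.1)) - 1) + k₁)) ≤
          |d.ZR (d.T w.1) (d.T w.2) (d.L w.1) - d.ZR (d.T w.1) (d.T w.2) (d.L v)|}) w := by
    refine Set.indicator_nonneg (fun w' _ => ?_) w
    exact law_nonneg (fun v => cond_nonneg hP _ _ v) _ _
  by_cases h2 : w ∈ {w : d.Om × d.Om | (2 : ℝ) ^ (-((i : ℤ) + k')) ≤ |d.ta w| ∧
        |d.sg w| ≤ (2 : ℝ) ^ (1 - m (d.L w.1)) * |d.ta w|}
  · by_cases h3 : 0 ≤ (s : ℤ) + (m (d.L w.1) + sc (d.ta w) - 1) ∧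
        ((s : ℤ) + (m (d.L w.1) + sc (d.ta w) - 1)).toNat ∈ J w.1
    · by_cases h4 : Good d m (k₁ - 1) s ε (Gc d m s w.1)
      · rw [ind_not (x := w.1) (E := {ω | ¬ Good d m (k₁ - 1) s ε (Gc d m s ω)})
          (fun h5 => h5 h4), mul_zero, mul_zero, mul_zero]
        exact hnn
      · rw [ind_mem h2, ind_mem (x := w.1) (E := {ω | ¬ Good d m (k₁ - 1) s ε (Gc d m s ω)}) h4]
        have h5 : jz (J w.1) ((s : ℤ) + (m (d.L w.1) + sc (d.ta w) - 1)) = 1 := by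
          unfold jz
          rw [if_pos h3]
        rw [h5, mul_one, mul_one, mul_one]
        have h6 : w ∈ {w : d.Om × d.Om | (m (d.L w.1), d.T w.1, d.T w.2) ∈ W ∧
            0 ≤ (s : ℤ) + (m (d.L w.1) + sc (d.th (d.T w.2) - d.th (d.T w.1)) - 1) ∧
            ((s : ℤ) + (m (d.L w.1) + sc (d.th (d.T w.2) - d.th (d.T w.1)) - 1)).toNat ∈
              J w.1} := by
          refine ⟨?_, h3⟩
          rw [hW]
          exact h2
        rw [Set.indicator_of_mem h6]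
        by_contra hcon
        rw [not_le] at hcon
        exact h4 (good_of_pair hk₁ (hne _ _ h2.1) h2.2 hcon.le hP)
    · have h5 : jz (J w.1) ((s : ℤ) + (m (d.L w.1) + sc (d.ta w) - 1)) = 0 := by
        unfold jz
        rw [if_neg h3]
      rw [h5, zero_mul, mul_zero, mul_zero]
      exact hnn
  · rw [ind_not h2, zero_mul, mul_zero]
    exact hnn

/-- Most depths are good. -/
theorem sum_bad {A : ℕ} {J : d.Om → Set ℕ} {n h k k₁ k' : ℕ} {e u ε ε₈ : ℝ} (hOK : d.OK A)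
    (hS : Siz d n h m) (hu : 0 < u) (hu1 : u ≤ 1) (hε : 0 < ε) (hk : 2 ≤ k) (hk₁ : 1 ≤ k₁)
    (hK : 8 * (k' + 1) ≤ n) (he₈ : 0 ≤ ε₈) (hRow : RowA d J m n k k₁ e) (hJ : J1 d J h u ε₈)
    (hfq : Pr d.P {ω | u / 32 * n < d.fq n (d.L ω) ((2 : ℝ) ^ (1 - m (d.L ω)))} ≤ ε₈)
    (hTB : ∑ i ∈ range n, Pr (d.Qp i) {w | |d.ta w| < (2 : ℝ) ^ (-((i : ℤ) + k'))} ≤ ε₈ * n) :
    ∑ s ∈ Ico (9 * n) (d.X - 8 * n), Pr d.P (Dst d m (k₁ - 1) (8 * (k' + 1)) s ε) ≤
      2 / u * (e / ε + 3 * ε₈) * d.X := by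
  classical
  have hP := hOK.law.nonneg
  have hQ0 : ∀ i w, 0 ≤ d.Qp i w := fun i w => dbl_nonneg hP w
  have hQm : ∀ i, Marg (d.Qp i) d.P (fun w => w.1) := fun i => dbl_fst hP
  obtain ⟨K, hKdef⟩ : ∃ K, K = 8 * (k' + 1) := ⟨_, rfl⟩
  rw [← hKdef] at hK ⊢
  have hn1 : 64 ≤ n := by
    have h1 := hS.h1
    have h2 := hS.hn
    omega
  -- the rows hit in bad cells
  obtain ⟨R, hR⟩ : ∃ R : ℕ → ℕ → ℝ, R = fun (i s : ℕ) => Ex (d.Qp i) (fun w =>
      ind {w : d.Om × d.Om | (2 : ℝ) ^ (-((i : ℤ) + k')) ≤ |d.ta w| ∧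
        |d.sg w| ≤ (2 : ℝ) ^ (1 - m (d.L w.1)) * |d.ta w|} w *
      (jz (J w.1) ((s : ℤ) + (m (d.L w.1) + sc (d.ta w) - 1)) *
        ind {ω | ¬ Good d m (k₁ - 1) s ε (Gc d m s ω)} w.1)) := ⟨_, rfl⟩
  have hR0 : ∀ i s, 0 ≤ R i s := by
    intro i s
    rw [hR]
    exact Ex_nonneg (hQ0 i) fun w _ => mul_nonneg (ind_nonneg _ _)
      (mul_nonneg (jz_nonneg _ _) (ind_nonneg _ _))
  have hRs : ∑ s ∈ Ico (8 * n) (d.X - 8 * n), ∑ i ∈ range n, R i s ≤ n * (e * d.X / ε) := by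
    rw [Finset.sum_comm]
    have h1 : ∀ i ∈ range n, ∑ s ∈ Ico (8 * n) (d.X - 8 * n), R i s ≤ e * d.X / ε := by
      intro i hi
      rw [mem_range] at hi
      rw [hR]
      exact row_bad hOK hε hk hk₁ hRow (by omega)
    have h2 := Finset.sum_le_card_nsmul _ _ _ h1
    rw [card_range, nsmul_eq_mul] at h2
    exact h2
  -- one depth
  have hone : ∀ s ∈ Ico (9 * n) (d.X - 8 * n),
      ((K - k' : ℕ) : ℝ) * (u * ((n : ℝ) - 2 * h)) *
        (Pr d.P (Dst d m (k₁ - 1) K s ε) - ε₈) ≤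
      ∑ y ∈ range K, ∑ i ∈ range n, R i (s - y) + K * (ε₈ * n + (u / 32 * n *
        Pr d.P (Dst d m (k₁ - 1) K s ε) + n * ε₈)) := by
    intro s hs
    rw [mem_Ico] at hs
    obtain ⟨D, hD⟩ : ∃ D, D = Dst d m (k₁ - 1) K s ε := ⟨_, rfl⟩
    rw [← hD]
    obtain ⟨C, hC⟩ : ∃ C : ℕ → d.Om → ℝ, C = fun (i : ℕ) ω => ∑ x ∈ range (K - k'),
        jz (J ω) ((s : ℤ) + m (d.L ω) + i - x) := ⟨_, rfl⟩
    have hC0 : ∀ i ω, 0 ≤ C i ω := by
      intro i ω
      rw [hC]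
      exact Finset.sum_nonneg fun x _ => jz_nonneg _ _
    have hCK : ∀ i ω, C i ω ≤ K := by
      intro i ω
      rw [hC]
      have h1 := Finset.sum_le_card_nsmul (range (K - k'))
        (fun x : ℕ => jz (J ω) ((s : ℤ) + m (d.L ω) + i - x)) 1 fun x _ => jz_le _ _
      rw [card_range, nsmul_eq_mul, mul_one] at h1
      refine h1.trans ?_
      exact_mod_cast Nat.sub_le _ _
    -- the lower bound
    have hlow : ((K - k' : ℕ) : ℝ) * (u * ((n : ℝ) - 2 * h)) * (Pr d.P D - ε₈) ≤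
        ∑ i ∈ range n, Ex (d.Qp i) (fun w => ind D w.1 * C i w.1) := by
      have e1 : ∑ i ∈ range n, Ex (d.Qp i) (fun w => ind D w.1 * C i w.1) =
          Ex d.P (fun ω => ind D ω * ∑ i ∈ range n, C i ω) := by
        have h1 : ∀ i ∈ range n, Ex (d.Qp i) (fun w => ind D w.1 * C i w.1) =
            Ex d.P (fun ω => ind D ω * C i ω) := by
          intro i _
          rw [← (hQm i).ex]
        rw [Finset.sum_congr rfl h1, ← Ex_sum]
        congr 1
        funext ω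
        rw [← Finset.mul_sum]
      rw [e1]
      have hhn : (64 : ℝ) * h ≤ n := by exact_mod_cast hS.hn
      have hh0 : (0 : ℝ) ≤ h := Nat.cast_nonneg _
      have hc0 : 0 ≤ ((K - k' : ℕ) : ℝ) * (u * ((n : ℝ) - 2 * h)) :=
        mul_nonneg (Nat.cast_nonneg _) (mul_nonneg hu.le (by linarith only [hhn]))
      have h2 : ((K - k' : ℕ) : ℝ) * (u * ((n : ℝ) - 2 * h)) * (Pr d.P D - Pr d.P {ω | ∃ j : ℕ,
          (j + 2) * h ≤ d.X ∧ (Set.ncard {r | r ∈ J ω ∧ j * h ≤ r ∧ r < (j + 1) * h} : ℝ) <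
            u * h}) ≤ Ex d.P (fun ω => ind D ω * ∑ i ∈ range n, C i ω) := by
        rw [← Ex_ind, ← Ex_ind, ← Ex_sub, ← Ex_smul]
        refine Ex_mono hP fun ω _ => ?_
        have hCs : 0 ≤ ∑ i ∈ range n, C i ω := Finset.sum_nonneg fun i _ => hC0 i ω
        by_cases h3 : ω ∈ {ω | ∃ j : ℕ, (j + 2) * h ≤ d.X ∧
            (Set.ncard {r | r ∈ J ω ∧ j * h ≤ r ∧ r < (j + 1) * h} : ℝ) < u * h}
        · have h4 : ind D ω - 1 ≤ 0 := by linarith only [ind_le D ω]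
          rw [ind_mem h3]
          have h5 : ((K - k' : ℕ) : ℝ) * (u * ((n : ℝ) - 2 * h)) * (ind D ω - 1) ≤ 0 :=
            mul_nonpos_of_nonneg_of_nonpos hc0 h4
          exact h5.trans (mul_nonneg (ind_nonneg _ _) hCs)
        · rw [ind_not h3, sub_zero, mul_comm]
          refine mul_le_mul_of_nonneg_left ?_ (ind_nonneg _ _)
          rw [hC]
          have hm1 := hS.m1 (d.L ω)
          have hm2 := hS.m2 (d.L ω)
          refine window (J ω) hS.h1 hu.le (X := d.X) ?_ n (K - k') ((s : ℤ) + m (d.L ω)) ?_ ?_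
          · intro j hj
            by_contra hcon
            exact h3 ⟨j, hj, not_le.1 hcon⟩
          · omega
          · have := hS.hn
            have := hS.nX
            omega
      refine le_trans ?_ h2
      refine mul_le_mul_of_nonneg_left ?_ hc0
      have h3 : J1 d J h u ε₈ := hJ
      unfold J1 at h3
      linarith only [h3]
    -- the upper bound
    have hup : ∀ i ∈ range n, Ex (d.Qp i) (fun w => ind D w.1 * C i w.1) ≤
        ∑ y ∈ range K, R i (s - y) + K * (Pr (d.Qp i) {w | |d.ta w| < (2 : ℝ) ^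
          (-((i : ℤ) + k'))} + Ex (d.Qp i) (fun w => ind D w.1 *
          ind {w : d.Om × d.Om | (2 : ℝ) ^ (1 - m (d.L w.1)) * |d.ta w| < |d.sg w|} w)) := by
      intro i _
      rw [hR]
      beta_reduce
      rw [← Ex_sum, ← Ex_ind, ← Ex_add, ← Ex_smul, ← Ex_add]
      refine Ex_mono (hQ0 i) fun w hw => ?_
      have hti : d.Ti i w.1 = d.Ti i w.2 := by
        have hw' : 0 < dbl d.P (fun ω => (d.L ω, d.Ti i ω)) w := hw
        exact (Prod.ext_iff.1 ((glue_pos_iff hP hP w).1 hw').2.2).2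
      have s1 : 0 ≤ ∑ y ∈ range K,
          ind {w : d.Om × d.Om | (2 : ℝ) ^ (-((i : ℤ) + k')) ≤ |d.ta w| ∧
            |d.sg w| ≤ (2 : ℝ) ^ (1 - m (d.L w.1)) * |d.ta w|} w *
          (jz (J w.1) (((s - y : ℕ) : ℤ) + (m (d.L w.1) + sc (d.ta w) - 1)) *
            ind {ω | ¬ Good d m (k₁ - 1) (s - y) ε (Gc d m (s - y) ω)} w.1) :=
        Finset.sum_nonneg fun y _ => mul_nonneg (ind_nonneg _ _)
          (mul_nonneg (jz_nonneg _ _) (ind_nonneg _ _))
      have s2 : 0 ≤ ind {w : d.Om × d.Om | |d.ta w| < (2 : ℝ) ^ (-((i : ℤ) + k'))} w :=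
        ind_nonneg _ _
      have s3 : 0 ≤ ind D w.1 *
          ind {w : d.Om × d.Om | (2 : ℝ) ^ (1 - m (d.L w.1)) * |d.ta w| < |d.sg w|} w :=
        mul_nonneg (ind_nonneg _ _) (ind_nonneg _ _)
      have s4 : (0 : ℝ) ≤ K := Nat.cast_nonneg _
      by_cases hwD : w.1 ∈ D
      · rw [ind_mem hwD, one_mul, one_mul]
        rw [ind_mem hwD, one_mul] at s3
        by_cases hwt : |d.ta w| < (2 : ℝ) ^ (-((i : ℤ) + k'))
        · rw [ind_mem (show w ∈ {w : d.Om × d.Om | |d.ta w| < (2 : ℝ) ^ (-((i : ℤ) + k'))}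
            from hwt)]
          have := hCK i w.1
          nlinarith only [s1, this, s3]
        · rw [not_lt] at hwt
          by_cases hwf : (2 : ℝ) ^ (1 - m (d.L w.1)) * |d.ta w| < |d.sg w|
          · rw [ind_mem (show w ∈ {w : d.Om × d.Om | (2 : ℝ) ^ (1 - m (d.L w.1)) * |d.ta w| <
              |d.sg w|} from hwf)]
            have := hCK i w.1
            nlinarith only [s1, this, s2]
          · rw [not_lt] at hwf
            rw [ind_mem (show w ∈ {w : d.Om × d.Om | (2 : ℝ) ^ (-((i : ℤ) + k')) ≤ |d.ta w| ∧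
              |d.sg w| ≤ (2 : ℝ) ^ (1 - m (d.L w.1)) * |d.ta w|} from ⟨hwt, hwf⟩)]
            obtain ⟨g1, g2⟩ := pair_scale hti hwt
            have h1 : C i w.1 ≤ ∑ y ∈ range K, jz (J w.1) ((s : ℤ) + m (d.L w.1) - y +
                (sc (d.ta w) - 1)) := by
              rw [hC]
              exact win_le (J w.1) _ i _ g1 g2
            have h2 : ∑ y ∈ range K, jz (J w.1) ((s : ℤ) + m (d.L w.1) - y +
                (sc (d.ta w) - 1)) = ∑ y ∈ range K, 1 *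
                (jz (J w.1) (((s - y : ℕ) : ℤ) + (m (d.L w.1) + sc (d.ta w) - 1)) *
                ind {ω | ¬ Good d m (k₁ - 1) (s - y) ε (Gc d m (s - y) ω)} w.1) := by
              refine Finset.sum_congr rfl fun y hy => ?_
              rw [mem_range] at hy
              rw [ind_mem (x := w.1)
                (E := {ω | ¬ Good d m (k₁ - 1) (s - y) ε (Gc d m (s - y) ω)}) (by
                  rw [hD] at hwD
                  exact hwD y hy), mul_one, one_mul]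
              congr 1
              have : ((s - y : ℕ) : ℤ) = (s : ℤ) - y := by omega
              rw [this]
              ring
            rw [h2] at h1
            have h3 : 0 ≤ (K : ℝ) * (ind {w : d.Om × d.Om | |d.ta w| < (2 : ℝ) ^
                (-((i : ℤ) + k'))} w + ind {w : d.Om × d.Om |
                (2 : ℝ) ^ (1 - m (d.L w.1)) * |d.ta w| < |d.sg w|} w) :=
              mul_nonneg s4 (add_nonneg s2 s3)
            linarith only [h1, h3]
      · rw [ind_not hwD, zero_mul]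
        rw [ind_not hwD] at s3
        exact add_nonneg s1 (mul_nonneg s4 (add_nonneg s2 s3))
    have hsum := Finset.sum_le_sum hup
    rw [Finset.sum_add_distrib, ← Finset.mul_sum, Finset.sum_add_distrib, Finset.sum_comm] at hsum
    rw [hD, fq_sum hOK, ← hD] at hsum
    have hfqD : Ex d.P (fun ω => ind D ω * d.fq n (d.L ω) ((2 : ℝ) ^ (1 - m (d.L ω)))) ≤
        u / 32 * n * Pr d.P D + n * ε₈ := by
      have h1 : Ex d.P (fun ω => ind D ω * d.fq n (d.L ω) ((2 : ℝ) ^ (1 - m (d.L ω)))) ≤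
          u / 32 * n * Ex d.P (ind D) + n * Ex d.P (ind {ω | u / 32 * n <
            d.fq n (d.L ω) ((2 : ℝ) ^ (1 - m (d.L ω)))}) := by
        rw [← Ex_smul, ← Ex_smul, ← Ex_add]
        refine Ex_mono hP fun ω hω => ?_
        have h2 := ind_nonneg D ω
        have h3 := ind_le D ω
        have h4 := fq_le (d := d) hOK n ((2 : ℝ) ^ (1 - m (d.L ω))) hω
        have hn0 : (0 : ℝ) ≤ n := Nat.cast_nonneg _
        by_cases h5 : u / 32 * n < d.fq n (d.L ω) ((2 : ℝ) ^ (1 - m (d.L ω)))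
        · rw [ind_mem (x := ω) (E := {ω | u / 32 * n <
            d.fq n (d.L ω) ((2 : ℝ) ^ (1 - m (d.L ω)))}) h5, mul_one]
          have h6 : ind D ω * d.fq n (d.L ω) ((2 : ℝ) ^ (1 - m (d.L ω))) ≤ 1 * n := by
            have h7 : 0 ≤ d.fq n (d.L ω) ((2 : ℝ) ^ (1 - m (d.L ω))) := by
              have : 0 ≤ u / 32 * n := by positivity
              linarith only [h5, this]
            exact mul_le_mul h3 h4 h7 (by norm_num)
          have h8 : 0 ≤ u / 32 * n * ind D ω := by positivity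
          linarith only [h6, h8]
        · rw [ind_not (x := ω) (E := {ω | u / 32 * n <
            d.fq n (d.L ω) ((2 : ℝ) ^ (1 - m (d.L ω)))}) h5, mul_zero, add_zero]
          rw [not_lt] at h5
          have := mul_le_mul_of_nonneg_left h5 h2
          linarith only [this]
      rw [Ex_ind, Ex_ind] at h1
      have hn0 : (0 : ℝ) ≤ n := Nat.cast_nonneg _
      have := mul_le_mul_of_nonneg_left hfq hn0
      linarith only [h1, this]
    have hK0 : (0 : ℝ) ≤ K := Nat.cast_nonneg _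
    have h9 := mul_le_mul_of_nonneg_left (add_le_add hTB hfqD) hK0
    linarith only [hlow, hsum, h9]
  -- sum over the depths
  have hsum := Finset.sum_le_sum hone
  rw [Finset.sum_add_distrib] at hsum
  have hsh := sum_shift (fun s => ∑ i ∈ range n, R i s)
    (fun s => Finset.sum_nonneg fun i _ => hR0 i s) (a := 8 * n) (b := d.X - 8 * n) (c := 9 * n)
    (K := K) (by omega)
  have hK0 : (0 : ℝ) < K := by
    rw [hKdef]
    positivity
  have hn0 : (0 : ℝ) < n := by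
    have : 0 < n := by omega
    exact_mod_cast this
  have hcard : (((Ico (9 * n) (d.X - 8 * n)).card : ℕ) : ℝ) ≤ d.X := by
    rw [Nat.card_Ico]
    exact_mod_cast (by omega : d.X - 8 * n - 9 * n ≤ d.X)
  obtain ⟨Sg, hSg⟩ : ∃ Sg, Sg = ∑ s ∈ Ico (9 * n) (d.X - 8 * n),
      Pr d.P (Dst d m (k₁ - 1) K s ε) := ⟨_, rfl⟩
  rw [← hSg]
  have hSg0 : 0 ≤ Sg := by
    rw [hSg]
    exact Finset.sum_nonneg fun s _ => law_nonneg hP _ _
  obtain ⟨c, hc⟩ : ∃ c, c = ((K - k' : ℕ) : ℝ) * (u * ((n : ℝ) - 2 * h)) := ⟨_, rfl⟩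
  obtain ⟨N, hN⟩ : ∃ N, N = (((Ico (9 * n) (d.X - 8 * n)).card : ℕ) : ℝ) := ⟨_, rfl⟩
  have hN0 : 0 ≤ N := by rw [hN]; exact Nat.cast_nonneg _
  have el : ∑ s ∈ Ico (9 * n) (d.X - 8 * n), ((K - k' : ℕ) : ℝ) * (u * ((n : ℝ) - 2 * h)) *
        (Pr d.P (Dst d m (k₁ - 1) K s ε) - ε₈) = c * (Sg - N * ε₈) := by
    rw [← Finset.mul_sum, Finset.sum_sub_distrib, Finset.sum_const, nsmul_eq_mul, ← hSg, ← hc,
      ← hN]
  have er : ∑ s ∈ Ico (9 * n) (d.X - 8 * n), (K : ℝ) * (ε₈ * n + (u / 32 * n *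
        Pr d.P (Dst d m (k₁ - 1) K s ε) + n * ε₈)) =
      K * (N * (ε₈ * n) + (u / 32 * n * Sg + N * (n * ε₈))) := by
    rw [← Finset.mul_sum, Finset.sum_add_distrib, Finset.sum_add_distrib, Finset.sum_const,
      Finset.sum_const, nsmul_eq_mul, nsmul_eq_mul, ← Finset.mul_sum, ← hSg, ← hN]
  rw [el, er] at hsum
  have hsh' := hsh.trans (mul_le_mul_of_nonneg_left hRs hK0.le)
  have hhn : (64 : ℝ) * h ≤ n := by exact_mod_cast hS.hn
  have hh0 : (0 : ℝ) ≤ h := Nat.cast_nonneg _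
  have hKk : (7 : ℝ) / 8 * K ≤ ((K - k' : ℕ) : ℝ) := by
    have h1 : 7 * K ≤ 8 * (K - k') := by omega
    have h2 : (7 : ℝ) * K ≤ 8 * ((K - k' : ℕ) : ℝ) := by exact_mod_cast h1
    linarith only [h2]
  have hKk' : ((K - k' : ℕ) : ℝ) ≤ K := by exact_mod_cast Nat.sub_le _ _
  have hcl : (17 : ℝ) / 32 * (u * (K * n)) ≤ c := by
    rw [hc]
    have h1 : (31 : ℝ) / 32 * n ≤ (n : ℝ) - 2 * h := by linarith only [hhn]
    have h2 : 0 ≤ (n : ℝ) - 2 * h := by linarith only [hn0, hhn]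
    calc (17 : ℝ) / 32 * (u * (K * n)) ≤ 7 / 8 * K * (u * (31 / 32 * n)) := by
          have : 0 ≤ u * (K * n) := by positivity
          nlinarith only [this]
      _ ≤ ((K - k' : ℕ) : ℝ) * (u * ((n : ℝ) - 2 * h)) :=
          mul_le_mul hKk (mul_le_mul_of_nonneg_left h1 hu.le) (by positivity) (by positivity)
  have hcu : c ≤ K * n := by
    rw [hc]
    have h2 : 0 ≤ (n : ℝ) - 2 * h := by linarith only [hn0, hhn]
    have h3 : u * ((n : ℝ) - 2 * h) ≤ n := by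
      calc u * ((n : ℝ) - 2 * h) ≤ 1 * ((n : ℝ) - 2 * h) := mul_le_mul_of_nonneg_right hu1 h2
        _ ≤ n := by linarith only
    exact mul_le_mul hKk' h3 (mul_nonneg hu.le h2) hK0.le
  have hXN : N ≤ d.X := by rw [hN]; exact hcard
  have k1 : (17 : ℝ) / 32 * (u * (K * n)) * Sg ≤ c * Sg := mul_le_mul_of_nonneg_right hcl hSg0
  have k2 : c * (N * ε₈) ≤ K * n * (d.X * ε₈) := by
    refine mul_le_mul hcu (mul_le_mul_of_nonneg_right hXN he₈) (by positivity) (by positivity)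
  have k3 : (K : ℝ) * (N * (ε₈ * n)) ≤ K * n * (d.X * ε₈) := by
    have h1 : (K : ℝ) * (N * (ε₈ * n)) = K * n * (N * ε₈) := by ring
    rw [h1]
    exact mul_le_mul_of_nonneg_left (mul_le_mul_of_nonneg_right hXN he₈) (by positivity)
  have k4 : (K : ℝ) * (N * (n * ε₈)) ≤ K * n * (d.X * ε₈) := by
    have h1 : (K : ℝ) * (N * (n * ε₈)) = K * n * (N * ε₈) := by ring
    rw [h1]
    exact mul_le_mul_of_nonneg_left (mul_le_mul_of_nonneg_right hXN he₈) (by positivity)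
  have k5 : (K : ℝ) * n * (u / 2 * Sg) ≤ K * n * ((e / ε + 3 * ε₈) * d.X) := by
    have h1 : (K : ℝ) * (n * (e * d.X / ε)) = K * n * (e / ε * d.X) := by ring
    rw [h1] at hsh'
    have h2 : c * (Sg - N * ε₈) = c * Sg - c * (N * ε₈) := by ring
    have h3 : (K : ℝ) * (N * (ε₈ * n) + (u / 32 * n * Sg + N * (n * ε₈))) =
        K * (N * (ε₈ * n)) + K * (u / 32 * n * Sg) + K * (N * (n * ε₈)) := by ring
    have h4 : (17 : ℝ) / 32 * (u * (K * n)) * Sg = K * n * (u / 2 * Sg) + K * (u / 32 * n * Sg) := by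
      ring
    have h5 : (K : ℝ) * n * ((e / ε + 3 * ε₈) * d.X) = K * n * (e / ε * d.X) +
        (K * n * (d.X * ε₈) + K * n * (d.X * ε₈) + K * n * (d.X * ε₈)) := by ring
    rw [h2, h3] at hsum
    rw [h4] at k1
    rw [h5]
    linarith only [hsum, hsh', k1, k2, k3]
  have k6 : u / 2 * Sg ≤ (e / ε + 3 * ε₈) * d.X :=
    le_of_mul_le_mul_left k5 (by positivity)
  have k7 : Sg = 2 / u * (u / 2 * Sg) := by
    field_simp
  rw [k7]
  have k8 := mul_le_mul_of_nonneg_left k6 (by positivity : 0 ≤ 2 / u)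
  linarith only [k8]

end

end Pool.OC.SP
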