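import Pool.Agent.H70.OC.Cnt
import Pool.Agent.H29.OC.NlcS
import Pool.Agent.H66.OC.Dec

/-!
# OC, row SPRA: good cells of stage A
-/

set_option autoImplicit false

namespace Pool.OC.SP

open Finset Real
open Pool.Agent.H49.Ent Pool.Agent.H32.Dense Pool.STK Pool.KAF

lemma sc_spec {x : ℝ} (hx : x ≠ 0) : (2 : ℝ) ^ (-sc x) ≤ |x| ∧ |x| < (2 : ℝ) ^ (1 - sc x) := by
  have h0 : 0 < |x| := abs_pos.2 hx
  unfold sc
  rw [neg_neg, sub_neg_eq_add, add_comm]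
  constructor
  · exact_mod_cast Int.zpow_log_le_self (b := 2) (by norm_num) h0
  · exact_mod_cast Int.lt_zpow_succ_log_self (b := 2) (by norm_num) |x|

lemma lt_of_zpow {a b : ℤ} (h : (2 : ℝ) ^ a < 2 ^ b) : a < b := by
  by_contra hcon
  rw [not_lt] at hcon
  exact absurd (zpow_le_zpow_right₀ (by norm_num : (1 : ℝ) ≤ 2) hcon) (not_le.2 h)

section

variable (d : Dat) (m : d.Lam → ℤ)

/-- The normalised normal velocity. -/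
noncomputable def Yn (ω : d.Om) : ℝ := (2 : ℝ) ^ (m (d.L ω)) * d.beR (d.L ω)

/-- The cell. -/
noncomputable def Gc (s : ℕ) (ω : d.Om) : ℤ × ℤ × ℤ × ℤ := d.GA m s (d.L ω)

/-- The samples for which the affine function is far from the normal velocity. -/
def viol (k s : ℕ) (x : ℝ × ℝ) : Set d.Om :=
  {v | (2 : ℝ) ^ (-((s : ℤ) + k)) ≤ |Yn d m v - x.1 - x.2 * d.yR (d.L v)|}

/-- Good cells. -/
def Good (k s : ℕ) (ε : ℝ) (g : ℤ × ℤ × ℤ × ℤ) : Prop :=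
  ∃ x : ℝ × ℝ, |x.2| ≤ 2 ∧ Pr (cond d.P (Gc d m s) g) (viol d m k s x) ≤ ε

variable {d m}

/-- The same cell. -/
lemma cell_near {s : ℕ} {l v : d.Lam} (h : d.GA m s v = d.GA m s l) :
    m v = m l ∧ d.omR v = d.omR l ∧ |d.yR l - d.yR v| ≤ (2 : ℝ) ^ (-(s : ℤ)) ∧
      |d.beR l - d.beR v| ≤ (2 : ℝ) ^ (-((s : ℤ) + m l)) := by
  unfold Dat.GA at h
  simp only [Prod.mk.injEq] at h
  obtain ⟨g1, g2, g3, g4⟩ := h
  refine ⟨g1, by unfold Dat.omR; rw [g2], ?_, ?_⟩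
  · have h1 := Int.abs_sub_lt_one_of_floor_eq_floor g3
    rw [← mul_sub, abs_mul, abs_of_pos (by positivity : (0 : ℝ) < 2 ^ s), abs_sub_comm] at h1
    rw [zpow_neg, zpow_natCast, ← one_div, le_div_iff₀ (by positivity), mul_comm]
    exact h1.le
  · rw [g1] at g4
    have h1 := Int.abs_sub_lt_one_of_floor_eq_floor g4
    rw [← mul_sub, abs_mul, abs_of_pos (by positivity : (0 : ℝ) < 2 ^ ((s : ℤ) + m l)),
      abs_sub_comm] at h1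
    rw [zpow_neg, ← one_div, le_div_iff₀ (by positivity), mul_comm]
    exact h1.le

lemma Z_diff {l v : d.Lam} (h : d.omR v = d.omR l) (t₁ t₀ : d.Tau) :
    d.ZR t₁ t₀ l - d.ZR t₁ t₀ v =
      (d.th t₀ - d.th t₁) * (d.beR l - d.beR v) - (d.S t₀ - d.S t₁) * (d.yR l - d.yR v) := by
  unfold Dat.ZR
  rw [h]
  ring

/-- The size of the form in a cell. -/
lemma Z_up {s k : ℕ} (hk : 2 ≤ k) {l v : d.Lam} (h : d.GA m s v = d.GA m s l) {t₁ t₀ : d.Tau}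
    (h0 : d.th t₀ - d.th t₁ ≠ 0)
    (hχ : |d.S t₀ - d.S t₁| ≤ (2 : ℝ) ^ (1 - m l) * |d.th t₀ - d.th t₁|) :
    |d.ZR t₁ t₀ l - d.ZR t₁ t₀ v| ≤
      (2 : ℝ) ^ ((k : ℤ) - (s + (m l + sc (d.th t₀ - d.th t₁) - 1))) := by
  obtain ⟨-, h2, h3, h4⟩ := cell_near h
  rw [Z_diff h2]
  obtain ⟨τ, hτ⟩ : ∃ τ, τ = d.th t₀ - d.th t₁ := ⟨_, rfl⟩
  obtain ⟨σ, hσ⟩ : ∃ σ, σ = d.S t₀ - d.S t₁ := ⟨_, rfl⟩
  rw [← hτ] at h0 hχ ⊢
  rw [← hσ] at hχ ⊢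
  have h5 := (sc_spec h0).2
  have hτ0 : 0 ≤ |τ| := abs_nonneg _
  have p1 : |τ * (d.beR l - d.beR v)| ≤ |τ| * (2 : ℝ) ^ (-((s : ℤ) + m l)) := by
    rw [abs_mul]
    exact mul_le_mul_of_nonneg_left h4 hτ0
  have p2 : |σ * (d.yR l - d.yR v)| ≤ |τ| * (2 * (2 : ℝ) ^ (-((s : ℤ) + m l))) := by
    rw [abs_mul]
    calc |σ| * |d.yR l - d.yR v| ≤ ((2 : ℝ) ^ (1 - m l) * |τ|) * (2 : ℝ) ^ (-(s : ℤ)) :=
          mul_le_mul hχ h3 (abs_nonneg _) (by positivity)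
      _ = |τ| * (2 * (2 : ℝ) ^ (-((s : ℤ) + m l))) := by
          have e1 : (2 : ℝ) ^ (1 - m l) * (2 : ℝ) ^ (-(s : ℤ)) =
              2 * (2 : ℝ) ^ (-((s : ℤ) + m l)) := by
            rw [← zpow_add₀ (by norm_num), ← zpow_one_add₀ (by norm_num)]
            congr 1
            ring
          rw [← e1]
          ring
  have p3 : |τ * (d.beR l - d.beR v) - σ * (d.yR l - d.yR v)| ≤
      |τ| * (3 * (2 : ℝ) ^ (-((s : ℤ) + m l))) := by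
    have := abs_sub (τ * (d.beR l - d.beR v)) (σ * (d.yR l - d.yR v))
    linarith
  refine p3.trans ?_
  have hpos : (0 : ℝ) < (2 : ℝ) ^ (-((s : ℤ) + m l)) := by positivity
  calc |τ| * (3 * (2 : ℝ) ^ (-((s : ℤ) + m l))) ≤
        (2 : ℝ) ^ (1 - sc τ) * (4 * (2 : ℝ) ^ (-((s : ℤ) + m l))) := by
        refine mul_le_mul h5.le ?_ (by positivity) (by positivity)
        linarith
    _ = (2 : ℝ) ^ (3 - sc τ - (s + m l)) := by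
        have e2 : (4 : ℝ) = (2 : ℝ) ^ (2 : ℤ) := by norm_num
        rw [e2, ← zpow_add₀ (by norm_num), ← zpow_add₀ (by norm_num)]
        congr 1
        ring
    _ ≤ _ := by
        refine zpow_le_zpow_right₀ (by norm_num) ?_
        have : (2 : ℤ) ≤ k := by exact_mod_cast hk
        linarith

/-- A pair which does not hit its row makes the cell good. -/
lemma good_of_pair {s k₁ : ℕ} (hk₁ : 1 ≤ k₁) {ε : ℝ} {ω : d.Om} {t₁ t₀ : d.Tau}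
    (h0 : d.th t₀ - d.th t₁ ≠ 0)
    (hχ : |d.S t₀ - d.S t₁| ≤ (2 : ℝ) ^ (1 - m (d.L ω)) * |d.th t₀ - d.th t₁|)
    (hA : Pr (cond d.P (fun v => d.GA m s (d.L v)) (d.GA m s (d.L ω)))
      {v | (2 : ℝ) ^ (-((s : ℤ) + (m (d.L ω) + sc (d.th t₀ - d.th t₁) - 1) + k₁)) ≤
        |d.ZR t₁ t₀ (d.L ω) - d.ZR t₁ t₀ (d.L v)|} ≤ ε) (hP : ∀ ω, 0 ≤ d.P ω) :
    Good d m (k₁ - 1) s ε (Gc d m s ω) := by
  obtain ⟨τ, hτ⟩ : ∃ τ, τ = d.th t₀ - d.th t₁ := ⟨_, rfl⟩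
  obtain ⟨σ, hσ⟩ : ∃ σ, σ = d.S t₀ - d.S t₁ := ⟨_, rfl⟩
  rw [← hτ] at h0 hχ hA
  rw [← hσ] at hχ
  have hτ0 : 0 < |τ| := abs_pos.2 h0
  have hM : (0 : ℝ) < (2 : ℝ) ^ (m (d.L ω)) := by positivity
  refine ⟨((2 : ℝ) ^ (m (d.L ω)) * (d.beR (d.L ω) - σ / τ * d.yR (d.L ω)),
    (2 : ℝ) ^ (m (d.L ω)) * (σ / τ)), ?_, ?_⟩
  · show |(2 : ℝ) ^ (m (d.L ω)) * (σ / τ)| ≤ 2
    rw [abs_mul, abs_div, abs_of_pos hM]
    have h1 : |σ| / |τ| ≤ (2 : ℝ) ^ (1 - m (d.L ω)) := by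
      rw [div_le_iff₀ hτ0]
      exact hχ
    calc (2 : ℝ) ^ (m (d.L ω)) * (|σ| / |τ|) ≤
          (2 : ℝ) ^ (m (d.L ω)) * (2 : ℝ) ^ (1 - m (d.L ω)) :=
          mul_le_mul_of_nonneg_left h1 hM.le
      _ = 2 := by
          rw [← zpow_add₀ (by norm_num)]
          have : m (d.L ω) + (1 - m (d.L ω)) = 1 := by ring
          rw [this, zpow_one]
  · refine le_trans ?_ hA
    classical
    rw [Pr_eq, Pr_eq]
    refine Finset.sum_le_sum fun v _ => ?_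
    have hc0 : 0 ≤ cond d.P (Gc d m s) (Gc d m s ω) v := cond_nonneg hP _ _ v
    rcases hc0.eq_or_lt with h1 | h1
    · have h2 : cond d.P (fun v => d.GA m s (d.L v)) (d.GA m s (d.L ω)) v = 0 := h1.symm
      rw [← h1, h2]
      simp
    obtain ⟨-, hg⟩ := (cond_pos_iff hP _ _ v).1 h1
    have hg' : d.GA m s (d.L v) = d.GA m s (d.L ω) := hg
    obtain ⟨g1, g2, -, -⟩ := cell_near hg'
    show (if v ∈ _ then cond d.P (Gc d m s) (Gc d m s ω) v else 0) ≤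
      (if v ∈ _ then cond d.P (Gc d m s) (Gc d m s ω) v else 0)
    by_cases hv : v ∈ viol d m (k₁ - 1) s ((2 : ℝ) ^ (m (d.L ω)) *
        (d.beR (d.L ω) - σ / τ * d.yR (d.L ω)), (2 : ℝ) ^ (m (d.L ω)) * (σ / τ))
    · rw [if_pos hv, if_pos]
      show (2 : ℝ) ^ (-((s : ℤ) + (m (d.L ω) + sc τ - 1) + k₁)) ≤
        |d.ZR t₁ t₀ (d.L ω) - d.ZR t₁ t₀ (d.L v)|
      have hv' : (2 : ℝ) ^ (-((s : ℤ) + (k₁ - 1 : ℕ))) ≤
          |Yn d m v - (2 : ℝ) ^ (m (d.L ω)) * (d.beR (d.L ω) - σ / τ * d.yR (d.L ω)) -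
            (2 : ℝ) ^ (m (d.L ω)) * (σ / τ) * d.yR (d.L v)| := hv
      have e1 : Yn d m v - (2 : ℝ) ^ (m (d.L ω)) * (d.beR (d.L ω) - σ / τ * d.yR (d.L ω)) -
            (2 : ℝ) ^ (m (d.L ω)) * (σ / τ) * d.yR (d.L v) =
          -((2 : ℝ) ^ (m (d.L ω)) * ((d.ZR t₁ t₀ (d.L ω) - d.ZR t₁ t₀ (d.L v)) / τ)) := by
        rw [Z_diff g2, ← hτ, ← hσ]
        unfold Yn
        rw [g1]
        field_simp
        ring
      rw [e1, abs_neg, abs_mul, abs_div, abs_of_pos hM] at hv'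
      have h3 : (2 : ℝ) ^ (-((s : ℤ) + (k₁ - 1 : ℕ))) * |τ| ≤
          (2 : ℝ) ^ (m (d.L ω)) * |d.ZR t₁ t₀ (d.L ω) - d.ZR t₁ t₀ (d.L v)| := by
        have h4 := mul_le_mul_of_nonneg_right hv' hτ0.le
        have e2 : (2 : ℝ) ^ (m (d.L ω)) * (|d.ZR t₁ t₀ (d.L ω) - d.ZR t₁ t₀ (d.L v)| / |τ|) * |τ| =
            (2 : ℝ) ^ (m (d.L ω)) * |d.ZR t₁ t₀ (d.L ω) - d.ZR t₁ t₀ (d.L v)| := by
          field_simp
        rwa [e2] at h4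
      have h5 := (sc_spec h0).1
      have h6 : (2 : ℝ) ^ (-((s : ℤ) + (k₁ - 1 : ℕ))) * (2 : ℝ) ^ (-sc τ) ≤
          (2 : ℝ) ^ (m (d.L ω)) * |d.ZR t₁ t₀ (d.L ω) - d.ZR t₁ t₀ (d.L v)| :=
        (mul_le_mul_of_nonneg_left h5 (by positivity)).trans h3
      have e3 : (2 : ℝ) ^ (-((s : ℤ) + (k₁ - 1 : ℕ))) * (2 : ℝ) ^ (-sc τ) =
          (2 : ℝ) ^ (m (d.L ω)) *
            (2 : ℝ) ^ (-((s : ℤ) + (m (d.L ω) + sc τ - 1) + k₁)) := by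
        rw [← zpow_add₀ (by norm_num), ← zpow_add₀ (by norm_num)]
        congr 1
        have : ((k₁ - 1 : ℕ) : ℤ) = (k₁ : ℤ) - 1 := by omega
        rw [this]
        ring
      rw [e3] at h6
      exact le_of_mul_le_mul_left h6 hM
    · rw [if_neg hv]
      split_ifs <;> linarith

/-- The scales of a pair. -/
lemma pair_scale {i k' : ℕ} {ω ω' : d.Om} (h : d.Ti i ω = d.Ti i ω')
    (h1 : (2 : ℝ) ^ (-((i : ℤ) + k')) ≤ |d.th (d.T ω') - d.th (d.T ω)|) :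
    (i : ℤ) ≤ sc (d.th (d.T ω') - d.th (d.T ω)) - 1 ∧
      sc (d.th (d.T ω') - d.th (d.T ω)) - 1 ≤ i + k' := by
  have h0 : d.th (d.T ω') - d.th (d.T ω) ≠ 0 := by
    intro hcon
    rw [hcon, abs_zero] at h1
    have : (0 : ℝ) < (2 : ℝ) ^ (-((i : ℤ) + k')) := by positivity
    linarith
  obtain ⟨h2, h3⟩ := sc_spec h0
  constructor
  · unfold Dat.Ti at h
    have h4 := Int.abs_sub_lt_one_of_floor_eq_floor h
    rw [← mul_sub, abs_mul, abs_of_pos (by positivity : (0 : ℝ) < 2 ^ i), abs_sub_comm] at h4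
    have h5 : |d.th (d.T ω') - d.th (d.T ω)| < (2 : ℝ) ^ (-(i : ℤ)) := by
      rw [zpow_neg, zpow_natCast, ← one_div, lt_div_iff₀ (by positivity), mul_comm]
      exact h4
    have h6 := lt_of_zpow (lt_of_le_of_lt h2 h5)
    omega
  · have h6 := lt_of_zpow (lt_of_le_of_lt h1 h3)
    omega

end

end Pool.OC.SP
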