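import Pool.Agent.H70.OC.Bad
import Pool.Agent.H70.OC.Tel

/-!
# OC, row SPRA: the first good depth of the window
-/

set_option autoImplicit false

namespace Pool.OC.SP

open Finset Real
open Pool.Agent.H49.Ent Pool.Agent.H32.Dense Pool.KAF
open Pool.OCT (fl fl_two_pow)

lemma cond_congr_set {Ω S T : Type} [Fintype Ω] (p : Ω → ℝ) {V : Ω → S} {V' : Ω → T} {v : S}
    {v' : T} (h : ∀ ω, V ω = v ↔ V' ω = v') : cond p V v = cond p V' v' := by
  classical
  have h1 : law p V v = law p V' v' := by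
    unfold law
    refine Finset.sum_congr rfl fun ω _ => ?_
    by_cases h2 : V ω = v
    · rw [if_pos h2, if_pos ((h ω).1 h2)]
    · rw [if_neg h2, if_neg fun h3 => h2 ((h ω).2 h3)]
  funext ω
  unfold Pool.Agent.H49.Ent.cond
  rw [h1]
  by_cases h2 : V ω = v
  · rw [if_pos h2, if_pos ((h ω).1 h2)]
  · rw [if_neg h2, if_neg fun h3 => h2 ((h ω).2 h3)]

lemma fl_mono {Ω : Type} (k : ℕ) (σ : ℝ) (y : Ω → ℝ) {ω ω' : Ω}
    (h : fl (2 ^ k * σ) y ω = fl (2 ^ k * σ) y ω') : fl σ y ω = fl σ y ω' := by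
  have h1 := fl_two_pow k σ y ω
  have h2 := fl_two_pow k σ y ω'
  rw [h] at h1
  have hk : (0 : ℤ) < 2 ^ k := by positivity
  have h3 : fl σ y ω < fl σ y ω' + 1 := lt_of_mul_lt_mul_left (lt_of_le_of_lt h1.1 h2.2) hk.le
  have h4 : fl σ y ω' < fl σ y ω + 1 := lt_of_mul_lt_mul_left (lt_of_le_of_lt h2.1 h1.2) hk.le
  omega

section

variable (d : Dat) (m : d.Lam → ℤ)

/-- The tangential position. -/
noncomputable def ys (ω : d.Om) : ℝ := d.yR (d.L ω)

/-- The free part of the cell. -/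
noncomputable def Af (s : ℕ) (ω : d.Om) : ℤ × ℤ × ℤ :=
  (m (d.L ω), d.om (d.L ω), fl ((2 : ℝ) ^ s) (ys d) ω)

/-- The dependent part of the cell. -/
noncomputable def Bf (s : ℕ) (ω : d.Om) : ℤ := fl ((2 : ℝ) ^ s) (Yn d m) ω

variable {d m}

lemma Gc_eq (s : ℕ) (ω : d.Om) : Gc d m s ω =
    ((Af d m s ω).1, (Af d m s ω).2.1, (Af d m s ω).2.2, Bf d m s ω) := by
  unfold Gc Dat.GA Af Bf fl ys Yn
  rw [← mul_assoc, zpow_add₀ (by norm_num), zpow_natCast]

lemma Gc_iff {s : ℕ} {ω ω' : d.Om} : Gc d m s ω = Gc d m s ω' ↔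
    (Af d m s ω, Bf d m s ω) = (Af d m s ω', Bf d m s ω') := by
  rw [Gc_eq, Gc_eq]
  simp only [Prod.mk.injEq]
  constructor
  · rintro ⟨h1, h2, h3, h4⟩
    exact ⟨Prod.ext h1 (Prod.ext h2 h3), h4⟩
  · rintro ⟨h1, h2⟩
    rw [h1]
    exact ⟨rfl, rfl, rfl, h2⟩

lemma Gc_mono {s s' : ℕ} (h : s' ≤ s) {ω ω' : d.Om} (hG : Gc d m s ω = Gc d m s ω') :
    Gc d m s' ω = Gc d m s' ω' := by
  have e : (2 : ℝ) ^ s = 2 ^ (s - s') * 2 ^ s' := by
    rw [← pow_add, Nat.sub_add_cancel h]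
  rw [Gc_iff] at hG ⊢
  unfold Af Bf at hG ⊢
  simp only [Prod.mk.injEq] at hG ⊢
  obtain ⟨⟨h1, h2, h3⟩, h4⟩ := hG
  rw [e] at h3 h4
  exact ⟨⟨h1, h2, fl_mono _ _ _ h3⟩, fl_mono _ _ _ h4⟩

variable (d m)

/-- `s'` is a good depth in the window before `s`. -/
def PG (k K s : ℕ) (ε : ℝ) (ω : d.Om) (s' : ℕ) : Prop :=
  s < s' + K ∧ s' ≤ s ∧ Good d m k s' ε (Gc d m s' ω)

open Classical in
/-- The first good depth of the window. -/
noncomputable def fst' (k K s : ℕ) (ε : ℝ) (ω : d.Om) : Option ℕ :=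
  if h : ∃ s', PG d m k K s ε ω s' then some (Nat.find h) else none

open Classical in
/-- The affine function of a good cell. -/
noncomputable def acV (k s : ℕ) (ε : ℝ) (g : ℤ × ℤ × ℤ × ℤ) : ℝ × ℝ :=
  if h : Good d m k s ε g then h.choose else (0, 0)

/-- The affine function of the first good cell of the window. -/
noncomputable def dt (k K s : ℕ) (ε : ℝ) (ω : d.Om) : ℝ × ℝ :=
  match fst' d m k K s ε ω with
  | none => (0, 0)
  | some s' => acV d m k s' ε (Gc d m s' ω)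

variable {d m}

lemma acV_le (k s : ℕ) (ε : ℝ) (g : ℤ × ℤ × ℤ × ℤ) : |(acV d m k s ε g).2| ≤ 2 := by
  unfold acV
  split_ifs with h
  · exact h.choose_spec.1
  · simp

lemma dt_le (k K s : ℕ) (ε : ℝ) (ω : d.Om) : |(dt d m k K s ε ω).2| ≤ 2 := by
  unfold dt
  cases fst' d m k K s ε ω with
  | none => simp
  | some s' => exact acV_le _ _ _ _

lemma fst_some {k K s : ℕ} {ε : ℝ} {ω : d.Om} {s' : ℕ} : fst' d m k K s ε ω = some s' ↔
    PG d m k K s ε ω s' ∧ ∀ t < s', ¬ PG d m k K s ε ω t := by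
  classical
  unfold fst'
  constructor
  · intro h
    split_ifs at h with h1
    have h2 : Nat.find h1 = s' := Option.some_injective _ h
    exact (Nat.find_eq_iff h1).1 h2
  · intro h
    have h1 : ∃ s', PG d m k K s ε ω s' := ⟨s', h.1⟩
    rw [dif_pos h1]
    congr 1
    exact (Nat.find_eq_iff h1).2 h

lemma PG_congr {k K s : ℕ} {ε : ℝ} {ω ω' : d.Om} {s' t : ℕ} (hG : Gc d m s' ω = Gc d m s' ω')
    (ht : t ≤ s') : PG d m k K s ε ω t ↔ PG d m k K s ε ω' t := by
  unfold PG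
  rw [Gc_mono ht hG]

lemma fst_congr {k K s : ℕ} {ε : ℝ} {ω ω' : d.Om} {s' : ℕ} (hG : Gc d m s' ω = Gc d m s' ω') :
    fst' d m k K s ε ω = some s' → fst' d m k K s ε ω' = some s' := by
  rw [fst_some, fst_some]
  rintro ⟨h1, h2⟩
  exact ⟨(PG_congr hG le_rfl).1 h1, fun t ht h3 => h2 t ht ((PG_congr hG ht.le).2 h3)⟩

lemma fst_none {k K s : ℕ} {ε : ℝ} {ω : d.Om} : fst' d m k K s ε ω = none ↔
    ∀ t, ¬ PG d m k K s ε ω t := by
  classical
  unfold fst'
  constructor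
  · intro h
    split_ifs at h with h1
    intro t ht
    exact h1 ⟨t, ht⟩
  · intro h
    rw [dif_neg]
    rintro ⟨t, ht⟩
    exact h t ht

lemma fst_eq {k K s : ℕ} {ε : ℝ} {ω ω' : d.Om} (hG : Gc d m s ω = Gc d m s ω') :
    fst' d m k K s ε ω = fst' d m k K s ε ω' := by
  cases h : fst' d m k K s ε ω with
  | none =>
    rw [fst_none] at h
    symm
    rw [fst_none]
    intro t ht
    exact h t ((PG_congr hG ht.2.1).2 ht)
  | some s' =>
    have h1 := (fst_some.1 h).1.2.1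
    exact (fst_congr (Gc_mono h1 hG) h).symm

lemma dt_eq {k K s : ℕ} {ε : ℝ} {ω ω' : d.Om} (hG : Gc d m s ω = Gc d m s ω') :
    dt d m k K s ε ω = dt d m k K s ε ω' := by
  have h := fst_eq (k := k) (K := K) (ε := ε) hG
  unfold dt
  rw [← h]
  cases h1 : fst' d m k K s ε ω with
  | none => rfl
  | some s' =>
    have h2 := (fst_some.1 h1).1.2.1
    show acV d m k s' ε (Gc d m s' ω) = acV d m k s' ε (Gc d m s' ω')
    rw [Gc_mono h2 hG]

/-- The violation at the first good depth. -/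
def Vio (d : Dat) (m : d.Lam → ℤ) (k K s : ℕ) (ε : ℝ) : Set d.Om :=
  {ω | ∃ s', fst' d m k K s ε ω = some s' ∧
    ω ∈ viol d m k s' (acV d m k s' ε (Gc d m s' ω))}

/-- The violation is rare. -/
theorem Vio_le {A : ℕ} (hOK : d.OK A) (k K s : ℕ) {ε : ℝ} (hε : 0 ≤ ε) :
    Pr d.P (Vio d m k K s ε) ≤ ε := by
  classical
  have hP := hOK.law.nonneg
  obtain ⟨G, hG⟩ : ∃ G : d.Om → Option (ℕ × ℤ × ℤ × ℤ × ℤ), G = fun ω =>
      (fst' d m k K s ε ω).map (fun s' => (s', Gc d m s' ω)) := ⟨_, rfl⟩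
  rw [← Pool.KX.AVG.Pr_cond_sum hP G]
  have h1 : ∑ ω, d.P ω * Pr (cond d.P G (G ω)) (Vio d m k K s ε) ≤ ∑ ω, d.P ω * ε := by
    refine Finset.sum_le_sum fun ω _ => ?_
    rcases (hP ω).eq_or_lt with h0 | h0
    · rw [← h0, zero_mul, zero_mul]
    refine mul_le_mul_of_nonneg_left ?_ h0.le
    have hc0 : ∀ v, 0 ≤ cond d.P G (G ω) v := fun v => cond_nonneg hP _ _ v
    cases h2 : fst' d m k K s ε ω with
    | none =>
      have h3 : Pr (cond d.P G (G ω)) (Vio d m k K s ε) ≤ Pr (cond d.P G (G ω)) ∅ := by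
        refine Pool.KAF.Pr_mono hc0 fun v hv hv' => ?_
        obtain ⟨-, h4⟩ := (cond_pos_iff hP _ _ v).1 hv
        obtain ⟨s', h5, -⟩ := hv'
        rw [hG] at h4
        simp only [h2, h5, Option.map_none, Option.map_some] at h4
        exact absurd h4 (by simp)
      refine h3.trans ?_
      rw [Pr_eq]
      simpa using hε
    | some s' =>
      have h3 : cond d.P G (G ω) = cond d.P (Gc d m s') (Gc d m s' ω) := by
        refine cond_congr_set _ fun ω' => ?_
        rw [hG]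
        simp only [h2, Option.map_some]
        constructor
        · intro h4
          cases h5 : fst' d m k K s ε ω' with
          | none => rw [h5] at h4; simp at h4
          | some t =>
            rw [h5] at h4
            simp only [Option.map_some, Option.some.injEq, Prod.mk.injEq] at h4
            obtain ⟨h6, h7⟩ := h4
            rw [h6] at h7
            exact h7
        · intro h4
          rw [fst_congr h4.symm h2]
          simp only [Option.map_some, h4]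
      rw [h3]
      have hgood := (fst_some.1 h2).1.2.2
      have h4 : Pr (cond d.P (Gc d m s') (Gc d m s' ω)) (Vio d m k K s ε) ≤
          Pr (cond d.P (Gc d m s') (Gc d m s' ω))
            (viol d m k s' (acV d m k s' ε (Gc d m s' ω))) := by
        refine Pool.KAF.Pr_mono (fun v => cond_nonneg hP _ _ v) fun v hv hv' => ?_
        obtain ⟨-, h5⟩ := (cond_pos_iff hP _ _ v).1 hv
        obtain ⟨t, h6, h7⟩ := hv'
        have h8 := fst_congr (k := k) (K := K) (s := s) (ε := ε) h5.symm h2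
        rw [h6] at h8
        have h9 : t = s' := Option.some_injective _ h8
        rw [h9, h5] at h7
        exact h7
      refine h4.trans ?_
      unfold acV
      rw [dif_pos hgood]
      exact hgood.choose_spec.2
  refine h1.trans (le_of_eq ?_)
  rw [← Finset.sum_mul, hOK.law.sum_one, one_mul]

/-- One step of the telescope: the next digits of the normal velocity. -/
theorem step {A : ℕ} (hOK : d.OK A) {a k K s : ℕ} (hk : a + K ≤ k) (hK : K ≤ s) {ε : ℝ}
    (hε : 0 ≤ ε) :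
    CH d.P (Bf d m (s + a)) (fun ω => (Af d m (s + a) ω, (Af d m s ω, Bf d m s ω))) ≤
      4 * Real.log 2 + (Pr d.P (Dst d m k K s ε) + ε) * (a * Real.log 2) := by
  classical
  have hP := hOK.law.nonneg
  obtain ⟨F, hF⟩ : ∃ F : (ℤ × ℤ × ℤ) × ℤ → ℝ × ℝ, dt d m k K s ε =
      F ∘ fun ω => (Af d m s ω, Bf d m s ω) := by
    have h1 : Function.FactorsThrough (dt d m k K s ε) (fun ω => (Af d m s ω, Bf d m s ω)) := by
      intro ω ω' h
      exact dt_eq (Gc_iff.2 h)
    exact (Function.factorsThrough_iff _).1 h1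
  have hFv : ∀ ω, F (Af d m s ω, Bf d m s ω) = dt d m k K s ε ω := fun ω => (congrFun hF ω).symm
  have hs2 : (0 : ℝ) < 2 ^ s := by positivity
  have ha2 : (0 : ℝ) < 2 ^ a := by positivity
  have h1 := Pool.OCT.atom hOK.law a hs2 (Yn d m) (fun ω => (Af d m s ω, Bf d m s ω))
    (Af d m (s + a)) (fun ω ω' _ _ h => (Prod.ext_iff.1 h).2)
    (fun g ω => (F g).1 + (F g).2 * ys d ω) (ρ := 1 / (2 ^ a * 2 ^ s))
    (v := 2 * (1 / (2 ^ a * 2 ^ s))) (κ := 8) (by positivity) (by positivity) (by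
      have : (2 : ℝ) ^ a * 2 ^ s * (2 * (1 / (2 ^ a * 2 ^ s) + 2 * (1 / (2 ^ a * 2 ^ s)))) = 6 := by
        field_simp
        norm_num
      rw [this]
      norm_num) (by
      intro ω ω' _ _ hG hA
      have e1 : (2 : ℝ) ^ (s + a) = 2 ^ a * 2 ^ s := by rw [pow_add, mul_comm]
      have h2 : fl ((2 : ℝ) ^ a * 2 ^ s) (ys d) ω = fl ((2 : ℝ) ^ a * 2 ^ s) (ys d) ω' := by
        rw [← e1]
        exact (Prod.ext_iff.1 (Prod.ext_iff.1 hA).2).2
      have h3 := Int.abs_sub_lt_one_of_floor_eq_floor (show ⌊(2 : ℝ) ^ a * 2 ^ s * ys d ω⌋ =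
        ⌊(2 : ℝ) ^ a * 2 ^ s * ys d ω'⌋ from h2)
      rw [← mul_sub, abs_mul, abs_of_pos (by positivity)] at h3
      have h4 : |ys d ω - ys d ω'| ≤ 1 / (2 ^ a * 2 ^ s) := by
        rw [le_div_iff₀ (by positivity), mul_comm]
        exact h3.le
      have h5 : (F (Af d m s ω, Bf d m s ω)).1 + (F (Af d m s ω, Bf d m s ω)).2 * ys d ω -
          ((F (Af d m s ω, Bf d m s ω)).1 + (F (Af d m s ω, Bf d m s ω)).2 * ys d ω') =
          (F (Af d m s ω, Bf d m s ω)).2 * (ys d ω - ys d ω') := by ring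
      show |(F (Af d m s ω, Bf d m s ω)).1 + (F (Af d m s ω, Bf d m s ω)).2 * ys d ω -
          ((F (Af d m s ω, Bf d m s ω)).1 + (F (Af d m s ω, Bf d m s ω)).2 * ys d ω')| ≤ _
      rw [h5, hFv, abs_mul]
      exact mul_le_mul (dt_le k K s ε ω) h4 (abs_nonneg _) (by norm_num))
  have e1 : (2 : ℝ) ^ a * 2 ^ s = 2 ^ (s + a) := by rw [pow_add, mul_comm]
  have e2 : CH d.P (fl ((2 : ℝ) ^ a * 2 ^ s) (Yn d m))
      (fun ω => (Af d m (s + a) ω, (Af d m s ω, Bf d m s ω))) =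
      CH d.P (Bf d m (s + a)) (fun ω => (Af d m (s + a) ω, (Af d m s ω, Bf d m s ω))) := by
    rw [e1]
    rfl
  rw [e2] at h1
  refine h1.trans ?_
  have hl : Real.log 2 + Real.log 8 = 4 * Real.log 2 := by
    have : (8 : ℝ) = 2 ^ (3 : ℕ) := by norm_num
    rw [this, Real.log_pow]
    push_cast
    ring
  rw [hl]
  have hlog : 0 ≤ (a : ℝ) * Real.log 2 := by positivity
  refine add_le_add le_rfl (mul_le_mul_of_nonneg_right ?_ hlog)
  have h2 : Pr d.P {ω | 1 / ((2 : ℝ) ^ a * 2 ^ s) < |Yn d m ω -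
      ((F (Af d m s ω, Bf d m s ω)).1 + (F (Af d m s ω, Bf d m s ω)).2 * ys d ω)|} ≤
      Pr d.P (Dst d m k K s ε ∪ Vio d m k K s ε) := by
    refine Pool.KAF.Pr_mono hP fun ω _ hω => ?_
    by_cases hD : ω ∈ Dst d m k K s ε
    · exact Or.inl hD
    right
    have hω' : 1 / ((2 : ℝ) ^ a * 2 ^ s) < |Yn d m ω -
      ((F (Af d m s ω, Bf d m s ω)).1 + (F (Af d m s ω, Bf d m s ω)).2 * ys d ω)| := hω
    rw [hFv] at hω'
    cases h3 : fst' d m k K s ε ω with
    | none =>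
      exfalso
      apply hD
      rw [fst_none] at h3
      intro y hy hg
      exact h3 (s - y) ⟨by omega, by omega, hg⟩
    | some s' =>
      refine ⟨s', h3, ?_⟩
      have h4 : dt d m k K s ε ω = acV d m k s' ε (Gc d m s' ω) := by
        unfold dt
        rw [h3]
      rw [h4] at hω'
      have h5 := (fst_some.1 h3).1.1
      show (2 : ℝ) ^ (-((s' : ℤ) + k)) ≤ |Yn d m ω - (acV d m k s' ε (Gc d m s' ω)).1 -
        (acV d m k s' ε (Gc d m s' ω)).2 * d.yR (d.L ω)|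
      have h6 : (2 : ℝ) ^ (-((s' : ℤ) + k)) ≤ 1 / ((2 : ℝ) ^ a * 2 ^ s) := by
        rw [e1, one_div, ← zpow_natCast, ← zpow_neg]
        refine zpow_le_zpow_right₀ (by norm_num) ?_
        push_cast
        omega
      refine h6.trans (hω'.le.trans (le_of_eq ?_))
      congr 1
      unfold ys
      ring
  exact h2.trans ((Pool.KAF.Pr_union_le hP _ _).trans (add_le_add le_rfl (Vio_le hOK k K s hε)))

end

end Pool.OC.SP
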